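import Pool.Agent.Work.MP_4eca41_an.E.EDefs

/-!
# E/Cont: contact points; convexity of `Dpp W` along faces  (paper E1, E3 (i))

PROOFS.
`contact`: `W ≤ Φ` with equality at `z`, so `D2 W (h, 0) z ≤ D2 Φ (h, 0) z ≤ m h^2` for `|h| ≤ δ`; by `dpp_lim`
`D2 W (h, 0) z ≥ (Dpp W z - ε) h^2` for small `h`; take `h > 0` small: `Dpp W z ≤ m + ε` for all `ε > 0`.
`face_d2`: `t = (1 - θ) t1 + θ t2` with `t1, t2 ∈ [a, b]`, `0 ≤ θ ≤ 1`.  For every `p'`: `W (p', t) ≤ (1 - θ) W (p', t1) + θ W (p', t2)` (convexity in `t`), and for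
`p' = p` there is equality because `W (p, ·)` is affine on `[a, b]` (`AffOn` at `t`, `t1`, `t2`; multiply by `b - a > 0`).  Apply the
inequality at `p ± k` and the equality at `p`.
`face_conv`: divide `face_d2` by `k^2` and let `k → 0` (`dpp_lim` at the three points).
-/

set_option autoImplicit false

namespace Pool.Agent.MP_4eca41.E

open Set MeasureTheory

theorem contact (C : ℝ) (W Φ : ℝ × ℝ → ℝ) (h11 : C11 C W) (hle : ∀ y, W y ≤ Φ y) (z : ℝ × ℝ)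
    (hz : W z = Φ z) (hg : DD W z) (m : ℝ)
    (hΦ : ∃ δ : ℝ, 0 < δ ∧ ∀ h : ℝ, |h| ≤ δ → D2 Φ (h, 0) z ≤ m * h ^ 2) : Dpp W z ≤ m := by
  apply le_of_forall_pos_le_add
  intro ε hε
  obtain ⟨δ, hδ, h1⟩ := hΦ
  obtain ⟨h0, hh0, h2⟩ := dpp_lim C W h11 z (Dpp W z) hg ε hε
  set h : ℝ := min δ h0 with hh
  have hpos : 0 < h := lt_min hδ hh0
  have e1 := h1 h (by rw [abs_of_pos hpos]; exact min_le_left _ _)
  have e2 := (abs_le.1 (h2 h (by rw [abs_of_pos hpos]; exact min_le_right _ _))).1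
  have e3 : D2 W (h, 0) z ≤ D2 Φ (h, 0) z := by
    unfold D2
    have a1 := hle (z + (h, 0))
    have a2 := hle (z - (h, 0))
    linarith
  have hsq : 0 < h ^ 2 := by positivity
  have e4 : Dpp W z * h ^ 2 ≤ (m + ε) * h ^ 2 := by nlinarith
  exact le_of_mul_le_mul_right e4 hsq

theorem face_d2 (W : ℝ × ℝ → ℝ) (hc : ∀ p, ConvexOn ℝ univ fun t => W (p, t))
    (p a b t1 t2 θ k : ℝ) (hab : a < b) (hA : B.AffOn W p a b) (h1 : t1 ∈ Icc a b) (h2 : t2 ∈ Icc a b)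
    (h0 : 0 ≤ θ) (hθ : θ ≤ 1) :
    D2 W (k, 0) (p, (1 - θ) * t1 + θ * t2) ≤ (1 - θ) * D2 W (k, 0) (p, t1) + θ * D2 W (k, 0) (p, t2) := by
  set t : ℝ := (1 - θ) * t1 + θ * t2 with ht
  have hconv : ∀ p' : ℝ, W (p', t) ≤ (1 - θ) * W (p', t1) + θ * W (p', t2) := by
    intro p'
    have := (hc p').2 (mem_univ t1) (mem_univ t2) (sub_nonneg.2 hθ) h0 (by ring)
    simpa only [smul_eq_mul] using this
  have htI : t ∈ Icc a b := by
    constructor
    · have a1 := mul_le_mul_of_nonneg_left h1.1 (sub_nonneg.2 hθ)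
      have a2 := mul_le_mul_of_nonneg_left h2.1 h0
      nlinarith
    · have a1 := mul_le_mul_of_nonneg_left h1.2 (sub_nonneg.2 hθ)
      have a2 := mul_le_mul_of_nonneg_left h2.2 h0
      nlinarith
  have heq : W (p, t) = (1 - θ) * W (p, t1) + θ * W (p, t2) := by
    have e0 := hA t htI
    have e1 := hA t1 h1
    have e2 := hA t2 h2
    have hba : b - a ≠ 0 := (sub_pos.2 hab).ne'
    apply mul_left_cancel₀ hba
    rw [ht] at e0 ⊢
    linear_combination e0 - (1 - θ) * e1 - θ * e2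
  have c1 := hconv (p + k)
  have c2 := hconv (p - k)
  simp only [D2, Prod.mk_add_mk, Prod.mk_sub_mk, add_zero, sub_zero]
  linarith

theorem face_conv (C : ℝ) (W : ℝ × ℝ → ℝ) (h11 : C11 C W) (hc : ∀ p, ConvexOn ℝ univ fun t => W (p, t))
    (p a b t1 t2 θ : ℝ) (hab : a < b) (hA : B.AffOn W p a b) (h1 : t1 ∈ Icc a b) (h2 : t2 ∈ Icc a b)
    (h0 : 0 ≤ θ) (hθ : θ ≤ 1) (hg : DD W (p, (1 - θ) * t1 + θ * t2)) (hg1 : DD W (p, t1)) (hg2 : DD W (p, t2)) :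
    Dpp W (p, (1 - θ) * t1 + θ * t2) ≤ (1 - θ) * Dpp W (p, t1) + θ * Dpp W (p, t2) := by
  set t : ℝ := (1 - θ) * t1 + θ * t2 with ht
  apply le_of_forall_pos_le_add
  intro ε hε
  have hε2 : 0 < ε / 2 := by linarith
  obtain ⟨r0, hr0, k0⟩ := dpp_lim C W h11 (p, t) (Dpp W (p, t)) hg (ε / 2) hε2
  obtain ⟨r1, hr1, k1⟩ := dpp_lim C W h11 (p, t1) (Dpp W (p, t1)) hg1 (ε / 2) hε2
  obtain ⟨r2, hr2, k2⟩ := dpp_lim C W h11 (p, t2) (Dpp W (p, t2)) hg2 (ε / 2) hε2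
  set h : ℝ := min r0 (min r1 r2) with hh
  have hpos : 0 < h := lt_min hr0 (lt_min hr1 hr2)
  have e0 := (abs_le.1 (k0 h (by rw [abs_of_pos hpos]; exact min_le_left _ _))).1
  have e1 := (abs_le.1 (k1 h (by
    rw [abs_of_pos hpos]; exact (min_le_right _ _).trans (min_le_left _ _)))).2
  have e2 := (abs_le.1 (k2 h (by
    rw [abs_of_pos hpos]; exact (min_le_right _ _).trans (min_le_right _ _)))).2
  have e3 := face_d2 W hc p a b t1 t2 θ h hab hA h1 h2 h0 hθ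
  rw [← ht] at e3
  have hsq : 0 < h ^ 2 := by positivity
  have hθ' := sub_nonneg.2 hθ
  have f1 := mul_le_mul_of_nonneg_left e1 hθ'
  have f2 := mul_le_mul_of_nonneg_left e2 h0
  have e4 : Dpp W (p, t) * h ^ 2 ≤
      ((1 - θ) * Dpp W (p, t1) + θ * Dpp W (p, t2) + ε) * h ^ 2 := by nlinarith
  exact le_of_mul_le_mul_right e4 hsq

end Pool.Agent.MP_4eca41.E
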