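import Pool.Agent.Work.MP_4eca41_an.E.DensS

/-!
# E/Dens: density statements for a measurable function

PROOF.  Countably many null sets: apply `sdens` to `{y | q ≤ g y}` and `hdens` to `{y | g y ≤ q}`, `q` rational.  If `z` is a good
point and `m < g z`, take a rational `q` with `m < q < g z`: `z ∈ {y | q ≤ g y}` and `g y < m` implies `y ∉ {y | q ≤ g y}`
(monotonicity of the measure): `SD g m z`.  If `g z < M` take `g z < q < M`: `M < g (p, z.2)` implies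
`(p, z.2) ∉ {y | g y ≤ q}`: `HD g M z`.
-/

set_option autoImplicit false

namespace Pool.Agent.MP_4eca41.E

open Set MeasureTheory

theorem dens_fun (g : ℝ × ℝ → ℝ) (hg : Measurable g) :
    ∀ᵐ z : ℝ × ℝ, (∀ m : ℝ, m < g z → SD g m z) ∧ ∀ M : ℝ, g z < M → HD g M z := by
  have h1 : ∀ᵐ z : ℝ × ℝ, ∀ q : ℚ, z ∈ {y : ℝ × ℝ | (q : ℝ) ≤ g y} → ∀ η : ℝ, 0 < η →
      ∃ δ : ℝ, 0 < δ ∧ ∀ h k : ℝ, 0 < h → h < δ → 0 < k → k < δ →
      volume {y : ℝ × ℝ | |y.1 - z.1| ≤ h ∧ |y.2 - z.2| ≤ k ∧ y ∉ {y : ℝ × ℝ | (q : ℝ) ≤ g y}} ≤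
        ENNReal.ofReal (η * (h * k)) :=
    ae_all_iff.2 fun q => sdens _ (measurableSet_le measurable_const hg)
  have h2 : ∀ᵐ z : ℝ × ℝ, ∀ q : ℚ, z ∈ {y : ℝ × ℝ | g y ≤ (q : ℝ)} → ∀ η : ℝ, 0 < η →
      ∃ δ : ℝ, 0 < δ ∧ ∀ h : ℝ, 0 < h → h < δ →
      volume {p : ℝ | |p - z.1| ≤ h ∧ (p, z.2) ∉ {y : ℝ × ℝ | g y ≤ (q : ℝ)}} ≤
        ENNReal.ofReal (η * h) :=
    ae_all_iff.2 fun q => hdens _ (measurableSet_le hg measurable_const)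
  filter_upwards [h1, h2] with z hz1 hz2
  refine ⟨fun m hm η hη => ?_, fun M hM η hη => ?_⟩
  · obtain ⟨q, hq1, hq2⟩ := exists_rat_btwn hm
    obtain ⟨δ, hδ, h⟩ := hz1 q (by simpa using hq2.le) η hη
    refine ⟨δ, hδ, fun a b ha ha' hb hb' => le_trans (measure_mono ?_) (h a b ha ha' hb hb')⟩
    rintro y ⟨y1, y2, y3⟩
    exact ⟨y1, y2, by simpa using lt_trans y3 hq1⟩
  · obtain ⟨q, hq1, hq2⟩ := exists_rat_btwn hM
    obtain ⟨δ, hδ, h⟩ := hz2 q (by simpa using hq1.le) η hη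
    refine ⟨δ, hδ, fun a ha ha' => le_trans (measure_mono ?_) (h a ha ha')⟩
    rintro p ⟨p1, p2⟩
    exact ⟨p1, by simpa using lt_trans hq2 p2⟩

end Pool.Agent.MP_4eca41.E
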