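import Pool.Agent.Work.MP_4eca41_an.E.EDefs

/-!
# E/DensH: Lebesgue density on horizontal and vertical lines

PROOFS.
`hbad_meas`: `measurable_measure_prodMk_left` for the measurable set `{(z, p) | |p - z.1| ≤ h ∧ (p, z.2) ∉ E}` of
`(ℝ × ℝ) × ℝ`; `vbad_meas` in the same way.
`hdens`: let `F r z = volume {p | |p - z.1| ≤ r ∧ (p, z.2) ∉ E}`, monotone in `r`.  Let `A` be the set of the `z` with:
`z ∈ E → ∀ n : ℕ, ∃ m : ℕ, ∀ r : ℚ, 0 < r → r < 1/(m+1) → F r z ≤ ofReal (r/(n+1))`; it is measurable (`hbad_meas`,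
countable unions and intersections).  For every `t` almost every `p` has `(p, t) ∈ A`: Lebesgue density theorem on the line for
the set `{p | (p, t) ∉ E}` (Mathlib: `Besicovitch.ae_tendsto_measure_inter_div_of_measurableSet`, or
`IsUnifLocDoublingMeasure.ae_tendsto_measure_inter_div`): for a.e. `p` with `(p, t) ∈ E` the quotient
`volume (Eᶜ_t ∩ closedBall p r) / volume (closedBall p r)` tends to `0` as `r → 0+`, and `volume (closedBall p r) = 2 r`.
By Fubini (`Measure.measure_prod_null` for the measurable set `Aᶜ`, after exchanging the coordinates: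
`Measure.prod_swap`/`measurePreserving_swap`) `A` has full measure.  For `z ∈ A ∩ E`, `η > 0`: take `n` with `2/(n+1) ≤ η`, `m` as in `A`,
`δ = 1/(m+1)`; for `0 < h < δ` take a rational `r` with `h < r < min (2 h) δ`: `F h z ≤ F r z ≤ ofReal (r/(n+1)) ≤ ofReal (η h)`.
`vdens`: the same with the coordinates exchanged (or apply `hdens` to `Prod.swap ⁻¹' E` and `measurePreserving_swap`).
-/

set_option autoImplicit false

namespace Pool.Agent.MP_4eca41.E

open Set MeasureTheory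

theorem hbad_meas (E : Set (ℝ × ℝ)) (hE : MeasurableSet E) (h : ℝ) :
    Measurable fun z : ℝ × ℝ => volume {p : ℝ | |p - z.1| ≤ h ∧ (p, z.2) ∉ E} := by
  have hS : MeasurableSet {q : (ℝ × ℝ) × ℝ | |q.2 - q.1.1| ≤ h ∧ (q.2, q.1.2) ∉ E} := by
    apply MeasurableSet.inter
    · exact measurableSet_le (f := fun q : (ℝ × ℝ) × ℝ => |q.2 - q.1.1|) (g := fun _ => h)
        (Continuous.measurable (by fun_prop)) measurable_const
    · have hm : Measurable fun q : (ℝ × ℝ) × ℝ => (q.2, q.1.2) := by fun_prop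
      exact (hm hE).compl
  exact measurable_measure_prodMk_left hS

theorem vbad_meas (E : Set (ℝ × ℝ)) (hE : MeasurableSet E) (k : ℝ) :
    Measurable fun z : ℝ × ℝ => volume {t : ℝ | |t - z.2| ≤ k ∧ (z.1, t) ∉ E} := by
  have hS : MeasurableSet {q : (ℝ × ℝ) × ℝ | |q.2 - q.1.2| ≤ k ∧ (q.1.1, q.2) ∉ E} := by
    apply MeasurableSet.inter
    · exact measurableSet_le (f := fun q : (ℝ × ℝ) × ℝ => |q.2 - q.1.2|) (g := fun _ => k)
        (Continuous.measurable (by fun_prop)) measurable_const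
    · have hm : Measurable fun q : (ℝ × ℝ) × ℝ => (q.1.1, q.2) := by fun_prop
      exact (hm hE).compl
  exact measurable_measure_prodMk_left hS

/-- Lebesgue density on the line, in the form used below. -/
private theorem line_dens (B : Set ℝ) (hB : MeasurableSet B) :
    ∀ᵐ p : ℝ, p ∉ B → ∀ n : ℕ, ∃ m : ℕ, ∀ r : ℚ, 0 < r → (r : ℝ) < 1 / ((m : ℝ) + 1) →
      volume {q : ℝ | |q - p| ≤ (r : ℝ) ∧ q ∈ B} ≤ ENNReal.ofReal ((r : ℝ) / ((n : ℝ) + 1)) := by
  filter_upwards [Besicovitch.ae_tendsto_measure_inter_div_of_measurableSet (μ := (volume : Measure ℝ)) hB]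
    with p hp hpB n
  have h0 : Filter.Tendsto (fun r : ℝ => volume (B ∩ Metric.closedBall p r) / volume (Metric.closedBall p r))
      (nhdsWithin 0 (Ioi 0)) (nhds 0) := by
    simpa [Set.indicator_of_notMem hpB] using hp
  have hc : (0 : ENNReal) < ENNReal.ofReal (1 / (2 * ((n : ℝ) + 1))) := by
    apply ENNReal.ofReal_pos.2; positivity
  have h1 := (h0.eventually (gt_mem_nhds hc))
  rw [eventually_nhdsWithin_iff, Metric.eventually_nhds_iff] at h1
  obtain ⟨ε, hε, h2⟩ := h1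
  obtain ⟨m, hm⟩ := exists_nat_one_div_lt hε
  refine ⟨m, fun r hr hrm => ?_⟩
  have hr' : (0 : ℝ) < (r : ℝ) := by exact_mod_cast hr
  have h3 := h2 (y := (r : ℝ)) (by
    rw [Real.dist_eq, sub_zero, abs_of_pos hr']; linarith) hr'
  have hvol : volume (Metric.closedBall p (r : ℝ)) = ENNReal.ofReal (2 * (r : ℝ)) := Real.volume_closedBall p r
  have hset : {q : ℝ | |q - p| ≤ (r : ℝ) ∧ q ∈ B} = B ∩ Metric.closedBall p (r : ℝ) := by
    ext q
    simp only [mem_ofPred_eq, mem_inter_iff, Metric.mem_closedBall, Real.dist_eq]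
    tauto
  rw [hset]
  rw [hvol] at h3
  have hne : ENNReal.ofReal (2 * (r : ℝ)) ≠ 0 := by
    simp only [ne_eq, ENNReal.ofReal_eq_zero, not_le]; positivity
  have h4 := (ENNReal.div_le_iff hne ENNReal.ofReal_ne_top).1 h3.le
  refine h4.trans ?_
  rw [← ENNReal.ofReal_mul (by positivity)]
  apply ENNReal.ofReal_le_ofReal
  have : 1 / (2 * ((n : ℝ) + 1)) * (2 * (r : ℝ)) = (r : ℝ) / ((n : ℝ) + 1) := by
    field_simp
  exact this.le

/-- The measurable set of good points (vertical). -/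
private theorem good_meas (E : Set (ℝ × ℝ)) (hE : MeasurableSet E) :
    MeasurableSet {z : ℝ × ℝ | z ∈ E → ∀ n : ℕ, ∃ m : ℕ, ∀ r : ℚ, 0 < r → (r : ℝ) < 1 / ((m : ℝ) + 1) →
      volume {t : ℝ | |t - z.2| ≤ (r : ℝ) ∧ (z.1, t) ∉ E} ≤ ENNReal.ofReal ((r : ℝ) / ((n : ℝ) + 1))} := by
  have h1 : {z : ℝ × ℝ | z ∈ E → ∀ n : ℕ, ∃ m : ℕ, ∀ r : ℚ, 0 < r → (r : ℝ) < 1 / ((m : ℝ) + 1) →
      volume {t : ℝ | |t - z.2| ≤ (r : ℝ) ∧ (z.1, t) ∉ E} ≤ ENNReal.ofReal ((r : ℝ) / ((n : ℝ) + 1))}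
      = Eᶜ ∪ ⋂ n : ℕ, ⋃ m : ℕ, ⋂ r : ℚ, {z : ℝ × ℝ | 0 < r → (r : ℝ) < 1 / ((m : ℝ) + 1) →
      volume {t : ℝ | |t - z.2| ≤ (r : ℝ) ∧ (z.1, t) ∉ E} ≤ ENNReal.ofReal ((r : ℝ) / ((n : ℝ) + 1))} := by
    ext z
    simp only [mem_ofPred_eq, mem_union, mem_compl_iff, mem_iInter, mem_iUnion]
    constructor
    · intro h
      by_cases hz : z ∈ E
      · right; exact h hz
      · left; exact hz
    · rintro (h | h) hz
      · exact absurd hz h
      · exact h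
  rw [h1]
  apply hE.compl.union
  apply MeasurableSet.iInter; intro n
  apply MeasurableSet.iUnion; intro m
  apply MeasurableSet.iInter; intro r
  by_cases ha : 0 < r
  · by_cases hb : (r : ℝ) < 1 / ((m : ℝ) + 1)
    · simp only [ha, hb, forall_true_left]
      exact measurableSet_le (vbad_meas E hE r) measurable_const
    · simp only [hb, false_imp_iff, imp_true_iff]
      exact MeasurableSet.univ
  · simp only [ha, false_imp_iff]
    exact MeasurableSet.univ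

private theorem exists_rat (h δ : ℝ) (hh : 0 < h) (hd : h < δ) :
    ∃ r : ℚ, 0 < r ∧ h < (r : ℝ) ∧ (r : ℝ) < 2 * h ∧ (r : ℝ) < δ := by
  obtain ⟨r, h1, h2⟩ := exists_rat_btwn (show h < min (2 * h) δ from lt_min (by linarith) hd)
  refine ⟨r, ?_, h1, h2.trans_le (min_le_left _ _), h2.trans_le (min_le_right _ _)⟩
  have : (0 : ℝ) < (r : ℝ) := hh.trans h1
  exact_mod_cast this

private theorem vdens' (E : Set (ℝ × ℝ)) (hE : MeasurableSet E) :
    ∀ᵐ z : ℝ × ℝ, z ∈ E → ∀ η : ℝ, 0 < η → ∃ δ : ℝ, 0 < δ ∧ ∀ k : ℝ, 0 < k → k < δ →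
      volume {t : ℝ | |t - z.2| ≤ k ∧ (z.1, t) ∉ E} ≤ ENNReal.ofReal (η * k) := by
  have hA := good_meas E hE
  have h1 : ∀ᵐ z : ℝ × ℝ, z ∈ E → ∀ n : ℕ, ∃ m : ℕ, ∀ r : ℚ, 0 < r → (r : ℝ) < 1 / ((m : ℝ) + 1) →
      volume {t : ℝ | |t - z.2| ≤ (r : ℝ) ∧ (z.1, t) ∉ E} ≤ ENNReal.ofReal ((r : ℝ) / ((n : ℝ) + 1)) := by
    refine (Measure.ae_prod_iff_ae_ae (μ := (volume : Measure ℝ)) (ν := (volume : Measure ℝ)) hA).2 ?_
    refine Filter.Eventually.of_forall fun x => ?_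
    have hB : MeasurableSet {t : ℝ | (x, t) ∉ E} := by
      have hm : Measurable fun t : ℝ => (x, t) := by fun_prop
      exact (hm hE).compl
    filter_upwards [line_dens _ hB] with t ht htE
    exact ht (by simpa using htE)
  filter_upwards [h1] with z hz hzE η hη
  obtain ⟨n, hn⟩ := exists_nat_one_div_lt (show (0 : ℝ) < η / 2 by positivity)
  obtain ⟨m, hm⟩ := hz hzE n
  refine ⟨1 / ((m : ℝ) + 1), by positivity, fun k hk hkd => ?_⟩
  obtain ⟨r, hr0, hkr, hr2, hrd⟩ := exists_rat k _ hk hkd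
  have hn0 : (0 : ℝ) < (n : ℝ) + 1 := by positivity
  calc volume {t : ℝ | |t - z.2| ≤ k ∧ (z.1, t) ∉ E}
      ≤ volume {t : ℝ | |t - z.2| ≤ (r : ℝ) ∧ (z.1, t) ∉ E} :=
        measure_mono fun t ht => ⟨ht.1.trans hkr.le, ht.2⟩
    _ ≤ ENNReal.ofReal ((r : ℝ) / ((n : ℝ) + 1)) := hm r hr0 hrd
    _ ≤ ENNReal.ofReal (η * k) := by
        apply ENNReal.ofReal_le_ofReal
        rw [div_le_iff₀ hn0]
        have h5 : 1 < η / 2 * ((n : ℝ) + 1) := by
          rwa [div_lt_iff₀ hn0] at hn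
        nlinarith

theorem hdens (E : Set (ℝ × ℝ)) (hE : MeasurableSet E) :
    ∀ᵐ z : ℝ × ℝ, z ∈ E → ∀ η : ℝ, 0 < η → ∃ δ : ℝ, 0 < δ ∧ ∀ h : ℝ, 0 < h → h < δ →
      volume {p : ℝ | |p - z.1| ≤ h ∧ (p, z.2) ∉ E} ≤ ENNReal.ofReal (η * h) := by
  have hsw : MeasurePreserving (Prod.swap : ℝ × ℝ → ℝ × ℝ) volume volume := Measure.measurePreserving_swap
  have h1 := vdens' (Prod.swap ⁻¹' E) (measurable_swap hE)
  have h2 := hsw.quasiMeasurePreserving.ae h1
  filter_upwards [h2] with z hz hzE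
  exact hz (by simpa using hzE)

theorem vdens (E : Set (ℝ × ℝ)) (hE : MeasurableSet E) :
    ∀ᵐ z : ℝ × ℝ, z ∈ E → ∀ η : ℝ, 0 < η → ∃ δ : ℝ, 0 < δ ∧ ∀ k : ℝ, 0 < k → k < δ →
      volume {t : ℝ | |t - z.2| ≤ k ∧ (z.1, t) ∉ E} ≤ ENNReal.ofReal (η * k) :=
  vdens' E hE

end Pool.Agent.MP_4eca41.E
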