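import Pool.Agent.Work.MP_4eca41_an.E.DensH

/-!
# E/DensS: strong density (rectangles with arbitrary ratio of the sides)

PROOF.  For `n m : ℕ` let `H n m = {z ∈ E | ∀ r : ℚ, 0 < r → r < 1/(m+1) → F r z ≤ ofReal (r/(n+1))}`,
`F r z = volume {p | |p - z.1| ≤ r ∧ (p, z.2) ∉ E}`; measurable by `hbad_meas`.  By `hdens`, for a.e. `z ∈ E`: for all `n` there is
`m` with `z ∈ H n m`.  By `vdens` for the (countably many) sets `H n m`: a.e. `z` is, for all `n, m` with `z ∈ H n m`, a vertical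
density point of `H n m`.  Let `z` be such a point, `z ∈ E`, `η > 0`.  Take `n` with `8/(n+1) ≤ η`, `m` with `z ∈ H n m`, and `δ ≤ 1/(m+1)`
such that `volume {t | |t - z.2| ≤ k ∧ (z.1, t) ∉ H n m} ≤ ofReal (k/(n+1))` for `0 < k < δ`.  Let `0 < h, k < δ` and
`R = {y | |y.1 - z.1| ≤ h ∧ |y.2 - z.2| ≤ k ∧ y ∉ E}` (measurable).  By Fubini (`Measure.prod_apply_symm`),
`volume R = ∫⁻ t, volume {p | (p, t) ∈ R}`; for `|t - z.2| > k` the integrand is `0`; for `|t - z.2| ≤ k` with `(z.1, t) ∈ H n m`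
the slice is `{p | |p - z.1| ≤ h ∧ (p, t) ∉ E}`, of measure `F h (z.1, t) ≤ F r (z.1, t) ≤ ofReal (r/(n+1)) ≤ ofReal (2 h/(n+1))` for a rational
`r` with `h < r < min (2 h) δ`; for the other `t` (a set of measure `≤ ofReal (k/(n+1))`) the slice has measure
`≤ 2 h`.  Total `≤ 2 k · 2 h/(n+1) + 2 h · k/(n+1) = 6 h k/(n+1) ≤ η h k`.  (Write the integral as a sum over the two
measurable sets of `t`, `lintegral_mono`, `setLIntegral_const`.)
-/

set_option autoImplicit false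

namespace Pool.Agent.MP_4eca41.E

open Set MeasureTheory

private theorem exists_rat' (h δ : ℝ) (hh : 0 < h) (hd : h < δ) :
    ∃ r : ℚ, 0 < r ∧ h < (r : ℝ) ∧ (r : ℝ) < 2 * h ∧ (r : ℝ) < δ := by
  obtain ⟨r, h1, h2⟩ := exists_rat_btwn (show h < min (2 * h) δ from lt_min (by linarith) hd)
  refine ⟨r, ?_, h1, h2.trans_le (min_le_left _ _), h2.trans_le (min_le_right _ _)⟩
  have : (0 : ℝ) < (r : ℝ) := hh.trans h1
  exact_mod_cast this

/-- The sets `H n m`. -/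
private def HH (E : Set (ℝ × ℝ)) (n m : ℕ) : Set (ℝ × ℝ) :=
  {z | z ∈ E ∧ ∀ r : ℚ, 0 < r → (r : ℝ) < 1 / ((m : ℝ) + 1) →
    volume {p : ℝ | |p - z.1| ≤ (r : ℝ) ∧ (p, z.2) ∉ E} ≤ ENNReal.ofReal ((r : ℝ) / ((n : ℝ) + 1))}

private theorem HH_meas (E : Set (ℝ × ℝ)) (hE : MeasurableSet E) (n m : ℕ) : MeasurableSet (HH E n m) := by
  have h1 : HH E n m = E ∩ ⋂ r : ℚ, {z : ℝ × ℝ | 0 < r → (r : ℝ) < 1 / ((m : ℝ) + 1) →
      volume {p : ℝ | |p - z.1| ≤ (r : ℝ) ∧ (p, z.2) ∉ E} ≤ ENNReal.ofReal ((r : ℝ) / ((n : ℝ) + 1))} := by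
    ext z
    simp only [HH, mem_ofPred_eq, mem_inter_iff, mem_iInter]
  rw [h1]
  apply hE.inter
  apply MeasurableSet.iInter; intro r
  by_cases ha : 0 < r
  · by_cases hb : (r : ℝ) < 1 / ((m : ℝ) + 1)
    · simp only [ha, hb, forall_true_left]
      exact measurableSet_le (hbad_meas E hE r) measurable_const
    · simp only [hb, false_imp_iff, imp_true_iff]
      exact MeasurableSet.univ
  · simp only [ha, false_imp_iff]
    exact MeasurableSet.univ

theorem sdens (E : Set (ℝ × ℝ)) (hE : MeasurableSet E) :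
    ∀ᵐ z : ℝ × ℝ, z ∈ E → ∀ η : ℝ, 0 < η → ∃ δ : ℝ, 0 < δ ∧ ∀ h k : ℝ, 0 < h → h < δ → 0 < k → k < δ →
      volume {y : ℝ × ℝ | |y.1 - z.1| ≤ h ∧ |y.2 - z.2| ≤ k ∧ y ∉ E} ≤ ENNReal.ofReal (η * (h * k)) := by
  have hv : ∀ᵐ z : ℝ × ℝ, ∀ n m : ℕ, z ∈ HH E n m → ∀ η : ℝ, 0 < η → ∃ δ : ℝ, 0 < δ ∧ ∀ k : ℝ, 0 < k → k < δ →
      volume {t : ℝ | |t - z.2| ≤ k ∧ (z.1, t) ∉ HH E n m} ≤ ENNReal.ofReal (η * k) := by
    rw [ae_all_iff]; intro n
    rw [ae_all_iff]; intro m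
    exact vdens (HH E n m) (HH_meas E hE n m)
  filter_upwards [hdens E hE, hv] with z hh hv hz η hη
  obtain ⟨n, hn⟩ := exists_nat_one_div_lt (show (0 : ℝ) < η / 8 by positivity)
  have hn0 : (0 : ℝ) < (n : ℝ) + 1 := by positivity
  have hn1 : 8 < η * ((n : ℝ) + 1) := by
    rw [div_lt_iff₀ hn0] at hn; linarith
  obtain ⟨δ₁, hδ₁, h1⟩ := hh hz (1 / ((n : ℝ) + 1)) (by positivity)
  obtain ⟨m, hm⟩ := exists_nat_one_div_lt hδ₁
  have hzH : z ∈ HH E n m := by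
    refine ⟨hz, fun r hr hrm => ?_⟩
    have hr' : (0 : ℝ) < (r : ℝ) := by exact_mod_cast hr
    refine (h1 r hr' (hrm.trans hm)).trans (ENNReal.ofReal_le_ofReal (le_of_eq ?_))
    field_simp
  obtain ⟨δ₂, hδ₂, h2⟩ := hv n m hzH (1 / ((n : ℝ) + 1)) (by positivity)
  refine ⟨min δ₂ (1 / ((m : ℝ) + 1)), lt_min hδ₂ (by positivity), fun h k hh0 hhd hk0 hkd => ?_⟩
  obtain ⟨r, hr0, hhr, hr2, hrd⟩ := exists_rat' h _ hh0 (hhd.trans_le (min_le_right _ _))
  have hV := h2 k hk0 (hkd.trans_le (min_le_left _ _))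
  have hRm : MeasurableSet {y : ℝ × ℝ | |y.1 - z.1| ≤ h ∧ |y.2 - z.2| ≤ k ∧ y ∉ E} := by
    refine (measurableSet_le (f := fun y : ℝ × ℝ => |y.1 - z.1|) (g := fun _ => h)
      (Continuous.measurable (by fun_prop)) measurable_const).inter
      ((measurableSet_le (f := fun y : ℝ × ℝ => |y.2 - z.2|) (g := fun _ => k)
      (Continuous.measurable (by fun_prop)) measurable_const).inter hE.compl)
  have hvol : (volume : Measure (ℝ × ℝ)) = (volume : Measure ℝ).prod volume := rfl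
  have hT : MeasurableSet {t : ℝ | |t - z.2| ≤ k ∧ (z.1, t) ∉ HH E n m} := by
    refine (measurableSet_le (f := fun t : ℝ => |t - z.2|) (g := fun _ => k)
      (Continuous.measurable (by fun_prop)) measurable_const).inter ?_
    have hmm : Measurable fun t : ℝ => (z.1, t) := by fun_prop
    exact (hmm (HH_meas E hE n m)).compl
  have hK : volume {t : ℝ | |t - z.2| ≤ k} = ENNReal.ofReal (2 * k) := by
    have : {t : ℝ | |t - z.2| ≤ k} = Metric.closedBall z.2 k := by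
      ext t; simp [Metric.mem_closedBall, Real.dist_eq]
    rw [this, Real.volume_closedBall]
  have hKm : MeasurableSet {t : ℝ | |t - z.2| ≤ k} :=
    measurableSet_le (f := fun t : ℝ => |t - z.2|) (g := fun _ => k)
      (Continuous.measurable (by fun_prop)) measurable_const
  have hpt : ∀ t : ℝ, volume ((fun p : ℝ => (p, t)) ⁻¹' {y : ℝ × ℝ | |y.1 - z.1| ≤ h ∧ |y.2 - z.2| ≤ k ∧ y ∉ E}) ≤
      {t : ℝ | |t - z.2| ≤ k}.indicator (fun _ => ENNReal.ofReal (2 * h / ((n : ℝ) + 1))) t +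
      {t : ℝ | |t - z.2| ≤ k ∧ (z.1, t) ∉ HH E n m}.indicator (fun _ => ENNReal.ofReal (2 * h)) t := by
    intro t
    by_cases hk1 : |t - z.2| ≤ k
    · by_cases hk2 : (z.1, t) ∈ HH E n m
      · have e1 : t ∈ {t : ℝ | |t - z.2| ≤ k} := hk1
        rw [indicator_of_mem e1]
        refine le_add_right ?_
        calc volume ((fun p : ℝ => (p, t)) ⁻¹' {y : ℝ × ℝ | |y.1 - z.1| ≤ h ∧ |y.2 - z.2| ≤ k ∧ y ∉ E})
            ≤ volume {p : ℝ | |p - z.1| ≤ (r : ℝ) ∧ (p, t) ∉ E} :=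
              measure_mono fun p hp => ⟨hp.1.trans hhr.le, hp.2.2⟩
          _ ≤ ENNReal.ofReal ((r : ℝ) / ((n : ℝ) + 1)) := hk2.2 r hr0 hrd
          _ ≤ ENNReal.ofReal (2 * h / ((n : ℝ) + 1)) := by
              apply ENNReal.ofReal_le_ofReal
              gcongr
      · have e2 : t ∈ {t : ℝ | |t - z.2| ≤ k ∧ (z.1, t) ∉ HH E n m} := ⟨hk1, hk2⟩
        rw [indicator_of_mem e2]
        refine le_add_left ?_
        calc volume ((fun p : ℝ => (p, t)) ⁻¹' {y : ℝ × ℝ | |y.1 - z.1| ≤ h ∧ |y.2 - z.2| ≤ k ∧ y ∉ E})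
            ≤ volume (Metric.closedBall z.1 h) :=
              measure_mono fun p hp => by
                have := hp.1
                simpa [Metric.mem_closedBall, Real.dist_eq] using this
          _ = ENNReal.ofReal (2 * h) := Real.volume_closedBall _ _
    · have : (fun p : ℝ => (p, t)) ⁻¹' {y : ℝ × ℝ | |y.1 - z.1| ≤ h ∧ |y.2 - z.2| ≤ k ∧ y ∉ E} = ∅ := by
        ext p
        simp only [mem_preimage, mem_ofPred_eq, mem_empty_iff_false, iff_false]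
        exact fun hp => hk1 hp.2.1
      rw [this]; simp
  calc volume {y : ℝ × ℝ | |y.1 - z.1| ≤ h ∧ |y.2 - z.2| ≤ k ∧ y ∉ E}
      = ∫⁻ t, volume ((fun p : ℝ => (p, t)) ⁻¹' {y : ℝ × ℝ | |y.1 - z.1| ≤ h ∧ |y.2 - z.2| ≤ k ∧ y ∉ E}) := by
        rw [hvol, Measure.prod_apply_symm hRm]
    _ ≤ ∫⁻ t, ({t : ℝ | |t - z.2| ≤ k}.indicator (fun _ => ENNReal.ofReal (2 * h / ((n : ℝ) + 1))) t +
      {t : ℝ | |t - z.2| ≤ k ∧ (z.1, t) ∉ HH E n m}.indicator (fun _ => ENNReal.ofReal (2 * h)) t) :=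
        lintegral_mono hpt
    _ = ENNReal.ofReal (2 * h / ((n : ℝ) + 1)) * ENNReal.ofReal (2 * k) +
        ENNReal.ofReal (2 * h) * volume {t : ℝ | |t - z.2| ≤ k ∧ (z.1, t) ∉ HH E n m} := by
        rw [lintegral_add_left (measurable_const.indicator hKm), lintegral_indicator hKm, lintegral_indicator hT,
          setLIntegral_const, setLIntegral_const, hK]
    _ ≤ ENNReal.ofReal (2 * h / ((n : ℝ) + 1)) * ENNReal.ofReal (2 * k) +
        ENNReal.ofReal (2 * h) * ENNReal.ofReal (1 / ((n : ℝ) + 1) * k) := by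
        gcongr
    _ = ENNReal.ofReal (2 * h / ((n : ℝ) + 1) * (2 * k) + 2 * h * (1 / ((n : ℝ) + 1) * k)) := by
        have hp1 : (0 : ℝ) ≤ 2 * h / ((n : ℝ) + 1) := by positivity
        have hp2 : (0 : ℝ) ≤ 2 * h := by positivity
        rw [← ENNReal.ofReal_mul hp1, ← ENNReal.ofReal_mul hp2,
          ENNReal.ofReal_add (by positivity) (by positivity)]
    _ ≤ ENNReal.ofReal (η * (h * k)) := by
        apply ENNReal.ofReal_le_ofReal
        have e3 : 2 * h / ((n : ℝ) + 1) * (2 * k) + 2 * h * (1 / ((n : ℝ) + 1) * k) = 6 * (h * k) / ((n : ℝ) + 1) := by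
          field_simp; ring
        rw [e3, div_le_iff₀ hn0]
        have hp : 0 < h * k := by positivity
        nlinarith

end Pool.Agent.MP_4eca41.E
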