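import Pool.Agent.Work.MP_4eca41_an.Defs
import Pool.Agent.Work.MP_4eca41_an.T.T1
import Pool.Agent.Work.MP_4eca41_an.T.T2

/-!
# E0: functions of class C^{1,1}; common facts for the blocks E and F  (paper E0)

`C11 C W`: `W` continuous and `|D2 W v y| ≤ C sq v`.

PROOFS.
`c11_of_ext`: upper bound `D2 W v y ≤ M sq v` from `upp`.  Put `G = W - (M/2) sq`: continuous, `D2 G v y ≤ 0`, hence concave on the plane (midpoint concavity + continuity).  So
`G (y ± v) ≥ (G (y ± 2 v.1 e1) + G (y ± 2 v.2 e2))/2`, whence `D2 G v y ≥ (D2 G (2 v.1, 0) y + D2 G (0, 2 v.2) y)/2`.  `D2 W (h,0) y ≥ -Cβ h^2` (`cls_lower`, `β ≥ -Cβ`), `D2 W (0,h) y ≥ 0` (convexity in `t`), so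
`D2 G (h,0) ≥ -(Cβ + M) h^2` etc. and `D2 G v y ≥ -2 (Cβ + M) sq v`, `D2 W v y ≥ -C sq v`.
`c11_grad`: `W + (C/2) sq` is convex and `W - (C/2) sq` is concave on the plane: `W` is (Frechet) differentiable everywhere (a function squeezed between a convex and a concave quadratic perturbation; in one variable: left and right
derivatives agree); for a C^{1,1} function of one variable `φ` with `|φ(x+h)+φ(x-h)-2φ x| ≤ C h^2`: `|φ (x+h) - φ x - φ' x h| ≤ C h^2/2` and `φ'` is `C`-Lipschitz.  Joint Lipschitz bound of the gradient: from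
`|W (y+v) - W y - DW_y v| ≤ (C/2) sq v` for all `y, v`, by the standard comparison (`|DW_{y'} - DW_y| ≤ 4 C |y' - y|`): evaluate the three expansions at `y`, `y'`, `y' + v` with `|v| = |y' - y|`.
`dpp_meas`: `Dp W` is continuous; `measurable_deriv_with_param` (Mathlib) applied to `(t, p) ↦ Dp W (p, t)`.
`dpp_ae`: for each `t` the Lipschitz function `Dp W (·, t)` is differentiable a.e. (`LipschitzWith.ae_differentiableAt_real`), `Dpp W` is its `deriv`.
`dp_int`: Lipschitz functions are absolutely continuous: `∫ deriv = difference` (Mathlib: `LipschitzWith`/`AbsolutelyContinuousOnInterval.integral_deriv_eq_sub`).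
`d2_int`: integrate twice: `W (p+h) + W (p-h) - 2 W p = ∫_0^h (Dp W (p+u) - Dp W (p-u)) du`, and `Dp W (p+u) - Dp W (p-u) = ∫_{-u}^{u} Dpp W (p+r) dr`; Fubini (or: both sides have the same a.e. derivative in `h`).
`dpp_lim`: if `Dp W (·,t)` has derivative `g` at `p`: `Dp W (p+u) - Dp W (p-u) = 2 g u + o(u)`; integrate.
`dpp_ae_plane`: Fubini for the measurable set `{z | HasDerivAt (fun p => Dp W (p, z.2)) (Dpp W z) z.1}` (measurable: `measurableSet_of_differentiableAt_with_param`).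
`dpp_ge`: `cls_pointwise` and `dpp_lim`; `dpp_le`: `upp` and `dpp_lim`.
-/

set_option autoImplicit false

open Set MeasureTheory

namespace Pool.Agent.MP_4eca41

/-- `W` is of class `C^{1,1}` with constant `C`, in terms of second differences. -/
structure C11 (C : ℝ) (W : ℝ × ℝ → ℝ) : Prop where
  cont : Continuous W
  nn : 0 ≤ C
  bd : ∀ v y : ℝ × ℝ, |D2 W v y| ≤ C * sq v

private theorem e0_D2t {W : ℝ × ℝ → ℝ} (hW : ∀ p, ConvexOn ℝ univ fun t => W (p, t))
    (y : ℝ × ℝ) (h : ℝ) : 0 ≤ D2 W (0, h) y := by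
  obtain ⟨p, t⟩ := y
  have h1 := (hW p).2 (mem_univ (t + h)) (mem_univ (t - h)) (show (0 : ℝ) ≤ 1 / 2 by norm_num)
    (show (0 : ℝ) ≤ 1 / 2 by norm_num) (by norm_num)
  simp only [smul_eq_mul] at h1
  have h2 : 1 / 2 * (t + h) + 1 / 2 * (t - h) = t := by ring
  rw [h2] at h1
  simp only [D2, Prod.mk_add_mk, Prod.mk_sub_mk, add_zero, sub_zero]
  linarith

private theorem e0_small {X D : ℝ} (hD : 0 ≤ D) (h : ∀ u : ℝ, 0 < u → X ≤ D * u) : X ≤ 0 := by
  by_contra hX
  push Not at hX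
  have h1 := h (X / (2 * (D + 1))) (by positivity)
  have h2 : D * (X / (2 * (D + 1))) ≤ X / 2 := by
    rw [mul_div_assoc', div_le_div_iff₀ (by positivity) (by norm_num)]
    nlinarith
  linarith

private theorem e0_subgrad {f : ℝ → ℝ} (hf : ConvexOn ℝ univ f) (x : ℝ) :
    ∃ a : ℝ, ∀ y, f x + a * (y - x) ≤ f y := by
  have hx : x ∈ interior (univ : Set ℝ) := by rw [interior_univ]; exact mem_univ x
  refine ⟨derivWithin f (Ioi x) x, fun y => ?_⟩
  rcases lt_trichotomy x y with h | h | h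
  · have h1 := hf.rightDeriv_le_slope_of_mem_interior hx (mem_univ y) h
    rw [slope_def_field, le_div_iff₀ (by linarith)] at h1
    linarith
  · subst h
    simp
  · have h1 := hf.slope_le_leftDeriv_of_mem_interior (mem_univ y) hx h
    have h2 := hf.leftDeriv_le_rightDeriv_of_mem_interior hx
    have h3 := h1.trans h2
    rw [slope_def_field, div_le_iff₀ (by linarith)] at h3
    linarith

private theorem e0_oned {φ : ℝ → ℝ} {K : ℝ} (hK : 0 ≤ K) (hφ : Continuous φ)
    (h : ∀ x u : ℝ, |d2 φ u x| ≤ 2 * K * u ^ 2) (x : ℝ) :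
    ∃ p : ℝ, ∀ u : ℝ, |φ (x + u) - φ x - p * u| ≤ K * u ^ 2 := by
  have h1 : ConvexOn ℝ univ fun x => φ x + K * x ^ 2 := by
    refine sc_of_d2 K φ hφ fun x u => ?_
    have := (abs_le.1 (h x u)).1
    linarith
  have h2 : ConvexOn ℝ univ fun x => (fun x => -φ x) x + K * x ^ 2 := by
    refine sc_of_d2 K (fun x => -φ x) hφ.neg fun x u => ?_
    have := (abs_le.1 (h x u)).2
    unfold d2 at this ⊢
    linarith
  obtain ⟨a, ha⟩ := e0_subgrad h1 x
  obtain ⟨b, hb⟩ := e0_subgrad h2 x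
  have ha' : ∀ u : ℝ, (a - 2 * K * x) * u - K * u ^ 2 ≤ φ (x + u) - φ x := by
    intro u
    have := ha (x + u)
    rw [add_sub_cancel_left] at this
    nlinarith
  have hb' : ∀ u : ℝ, φ (x + u) - φ x ≤ (2 * K * x - b) * u + K * u ^ 2 := by
    intro u
    have := hb (x + u)
    simp only at this
    rw [add_sub_cancel_left] at this
    nlinarith
  have hδ : ∀ u : ℝ, ((a - 2 * K * x) - (2 * K * x - b)) * u ≤ 2 * K * u ^ 2 := by
    intro u
    have e1 := ha' u
    have e2 := hb' u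
    linarith
  have h0 : (a - 2 * K * x) = (2 * K * x - b) := by
    apply le_antisymm
    · have := e0_small (X := (a - 2 * K * x) - (2 * K * x - b)) (D := 2 * K) (by positivity)
        fun u hu => by
          have e1 := hδ u
          have e2 : ((a - 2 * K * x) - (2 * K * x - b)) * u ≤ (2 * K * u) * u := by
            nlinarith [e1]
          exact le_of_mul_le_mul_right e2 hu
      linarith
    · have := e0_small (X := (2 * K * x - b) - (a - 2 * K * x)) (D := 2 * K) (by positivity)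
        fun u hu => by
          have e1 := hδ (-u)
          have e2 : ((2 * K * x - b) - (a - 2 * K * x)) * u ≤ (2 * K * u) * u := by
            nlinarith [e1]
          exact le_of_mul_le_mul_right e2 hu
      linarith
  refine ⟨a - 2 * K * x, fun u => abs_le.2 ⟨?_, ?_⟩⟩
  · linarith [ha' u]
  · have := hb' u
    rw [← h0] at this
    linarith

private theorem e0_deriv {φ : ℝ → ℝ} {K p x : ℝ}
    (h : ∀ u : ℝ, |φ (x + u) - φ x - p * u| ≤ K * u ^ 2) : HasDerivAt φ p x := by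
  rw [hasDerivAt_iff_isLittleO_nhds_zero]
  have h1 : (fun u : ℝ => φ (x + u) - φ x - u • p) =O[nhds 0] fun u : ℝ => u ^ 2 := by
    refine Asymptotics.IsBigO.of_bound K (Filter.Eventually.of_forall fun u => ?_)
    rw [Real.norm_eq_abs, Real.norm_eq_abs, abs_of_nonneg (sq_nonneg u), smul_eq_mul, mul_comm u p]
    exact h u
  exact h1.trans_isLittleO (Asymptotics.isLittleO_pow_id one_lt_two)

theorem c11_of_ext (W β : ℝ × ℝ → ℝ) (hW : Continuous W) (hβ : Continuous β)
    (hb : ∃ C : ℝ, ∀ y, -C ≤ β y) (hc : Cls β W)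
    (hu : ∃ M : ℝ, 0 < M ∧ ∀ v y : ℝ × ℝ, D2 W v y ≤ M * v.2 ^ 2 - v.1 ^ 2 / M) :
    ∃ C : ℝ, C11 C W := by
  obtain ⟨Cb, hCb⟩ := hb
  obtain ⟨M, hM, hup⟩ := hu
  refine ⟨2 * (|Cb| + M), hW, by positivity, fun v y => abs_le.2 ⟨?_, ?_⟩⟩
  · -- the midpoint inequality for `W - (M/2) sq`
    have hG : ∀ w z : ℝ × ℝ, W (z + w) + W (z - w) - 2 * W z ≤ M * sq w := by
      intro w z
      have h1 := hup w z
      unfold D2 at h1
      have h2 : 0 ≤ w.1 ^ 2 / M := by positivity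
      have h3 : M * w.2 ^ 2 ≤ M * sq w := by
        unfold sq
        nlinarith [sq_nonneg w.1]
      linarith
    have g1 := hG (v.1, -v.2) (y + v)
    have g2 := hG (v.1, -v.2) (y - v)
    have e1 : y + v + (v.1, -v.2) = y + (2 * v.1, 0) := by
      ext
      · simp only [Prod.fst_add]; ring
      · simp only [Prod.snd_add]; ring
    have e2 : y + v - (v.1, -v.2) = y + (0, 2 * v.2) := by
      ext
      · simp only [Prod.fst_add, Prod.fst_sub]; ring
      · simp only [Prod.snd_add, Prod.snd_sub]; ring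
    have e3 : y - v + (v.1, -v.2) = y - (0, 2 * v.2) := by
      ext
      · simp only [Prod.fst_add, Prod.fst_sub]; ring
      · simp only [Prod.snd_add, Prod.snd_sub]; ring
    have e4 : y - v - (v.1, -v.2) = y - (2 * v.1, 0) := by
      ext
      · simp only [Prod.fst_sub]; ring
      · simp only [Prod.snd_sub]; ring
    have e5 : sq (v.1, -v.2) = sq v := by simp only [sq]; ring
    rw [e1, e2, e5] at g1
    rw [e3, e4, e5] at g2
    have a1 := cls_lower β W hβ hc (-Cb) y (2 * v.1) (fun s _ => hCb _)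
    have a2 := e0_D2t hc.1 y (2 * v.2)
    unfold D2 at a1 a2 ⊢
    have a3 : Cb * v.1 ^ 2 ≤ |Cb| * sq v := by
      have h1 : Cb * v.1 ^ 2 ≤ |Cb| * v.1 ^ 2 :=
        mul_le_mul_of_nonneg_right (le_abs_self Cb) (sq_nonneg _)
      have h2 : |Cb| * v.1 ^ 2 ≤ |Cb| * sq v := by
        apply mul_le_mul_of_nonneg_left _ (abs_nonneg _)
        unfold sq
        nlinarith [sq_nonneg v.2]
      linarith
    have a4 : 0 ≤ M * sq v := by unfold sq; positivity
    nlinarith
  · have h1 := hup v y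
    have h2 : 0 ≤ v.1 ^ 2 / M := by positivity
    have h3 : M * v.2 ^ 2 ≤ M * sq v := by
      unfold sq
      nlinarith [sq_nonneg v.1]
    have h4 : 0 ≤ |Cb| * sq v := by unfold sq; positivity
    have h5 : 0 ≤ M * sq v := by unfold sq; positivity
    nlinarith

/-- The derivative in `t`. -/
noncomputable def Dt (W : ℝ × ℝ → ℝ) (y : ℝ × ℝ) : ℝ := deriv (fun t => W (y.1, t)) y.2

private theorem e0_dir {C : ℝ} {W : ℝ × ℝ → ℝ} (h : C11 C W) (y v : ℝ × ℝ) :
    ∃ p : ℝ, ∀ u : ℝ, |W (y + u • v) - W y - p * u| ≤ C * sq v / 2 * u ^ 2 := by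
  have hC := h.nn
  have hs : 0 ≤ sq v := by unfold sq; positivity
  have hc : Continuous fun u : ℝ => W (y + u • v) :=
    h.cont.comp (by fun_prop)
  have hd : ∀ x u : ℝ, |d2 (fun u : ℝ => W (y + u • v)) u x| ≤ 2 * (C * sq v / 2) * u ^ 2 := by
    intro x u
    have h1 := h.bd (u • v) (y + x • v)
    have h2 : D2 W (u • v) (y + x • v) = d2 (fun u : ℝ => W (y + u • v)) u x := by
      unfold D2 d2
      have e1 : y + x • v + u • v = y + (x + u) • v := by rw [add_smul, add_assoc]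
      have e2 : y + x • v - u • v = y + (x - u) • v := by rw [sub_smul, add_sub_assoc]
      rw [e1, e2]
    have h3 : sq (u • v) = u ^ 2 * sq v := by
      simp only [sq, Prod.smul_fst, Prod.smul_snd, smul_eq_mul]
      ring
    rw [h2, h3] at h1
    refine h1.trans (le_of_eq ?_)
    ring
  obtain ⟨p, hp⟩ := e0_oned (by positivity) hc hd 0
  refine ⟨p, fun u => ?_⟩
  have h1 := hp u
  simp only [zero_add, zero_smul, add_zero] at h1
  exact h1

private theorem e0_dp {C : ℝ} {W : ℝ × ℝ → ℝ} (h : C11 C W) (y : ℝ × ℝ) :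
    HasDerivAt (fun p => W (p, y.2)) (Dp W y) y.1 ∧
      ∀ u : ℝ, |W (y + (u, 0)) - W y - Dp W y * u| ≤ C / 2 * u ^ 2 := by
  obtain ⟨p, hp⟩ := e0_dir h y (1, 0)
  have hp' : ∀ u : ℝ, |W (y + (u, 0)) - W y - p * u| ≤ C / 2 * u ^ 2 := by
    intro u
    have h1 := hp u
    have e1 : u • ((1, 0) : ℝ × ℝ) = (u, 0) := by simp
    have e2 : sq ((1, 0) : ℝ × ℝ) = 1 := by simp [sq]
    rw [e1, e2, mul_one] at h1
    exact h1
  have hd : HasDerivAt (fun p => W (p, y.2)) p y.1 := by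
    refine e0_deriv (K := C / 2) fun u => ?_
    have h1 := hp' u
    have e1 : y + (u, 0) = (y.1 + u, y.2) := by
      ext <;> simp
    rw [e1] at h1
    exact h1
  have he : Dp W y = p := hd.deriv
  rw [he]
  exact ⟨hd, hp'⟩

private theorem e0_dt {C : ℝ} {W : ℝ × ℝ → ℝ} (h : C11 C W) (y : ℝ × ℝ) :
    HasDerivAt (fun t => W (y.1, t)) (Dt W y) y.2 ∧
      ∀ u : ℝ, |W (y + (0, u)) - W y - Dt W y * u| ≤ C / 2 * u ^ 2 := by
  obtain ⟨p, hp⟩ := e0_dir h y (0, 1)
  have hp' : ∀ u : ℝ, |W (y + (0, u)) - W y - p * u| ≤ C / 2 * u ^ 2 := by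
    intro u
    have h1 := hp u
    have e1 : u • ((0, 1) : ℝ × ℝ) = (0, u) := by simp
    have e2 : sq ((0, 1) : ℝ × ℝ) = 1 := by simp [sq]
    rw [e1, e2, mul_one] at h1
    exact h1
  have hd : HasDerivAt (fun t => W (y.1, t)) p y.2 := by
    refine e0_deriv (K := C / 2) fun u => ?_
    have h1 := hp' u
    have e1 : y + (0, u) = (y.1, y.2 + u) := by
      ext <;> simp
    rw [e1] at h1
    exact h1
  have he : Dt W y = p := hd.deriv
  rw [he]
  exact ⟨hd, hp'⟩

private theorem e0_exp {C : ℝ} {W : ℝ × ℝ → ℝ} (h : C11 C W) (y v : ℝ × ℝ) :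
    |W (y + v) - W y - (Dp W y * v.1 + Dt W y * v.2)| ≤ C / 2 * sq v := by
  have hC := h.nn
  have hs : 0 ≤ sq v := by unfold sq; positivity
  obtain ⟨p, hp⟩ := e0_dir h y v
  obtain ⟨-, ha⟩ := e0_dp h y
  obtain ⟨-, hb⟩ := e0_dt h y
  have key : ∀ u : ℝ, 0 < u → |Dp W y * v.1 + Dt W y * v.2 - p| ≤ 2 * C * sq v * u := by
    intro u hu
    have h1 := h.bd (u * v.1, -(u * v.2)) (y + u • v)
    have e1 : y + u • v + (u * v.1, -(u * v.2)) = y + (2 * u * v.1, 0) := by
      ext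
      · simp only [Prod.fst_add, Prod.smul_fst, smul_eq_mul]; ring
      · simp only [Prod.snd_add, Prod.smul_snd, smul_eq_mul]; ring
    have e2 : y + u • v - (u * v.1, -(u * v.2)) = y + (0, 2 * u * v.2) := by
      ext
      · simp only [Prod.fst_add, Prod.fst_sub, Prod.smul_fst, smul_eq_mul]; ring
      · simp only [Prod.snd_add, Prod.snd_sub, Prod.smul_snd, smul_eq_mul]; ring
    have e3 : sq (u * v.1, -(u * v.2)) = u ^ 2 * sq v := by
      simp only [sq]; ring
    unfold D2 at h1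
    rw [e1, e2, e3] at h1
    have h2 := ha (2 * u * v.1)
    have h3 := hb (2 * u * v.2)
    have h4 := hp u
    have e4 : C / 2 * (2 * u * v.1) ^ 2 + C / 2 * (2 * u * v.2) ^ 2 = 2 * C * u ^ 2 * sq v := by
      simp only [sq]; ring
    obtain ⟨h1a, h1b⟩ := abs_le.1 h1
    obtain ⟨h2a, h2b⟩ := abs_le.1 h2
    obtain ⟨h3a, h3b⟩ := abs_le.1 h3
    obtain ⟨h4a, h4b⟩ := abs_le.1 h4
    have h5 : |2 * u * (Dp W y * v.1 + Dt W y * v.2 - p)| ≤ 2 * u * (2 * C * sq v * u) := by
      rw [abs_le]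
      constructor <;> nlinarith
    rw [abs_mul, abs_of_pos (by positivity : 0 < 2 * u)] at h5
    exact le_of_mul_le_mul_left h5 (by positivity)
  have h0 : |Dp W y * v.1 + Dt W y * v.2 - p| ≤ 0 :=
    e0_small (by positivity) key
  have h1 : Dp W y * v.1 + Dt W y * v.2 = p := by
    have := abs_nonneg (Dp W y * v.1 + Dt W y * v.2 - p)
    have h2 := abs_eq_zero.1 (le_antisymm h0 this)
    linarith
  have h2 := hp 1
  rw [one_smul, mul_one, one_pow, mul_one] at h2
  rw [h1]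
  refine h2.trans (le_of_eq ?_)
  ring

private theorem e0_lip {C : ℝ} {W : ℝ × ℝ → ℝ} (h : C11 C W) (y y' v : ℝ × ℝ) :
    |(Dp W y' - Dp W y) * v.1 + (Dt W y' - Dt W y) * v.2| ≤
      3 * C / 2 * (sq v + sq (y' - y)) := by
  have hC := h.nn
  have h1 := e0_exp h y' v
  have h2 := e0_exp h y (y' - y + v)
  have h3 := e0_exp h y (y' - y)
  have e1 : y + (y' - y + v) = y' + v := by abel
  have e2 : y + (y' - y) = y' := by abel
  rw [e1] at h2
  rw [e2] at h3
  have e3 : sq (y' - y + v) ≤ 2 * sq (y' - y) + 2 * sq v := by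
    simp only [sq, Prod.fst_add, Prod.snd_add]
    nlinarith [sq_nonneg ((y' - y).1 - v.1), sq_nonneg ((y' - y).2 - v.2)]
  have e4 := mul_le_mul_of_nonneg_left e3 (by positivity : 0 ≤ C / 2)
  simp only [Prod.fst_add, Prod.snd_add] at h2
  obtain ⟨h1a, h1b⟩ := abs_le.1 h1
  obtain ⟨h2a, h2b⟩ := abs_le.1 h2
  obtain ⟨h3a, h3b⟩ := abs_le.1 h3
  rw [abs_le]
  constructor <;> nlinarith

theorem c11_grad (C : ℝ) (W : ℝ × ℝ → ℝ) (h : C11 C W) :
    (∀ y : ℝ × ℝ, HasDerivAt (fun p => W (p, y.2)) (Dp W y) y.1) ∧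
      (∀ y : ℝ × ℝ, HasDerivAt (fun t => W (y.1, t)) (Dt W y) y.2) ∧
      (∀ y v : ℝ × ℝ, |W (y + v) - W y - (Dp W y * v.1 + Dt W y * v.2)| ≤ C * sq v) ∧
      ∃ L : ℝ, 0 ≤ L ∧ ∀ y y' : ℝ × ℝ,
        |Dp W y - Dp W y'| ≤ L * (|y.1 - y'.1| + |y.2 - y'.2|) ∧
        |Dt W y - Dt W y'| ≤ L * (|y.1 - y'.1| + |y.2 - y'.2|) := by
  have hC := h.nn
  refine ⟨fun y => (e0_dp h y).1, fun y => (e0_dt h y).1, fun y v => ?_, 3 * C, by positivity,
    fun y y' => ?_⟩
  · refine (e0_exp h y v).trans ?_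
    have hs : 0 ≤ sq v := by unfold sq; positivity
    nlinarith [mul_nonneg hC hs]
  · set ρ : ℝ := |y.1 - y'.1| + |y.2 - y'.2| with hρ
    have hρ0 : 0 ≤ ρ := by positivity
    have hsq : sq (y' - y) ≤ ρ ^ 2 := by
      simp only [sq, Prod.fst_sub, Prod.snd_sub]
      have e1 : (y'.1 - y.1) ^ 2 = |y.1 - y'.1| ^ 2 := by rw [sq_abs]; ring
      have e2 : (y'.2 - y.2) ^ 2 = |y.2 - y'.2| ^ 2 := by rw [sq_abs]; ring
      rw [e1, e2, hρ]
      nlinarith [abs_nonneg (y.1 - y'.1), abs_nonneg (y.2 - y'.2),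
        mul_nonneg (abs_nonneg (y.1 - y'.1)) (abs_nonneg (y.2 - y'.2))]
    rcases hρ0.eq_or_lt with h0 | h0
    · have e1 : |y.1 - y'.1| = 0 := by
        have := abs_nonneg (y.1 - y'.1)
        have := abs_nonneg (y.2 - y'.2)
        linarith
      have e2 : |y.2 - y'.2| = 0 := by
        have := abs_nonneg (y.1 - y'.1)
        have := abs_nonneg (y.2 - y'.2)
        linarith
      have e3 : y = y' := Prod.ext (sub_eq_zero.1 (abs_eq_zero.1 e1))
        (sub_eq_zero.1 (abs_eq_zero.1 e2))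
      rw [e3]
      simp only [sub_self, abs_zero]
      constructor <;> positivity
    · have k1 := e0_lip h y y' (ρ, 0)
      have k2 := e0_lip h y y' (0, ρ)
      have s1 : sq ((ρ, 0) : ℝ × ℝ) = ρ ^ 2 := by simp [sq]
      have s2 : sq ((0, ρ) : ℝ × ℝ) = ρ ^ 2 := by simp [sq]
      rw [s1] at k1
      rw [s2] at k2
      simp only [mul_zero, add_zero, zero_add] at k1 k2
      have hb : 3 * C / 2 * (ρ ^ 2 + sq (y' - y)) ≤ (3 * C * ρ) * ρ := by
        have := mul_le_mul_of_nonneg_left hsq (by positivity : 0 ≤ 3 * C / 2)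
        nlinarith
      constructor
      · rw [abs_mul, abs_of_pos h0] at k1
        rw [abs_sub_comm]
        exact le_of_mul_le_mul_right (k1.trans hb) h0
      · rw [abs_mul, abs_of_pos h0] at k2
        rw [abs_sub_comm]
        exact le_of_mul_le_mul_right (k2.trans hb) h0

private theorem e0_cont {g : ℝ × ℝ → ℝ} {L : ℝ}
    (h : ∀ y y' : ℝ × ℝ, |g y - g y'| ≤ L * (|y.1 - y'.1| + |y.2 - y'.2|)) : Continuous g := by
  rw [continuous_iff_continuousAt]
  intro y0
  rw [ContinuousAt, tendsto_iff_norm_sub_tendsto_zero]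
  have hz : Filter.Tendsto (fun y : ℝ × ℝ => L * (|y.1 - y0.1| + |y.2 - y0.2|)) (nhds y0)
      (nhds 0) := by
    have c : Continuous fun y : ℝ × ℝ => L * (|y.1 - y0.1| + |y.2 - y0.2|) := by fun_prop
    have := c.tendsto y0
    simpa using this
  refine squeeze_zero (fun y => norm_nonneg _) (fun y => ?_) hz
  rw [Real.norm_eq_abs]
  exact h y y0

theorem dp_continuous (C : ℝ) (W : ℝ × ℝ → ℝ) (h : C11 C W) : Continuous (Dp W) := by
  obtain ⟨-, -, -, L, -, hL⟩ := c11_grad C W h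
  exact e0_cont fun y y' => (hL y y').1

theorem dt_continuous (C : ℝ) (W : ℝ × ℝ → ℝ) (h : C11 C W) : Continuous (Dt W) := by
  obtain ⟨-, -, -, L, -, hL⟩ := c11_grad C W h
  exact e0_cont fun y y' => (hL y y').2

end Pool.Agent.MP_4eca41
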