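import Pool.Agent.Work.MP_4eca41_an.E.E0

/-!
# E0B: functions of class C^{1,1}; the almost everywhere second derivative `Dpp W`  (paper E0)

`C11 C W`: `W` continuous and `|D2 W v y| ≤ C sq v`.

PROOFS.
(The first two items are in E/E0.)
`c11_of_ext`: upper bound `D2 W v y ≤ M sq v` from `upp`.  Put `G = W - (M/2) sq`: continuous, `D2 G v y ≤ 0`, hence concave on the plane (midpoint concavity + continuity).  So
`G (y ± v) ≥ (G (y ± 2 v.1 e1) + G (y ± 2 v.2 e2))/2`, whence `D2 G v y ≥ (D2 G (2 v.1, 0) y + D2 G (0, 2 v.2) y)/2`.  `D2 W (h,0) y ≥ -Cβ h^2` (`cls_lower`, `β ≥ -Cβ`), `D2 W (0,h) y ≥ 0` (convexity in `t`), so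
`D2 G (h,0) ≥ -(Cβ + M) h^2` etc. and `D2 G v y ≥ -2 (Cβ + M) sq v`, `D2 W v y ≥ -C sq v`.
`c11_grad`: `W + (C/2) sq` is convex and `W - (C/2) sq` is concave on the plane: `W` is (Frechet) differentiable everywhere (a function squeezed between a convex and a concave quadratic perturbation; in one variable: left and right
derivatives agree); for a C^{1,1} function of one variable `φ` with `|φ(x+h)+φ(x-h)-2φ x| ≤ C h^2`: `|φ (x+h) - φ x - φ' x h| ≤ C h^2/2` and `φ'` is `C`-Lipschitz.  Joint Lipschitz bound of the gradient: from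
`|W (y+v) - W y - DW_y v| ≤ (C/2) sq v` for all `y, v`, by the standard comparison (`|DW_{y'} - DW_y| ≤ 4 C |y' - y|`): evaluate the three expansions at `y`, `y'`, `y' + v` with `|v| = |y' - y|`.
`dpp_meas`: `Dp W` is continuous; `measurable_deriv_with_param` (Mathlib) applied to `(t, p) ↦ Dp W (p, t)`.
`dpp_ae`: for each `t` the Lipschitz function `Dp W (·, t)` is differentiable a.e. (`LipschitzWith.ae_differentiableAt_real`), `Dpp W` is its `deriv`.
`dp_int`: Lipschitz functions are absolutely continuous: `∫ deriv = difference` (Mathlib: `LipschitzWith`/`AbsolutelyContinuousOnInterval.integral_deriv_eq_sub`).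
`d2_int`: integrate twice: `W (p+h) + W (p-h) - 2 W p = ∫_0^h (Dp W (p+u) - Dp W (p-u)) du`, and `Dp W (p+u) - Dp W (p-u) = ∫_{-u}^{u} Dpp W (p+r) dr`; Fubini (or: both sides have the same a.e. derivative in `h`).
`dpp_lim`: if `Dp W (·,t)` has derivative `g` at `p`: `Dp W (p+u) - Dp W (p-u) = 2 g u + o(u)`; integrate.
`dpp_ae_plane`: Fubini for the measurable set `{z | HasDerivAt (fun p => Dp W (p, z.2)) (Dpp W z) z.1}` (measurable: `measurableSet_of_differentiableAt_with_param`).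
`dpp_ge`: `cls_pointwise` and `dpp_lim`; `dpp_le`: `upp` and `dpp_lim`.
-/

set_option autoImplicit false

open Set MeasureTheory

namespace Pool.Agent.MP_4eca41

private theorem e0b_lip {C : ℝ} {W : ℝ × ℝ → ℝ} (h : C11 C W) :
    ∃ L : NNReal, ∀ t : ℝ, LipschitzWith L (fun p => Dp W (p, t)) := by
  obtain ⟨-, -, -, L, hL, hl⟩ := c11_grad C W h
  refine ⟨⟨L, hL⟩, fun t => LipschitzWith.of_dist_le_mul fun x y => ?_⟩
  have h1 : |Dp W (x, t) - Dp W (y, t)| ≤ L * (|x - y| + |t - t|) := (hl (x, t) (y, t)).1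
  rw [sub_self, abs_zero, add_zero] at h1
  rw [Real.dist_eq, Real.dist_eq]
  exact h1

private theorem e0b_ac {C : ℝ} {W : ℝ × ℝ → ℝ} (h : C11 C W) (t p a b : ℝ) :
    AbsolutelyContinuousOnInterval (fun u => Dp W (p + u, t)) a b := by
  obtain ⟨L, hL⟩ := e0b_lip h
  have h1 : LipschitzWith L (fun u => Dp W (p + u, t)) := by
    apply LipschitzWith.of_dist_le_mul
    intro x y
    have := (hL t).dist_le_mul (p + x) (p + y)
    rwa [dist_add_left] at this
  exact (h1.lipschitzOnWith (s := uIcc a b)).absolutelyContinuousOnInterval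

private theorem e0b_deriv (W : ℝ × ℝ → ℝ) (t p u : ℝ) :
    deriv (fun u => Dp W (p + u, t)) u = Dpp W (p + u, t) := by
  exact deriv_comp_const_add (fun q => Dp W (q, t)) p u

theorem dpp_meas (C : ℝ) (W : ℝ × ℝ → ℝ) (h : C11 C W) : Measurable (Dpp W) := by
  have hc := dp_continuous C W h
  have h1 : Continuous (Function.uncurry fun (t p : ℝ) => Dp W (p, t)) := by
    have : (Function.uncurry fun (t p : ℝ) => Dp W (p, t)) = fun q : ℝ × ℝ => Dp W (q.2, q.1) := by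
      funext q
      rfl
    rw [this]
    exact hc.comp (continuous_snd.prodMk continuous_fst)
  exact (measurable_deriv_with_param h1).comp measurable_swap

/-- Peano expansion, as a private lemma. -/
private theorem e0b_peano {C : ℝ} {W : ℝ × ℝ → ℝ} (h : C11 C W) (z : ℝ × ℝ) (g : ℝ)
    (hg : HasDerivAt (fun p => Dp W (p, z.2)) g z.1) (ε : ℝ) (hε : 0 < ε) :
    ∃ h0 : ℝ, 0 < h0 ∧ ∀ k : ℝ, |k| ≤ h0 →
      |W (z.1 + k, z.2) - W z - Dp W z * k - g * k ^ 2 / 2| ≤ ε * k ^ 2 := by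
  obtain ⟨hd, -⟩ := c11_grad C W h
  have h1 := hg.isLittleO
  rw [Asymptotics.isLittleO_iff] at h1
  have h2 := h1 hε
  rw [Metric.eventually_nhds_iff] at h2
  obtain ⟨r, hr, h3⟩ := h2
  refine ⟨r / 2, by positivity, fun k hk => ?_⟩
  set F : ℝ → ℝ := fun u => W (z.1 + u, z.2) - W z - Dp W z * u - g * u ^ 2 / 2 with hF
  have hF0 : F 0 = 0 := by
    simp only [hF, add_zero]
    simp
  have hF' : ∀ u : ℝ, HasDerivAt F (Dp W (z.1 + u, z.2) - Dp W z - g * u) u := by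
    intro u
    have e1 : HasDerivAt (fun u => W (z.1 + u, z.2)) (Dp W (z.1 + u, z.2)) u := by
      have := hd (z.1 + u, z.2)
      exact this.comp_const_add z.1 u
    have e2 : HasDerivAt (fun u : ℝ => Dp W z * u) (Dp W z) u := by
      simpa using (hasDerivAt_id u).const_mul (Dp W z)
    have e3 : HasDerivAt (fun u : ℝ => g * u ^ 2 / 2) (g * u) u := by
      have := ((hasDerivAt_pow 2 u).const_mul g).div_const 2
      have e : g * (((2 : ℕ) : ℝ) * u ^ (2 - 1)) / 2 = g * u := by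
        rw [Nat.cast_ofNat]
        ring
      rwa [e] at this
    exact ((e1.sub_const (W z)).sub e2).sub e3
  have hb : ∀ u ∈ uIcc 0 k, ‖Dp W (z.1 + u, z.2) - Dp W z - g * u‖ ≤ ε * |k| := by
    intro u hu
    have hu1 : |u| ≤ |k| := by
      rcases le_total 0 k with h0 | h0
      · rw [uIcc_of_le h0] at hu
        rw [abs_of_nonneg hu.1, abs_of_nonneg h0]
        exact hu.2
      · rw [uIcc_of_ge h0] at hu
        rw [abs_of_nonpos hu.2, abs_of_nonpos h0]
        linarith [hu.1]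
    have hd2 : dist (z.1 + u) z.1 < r := by
      rw [Real.dist_eq, add_sub_cancel_left]
      linarith
    have h4 := h3 hd2
    rw [add_sub_cancel_left, smul_eq_mul, Real.norm_eq_abs, Real.norm_eq_abs] at h4
    rw [Real.norm_eq_abs]
    have e : Dp W (z.1 + u, z.2) - Dp W z - g * u = Dp W (z.1 + u, z.2) - Dp W (z.1, z.2) - u * g := by
      ring
    rw [e]
    exact h4.trans (mul_le_mul_of_nonneg_left hu1 hε.le)
  have h5 := Convex.norm_image_sub_le_of_norm_hasDerivWithin_le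
    (fun u _ => (hF' u).hasDerivWithinAt) hb (convex_uIcc 0 k) left_mem_uIcc right_mem_uIcc
  rw [hF0, sub_zero, sub_zero, Real.norm_eq_abs, Real.norm_eq_abs] at h5
  calc |F k| ≤ ε * |k| * |k| := h5
    _ = ε * k ^ 2 := by rw [mul_assoc, ← pow_two, sq_abs]

private theorem e0b_D2 (W : ℝ × ℝ → ℝ) (z : ℝ × ℝ) (k : ℝ) :
    D2 W (k, 0) z = W (z.1 + k, z.2) + W (z.1 + -k, z.2) - 2 * W z := by
  unfold D2
  have e1 : z + (k, 0) = (z.1 + k, z.2) := by ext <;> simp
  have e2 : z - (k, 0) = (z.1 + -k, z.2) := by ext <;> simp [sub_eq_add_neg]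
  rw [e1, e2]

private theorem e0b_lim {C : ℝ} {W : ℝ × ℝ → ℝ} (h : C11 C W) (z : ℝ × ℝ) (g : ℝ)
    (hg : HasDerivAt (fun p => Dp W (p, z.2)) g z.1) (ε : ℝ) (hε : 0 < ε) :
    ∃ h0 : ℝ, 0 < h0 ∧ ∀ k : ℝ, |k| ≤ h0 → |D2 W (k, 0) z - g * k ^ 2| ≤ ε * k ^ 2 := by
  obtain ⟨h0, hh0, h1⟩ := e0b_peano h z g hg (ε / 2) (by positivity)
  refine ⟨h0, hh0, fun k hk => ?_⟩
  have a := abs_le.1 (h1 k hk)
  have b := abs_le.1 (h1 (-k) (by rwa [abs_neg]))
  rw [e0b_D2, abs_le]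
  constructor <;> nlinarith [a.1, a.2, b.1, b.2]

/-- a quadratic coefficient is determined -/
private theorem e0b_le {a b : ℝ} (h : ∀ ε : ℝ, 0 < ε → ∃ h0 : ℝ, 0 < h0 ∧ ∀ k : ℝ, 0 < k → k < h0 →
    (a - ε) * k ^ 2 ≤ (b + ε) * k ^ 2) : a ≤ b := by
  apply le_of_forall_pos_le_add
  intro ε hε
  obtain ⟨h0, hh0, h1⟩ := h (ε / 2) (by positivity)
  have h2 := h1 (h0 / 2) (by positivity) (by linarith)
  have h3 := le_of_mul_le_mul_right h2 (by positivity)
  linarith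

theorem dpp_bd (C : ℝ) (W : ℝ × ℝ → ℝ) (h : C11 C W) (z : ℝ × ℝ) : |Dpp W z| ≤ C := by
  by_cases hd : DifferentiableAt ℝ (fun p => Dp W (p, z.2)) z.1
  · have hg : HasDerivAt (fun p => Dp W (p, z.2)) (Dpp W z) z.1 := hd.hasDerivAt
    have hsq : ∀ k : ℝ, sq ((k, 0) : ℝ × ℝ) = k ^ 2 := by
      intro k
      unfold sq
      simp
    rw [abs_le]
    constructor
    · have : -(Dpp W z) ≤ C := by
        apply e0b_le
        intro ε hε
        obtain ⟨h0, hh0, h1⟩ := e0b_lim h z _ hg ε hε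
        refine ⟨h0, hh0, fun k hk hk' => ?_⟩
        have h2 := abs_le.1 (h1 k (by rw [abs_of_pos hk]; exact hk'.le))
        have h3 := abs_le.1 (h.bd (k, 0) z)
        rw [hsq] at h3
        have h4 : 0 ≤ ε * k ^ 2 := by positivity
        nlinarith [h2.1, h2.2, h3.1, h3.2]
      linarith
    · apply e0b_le
      intro ε hε
      obtain ⟨h0, hh0, h1⟩ := e0b_lim h z _ hg ε hε
      refine ⟨h0, hh0, fun k hk hk' => ?_⟩
      have h2 := abs_le.1 (h1 k (by rw [abs_of_pos hk]; exact hk'.le))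
      have h3 := abs_le.1 (h.bd (k, 0) z)
      rw [hsq] at h3
      have h4 : 0 ≤ ε * k ^ 2 := by positivity
      nlinarith [h2.1, h2.2, h3.1, h3.2]
  · have : Dpp W z = 0 := deriv_zero_of_not_differentiableAt hd
    rw [this, abs_zero]
    exact h.nn

theorem dpp_ae (C : ℝ) (W : ℝ × ℝ → ℝ) (h : C11 C W) (t : ℝ) :
    ∀ᵐ p : ℝ, HasDerivAt (fun p => Dp W (p, t)) (Dpp W (p, t)) p := by
  obtain ⟨L, hL⟩ := e0b_lip h
  filter_upwards [(hL t).ae_differentiableAt_real] with p hp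
  exact hp.hasDerivAt

theorem dpp_ae_plane (C : ℝ) (W : ℝ × ℝ → ℝ) (h : C11 C W) :
    ∀ᵐ z : ℝ × ℝ, HasDerivAt (fun p => Dp W (p, z.2)) (Dpp W z) z.1 := by
  have hc := dp_continuous C W h
  have h1 : Continuous (Function.uncurry fun (t p : ℝ) => Dp W (p, t)) := by
    have : (Function.uncurry fun (t p : ℝ) => Dp W (p, t)) = fun q : ℝ × ℝ => Dp W (q.2, q.1) := by
      funext q
      rfl
    rw [this]
    exact hc.comp (continuous_snd.prodMk continuous_fst)
  have h2 := measurableSet_of_differentiableAt_with_param ℝ h1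
  have h3 : ∀ᵐ q : ℝ × ℝ ∂((volume : Measure ℝ).prod volume),
      q ∈ {q : ℝ × ℝ | DifferentiableAt ℝ (fun p => Dp W (p, q.1)) q.2} := by
    rw [Measure.ae_prod_mem_iff_ae_ae_mem h2]
    refine ae_of_all _ fun t => ?_
    filter_upwards [dpp_ae C W h t] with p hp
    exact hp.differentiableAt
  have h4 := (Measure.measurePreserving_swap (μ := (volume : Measure ℝ))
    (ν := (volume : Measure ℝ))).quasiMeasurePreserving.ae h3
  rw [Measure.volume_eq_prod]
  filter_upwards [h4] with z hz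
  have hz' : DifferentiableAt ℝ (fun p => Dp W (p, z.2)) z.1 := hz
  exact hz'.hasDerivAt

/-- For almost every vertical line, almost every point is a point of differentiability. -/
theorem dpp_ae_vert (C : ℝ) (W : ℝ × ℝ → ℝ) (h : C11 C W) :
    ∀ᵐ p : ℝ, ∀ᵐ t : ℝ, HasDerivAt (fun p => Dp W (p, t)) (Dpp W (p, t)) p := by
  have h1 := dpp_ae_plane C W h
  rw [Measure.volume_eq_prod] at h1
  exact Measure.ae_ae_of_ae_prod h1

theorem dp_int (C : ℝ) (W : ℝ × ℝ → ℝ) (h : C11 C W) (t p1 p2 : ℝ) :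
    Dp W (p2, t) - Dp W (p1, t) = ∫ p in p1..p2, Dpp W (p, t) := by
  obtain ⟨L, hL⟩ := e0b_lip h
  have h1 := ((hL t).lipschitzOnWith (s := uIcc p1 p2)).absolutelyContinuousOnInterval
  exact h1.integral_deriv_eq_sub.symm

private theorem e0b_parts {C : ℝ} {W : ℝ × ℝ → ℝ} (h : C11 C W) (p t a b c : ℝ) :
    ∫ u in a..b, (u - c) * Dpp W (p + u, t) =
      (b - c) * Dp W (p + b, t) - (a - c) * Dp W (p + a, t) - (W (p + b, t) - W (p + a, t)) := by
  obtain ⟨hd, -⟩ := c11_grad C W h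
  have h1 := e0b_ac h t p a b
  have hlin : LipschitzWith 1 (fun u : ℝ => u - c) := by
    apply LipschitzWith.of_dist_le_mul
    intro x y
    rw [dist_sub_right]
    simp
  have h2 := (hlin.lipschitzOnWith (s := uIcc a b)).absolutelyContinuousOnInterval
  have h3 := h2.integral_mul_deriv_eq_deriv_mul h1
  simp only [e0b_deriv] at h3
  rw [h3]
  congr 1
  have hder : ∀ u : ℝ, deriv (fun u : ℝ => u - c) u = 1 := by
    intro u
    simp
  simp only [hder, one_mul]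
  have hcont : Continuous fun u : ℝ => Dp W (p + u, t) :=
    (dp_continuous C W h).comp ((continuous_const.add continuous_id).prodMk continuous_const)
  apply intervalIntegral.integral_eq_sub_of_hasDerivAt
    (f := fun u => W (p + u, t)) _ (hcont.intervalIntegrable a b)
  intro u _
  exact (hd (p + u, t)).comp_const_add p u

theorem d2_int (C : ℝ) (W : ℝ × ℝ → ℝ) (h : C11 C W) (p t k : ℝ) (hk : 0 ≤ k) :
    D2 W (k, 0) (p, t) = ∫ u in (-k)..k, (k - |u|) * Dpp W (p + u, t) := by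
  have hi : ∀ a b : ℝ, IntervalIntegrable (fun u => (k - |u|) * Dpp W (p + u, t)) volume a b := by
    intro a b
    have h1 := (e0b_ac h t p a b).intervalIntegrable_deriv
    have h2 : (deriv fun u => Dp W (p + u, t)) = fun u => Dpp W (p + u, t) := by
      funext u
      exact e0b_deriv W t p u
    rw [h2] at h1
    exact h1.continuousOn_mul (continuous_const.sub continuous_abs).continuousOn
  rw [← intervalIntegral.integral_add_adjacent_intervals (hi (-k) 0) (hi 0 k)]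
  have e1 : (∫ u in (0 : ℝ)..k, (k - |u|) * Dpp W (p + u, t)) =
      - ∫ u in (0 : ℝ)..k, (u - k) * Dpp W (p + u, t) := by
    rw [← intervalIntegral.integral_neg]
    refine intervalIntegral.integral_congr fun s hs => ?_
    rw [uIcc_of_le hk] at hs
    show (k - |s|) * Dpp W (p + s, t) = -((s - k) * Dpp W (p + s, t))
    rw [abs_of_nonneg hs.1]
    ring
  have e2 : (∫ u in (-k)..(0 : ℝ), (k - |u|) * Dpp W (p + u, t)) =
      ∫ u in (-k)..(0 : ℝ), (u - -k) * Dpp W (p + u, t) := by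
    refine intervalIntegral.integral_congr fun s hs => ?_
    rw [uIcc_of_le (by linarith)] at hs
    show (k - |s|) * Dpp W (p + s, t) = (s - -k) * Dpp W (p + s, t)
    rw [abs_of_nonpos hs.2]
    ring
  rw [e1, e2, e0b_parts h, e0b_parts h, e0b_D2]
  simp only [add_zero]
  ring

theorem dpp_lim (C : ℝ) (W : ℝ × ℝ → ℝ) (h : C11 C W) (z : ℝ × ℝ) (g : ℝ)
    (hg : HasDerivAt (fun p => Dp W (p, z.2)) g z.1) (ε : ℝ) (hε : 0 < ε) :
    ∃ h0 : ℝ, 0 < h0 ∧ ∀ k : ℝ, |k| ≤ h0 → |D2 W (k, 0) z - g * k ^ 2| ≤ ε * k ^ 2 :=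
  e0b_lim h z g hg ε hε

/-- Peano expansion in `p` at a point of differentiability of `Dp W`. -/
theorem dpp_peano (C : ℝ) (W : ℝ × ℝ → ℝ) (h : C11 C W) (z : ℝ × ℝ) (g : ℝ)
    (hg : HasDerivAt (fun p => Dp W (p, z.2)) g z.1) (ε : ℝ) (hε : 0 < ε) :
    ∃ h0 : ℝ, 0 < h0 ∧ ∀ k : ℝ, |k| ≤ h0 →
      |W (z.1 + k, z.2) - W z - Dp W z * k - g * k ^ 2 / 2| ≤ ε * k ^ 2 :=
  e0b_peano h z g hg ε hε

theorem dpp_ge (C : ℝ) (W β : ℝ × ℝ → ℝ) (h : C11 C W) (hβ : Continuous β) (hc : Cls β W)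
    (z : ℝ × ℝ) (g : ℝ) (hg : HasDerivAt (fun p => Dp W (p, z.2)) g z.1) : β z ≤ g := by
  apply e0b_le
  intro ε hε
  obtain ⟨h0, hh0, h1⟩ := e0b_lim h z _ hg ε hε
  obtain ⟨h0', hh0', h2⟩ := cls_pointwise β W hβ hc z ε hε
  refine ⟨min h0 h0', lt_min hh0 hh0', fun k hk hk' => ?_⟩
  obtain ⟨k1, k2⟩ := lt_min_iff.1 hk'
  have h3 := abs_le.1 (h1 k (by rw [abs_of_pos hk]; exact k1.le))
  have h4 := h2 k hk k2
  nlinarith [h3.1, h3.2]

theorem dpp_le (C M : ℝ) (W : ℝ × ℝ → ℝ) (h : C11 C W) (hM : 0 < M)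
    (hu : ∀ v y : ℝ × ℝ, D2 W v y ≤ M * v.2 ^ 2 - v.1 ^ 2 / M)
    (z : ℝ × ℝ) (g : ℝ) (hg : HasDerivAt (fun p => Dp W (p, z.2)) g z.1) : g ≤ -1 / M := by
  apply e0b_le
  intro ε hε
  obtain ⟨h0, hh0, h1⟩ := e0b_lim h z _ hg ε hε
  refine ⟨h0, hh0, fun k hk hk' => ?_⟩
  have h3 := abs_le.1 (h1 k (by rw [abs_of_pos hk]; exact hk'.le))
  have h4 := hu (k, 0) z
  simp only at h4
  have h5 : 0 ≤ ε * k ^ 2 := by positivity
  have h6 : -1 / M * k ^ 2 = M * (0 : ℝ) ^ 2 - k ^ 2 / M := by ring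
  nlinarith [h3.1, h3.2]

/-- `Dp W (·, t)` has derivative equal to the coefficient at points with a second order expansion (a.e. use). -/
theorem dpp_eq (C : ℝ) (W : ℝ × ℝ → ℝ) (h : C11 C W) (z : ℝ × ℝ) (g A : ℝ)
    (hg : HasDerivAt (fun p => Dp W (p, z.2)) g z.1)
    (hA : ∀ κ : ℝ, 0 < κ → ∃ δ : ℝ, 0 < δ ∧ ∀ k : ℝ, |k| ≤ δ → |D2 W (k, 0) z - A * k ^ 2| ≤ κ * k ^ 2) :
    g = A := by
  have key : ∀ ε : ℝ, 0 < ε → ∃ h0 : ℝ, 0 < h0 ∧ ∀ k : ℝ, 0 < k → k < h0 →
      |D2 W (k, 0) z - g * k ^ 2| ≤ ε * k ^ 2 ∧ |D2 W (k, 0) z - A * k ^ 2| ≤ ε * k ^ 2 := by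
    intro ε hε
    obtain ⟨h0, hh0, h1⟩ := e0b_lim h z _ hg ε hε
    obtain ⟨h0', hh0', h2⟩ := hA ε hε
    refine ⟨min h0 h0', lt_min hh0 hh0', fun k hk hk' => ?_⟩
    obtain ⟨k1, k2⟩ := lt_min_iff.1 hk'
    exact ⟨h1 k (by rw [abs_of_pos hk]; exact k1.le), h2 k (by rw [abs_of_pos hk]; exact k2.le)⟩
  apply le_antisymm
  · apply e0b_le
    intro ε hε
    obtain ⟨h0, hh0, h1⟩ := key ε hε
    refine ⟨h0, hh0, fun k hk hk' => ?_⟩
    obtain ⟨a, b⟩ := h1 k hk hk'
    have a' := abs_le.1 a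
    have b' := abs_le.1 b
    nlinarith [a'.1, a'.2, b'.1, b'.2]
  · apply e0b_le
    intro ε hε
    obtain ⟨h0, hh0, h1⟩ := key ε hε
    refine ⟨h0, hh0, fun k hk hk' => ?_⟩
    obtain ⟨a, b⟩ := h1 k hk hk'
    have a' := abs_le.1 a
    have b' := abs_le.1 b
    nlinarith [a'.1, a'.2, b'.1, b'.2]

end Pool.Agent.MP_4eca41
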