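import Pool.Agent.Work.MP_4eca41_an.E.E0B
import Pool.Agent.Work.MP_4eca41_an.B.AffA

/-!
# Definitions for block E

`EE C W Φ β`: the data of block E without the set `S` (the statement is invariant under `t ↦ -t`).
`DD W z`: `Dp W (·, z.2)` is differentiable at `z.1`, with derivative `Dpp W z`.
`FR`, `FL`, `FI`: `z` is the lower end / upper end / an interior point of a vertical segment on which `W` is affine.
`SD g m z`: the points of small rectangles about `z` where `g < m` have small proportion, whatever the ratio of the sides.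
`HD g M z`: on the horizontal line through `z` the points where `g > M` have small proportion.
`W1f`, `qf`: the averages of `W` (window of size `ε |h|`, `ker` weights) and the comparison function.
-/

set_option autoImplicit false

namespace Pool.Agent.MP_4eca41.E

open Set MeasureTheory

/-- The data of block E without the set `S`. -/
structure EE (C : ℝ) (W Φ β : ℝ × ℝ → ℝ) : Prop where
  c11 : C11 C W
  contΦ : Continuous Φ
  contβ : Continuous β
  le : ∀ y, W y ≤ Φ y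
  cls : Cls β W
  max : ∀ q : ℝ × ℝ → ℝ, Continuous q → Cls β q → (∀ y, q y ≤ Φ y) → ∀ y, q y ≤ W y
  conc : ∀ (h : ℝ) (y : ℝ × ℝ), D2 W (h, 0) y ≤ 0
  gr : ∃ c C : ℝ, 0 < c ∧ ∀ y : ℝ × ℝ, c * y.2 ^ 2 - C * (1 + y.1 ^ 2) ≤ W y

/-- `Dp W` is differentiable in the first variable at `z`. -/
def DD (W : ℝ × ℝ → ℝ) (z : ℝ × ℝ) : Prop := HasDerivAt (fun p => Dp W (p, z.2)) (Dpp W z) z.1

/-- `z` is the lower end of a vertical segment on which `W` is affine. -/
def FR (W : ℝ × ℝ → ℝ) (z : ℝ × ℝ) : Prop := ∃ s : ℝ, 0 < s ∧ B.AffOn W z.1 z.2 (z.2 + s)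

/-- `z` is the upper end of a vertical segment on which `W` is affine. -/
def FL (W : ℝ × ℝ → ℝ) (z : ℝ × ℝ) : Prop := ∃ s : ℝ, 0 < s ∧ B.AffOn W z.1 (z.2 - s) z.2

/-- `z` is an interior point of a vertical segment on which `W` is affine. -/
def FI (W : ℝ × ℝ → ℝ) (z : ℝ × ℝ) : Prop := ∃ s : ℝ, 0 < s ∧ B.AffOn W z.1 (z.2 - s) (z.2 + s)

/-- The points of a small rectangle where `g < m` have small proportion. -/
def SD (g : ℝ × ℝ → ℝ) (m : ℝ) (z : ℝ × ℝ) : Prop :=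
  ∀ η : ℝ, 0 < η → ∃ δ : ℝ, 0 < δ ∧ ∀ h k : ℝ, 0 < h → h < δ → 0 < k → k < δ →
    volume {y : ℝ × ℝ | |y.1 - z.1| ≤ h ∧ |y.2 - z.2| ≤ k ∧ g y < m} ≤ ENNReal.ofReal (η * (h * k))

/-- The points of a small horizontal segment where `M < g` have small proportion. -/
def HD (g : ℝ × ℝ → ℝ) (M : ℝ) (z : ℝ × ℝ) : Prop :=
  ∀ η : ℝ, 0 < η → ∃ δ : ℝ, 0 < δ ∧ ∀ h : ℝ, 0 < h → h < δ →
    volume {p : ℝ | |p - z.1| ≤ h ∧ M < g (p, z.2)} ≤ ENNReal.ofReal (η * h)

/-- Horizontal average of `W` about `z0 + (h, τ)` with a window of size `ε |h|`. -/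
noncomputable def W1f (W : ℝ × ℝ → ℝ) (z0 : ℝ × ℝ) (ε h τ : ℝ) : ℝ :=
  ∫ s in (-1 : ℝ)..1, ker s * W (z0.1 + h * (1 + ε * s), z0.2 + τ)

/-- The comparison function. -/
noncomputable def qf (W : ℝ × ℝ → ℝ) (z0 : ℝ × ℝ) (ε : ℝ) (v : ℝ × ℝ) : ℝ :=
  2 * (∫ c in (0 : ℝ)..1, W1f W z0 ε v.1 (c * v.2)) - W1f W z0 ε v.1 0

/-- Horizontal average of `g` with the weights coming from two derivatives. -/
noncomputable def G1f (g : ℝ × ℝ → ℝ) (z0 : ℝ × ℝ) (ε h τ : ℝ) : ℝ :=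
  ∫ s in (-1 : ℝ)..1, ker s * (1 + ε * s) ^ 2 * g (z0.1 + h * (1 + ε * s), z0.2 + τ)

/-- The second derivative of the comparison function. -/
noncomputable def Gam (g : ℝ × ℝ → ℝ) (z0 : ℝ × ℝ) (ε h t : ℝ) : ℝ :=
  2 * (∫ c in (0 : ℝ)..1, G1f g z0 ε h (c * t)) - G1f g z0 ε h 0

/-- Reflection in the second variable. -/
def rf (f : ℝ × ℝ → ℝ) (y : ℝ × ℝ) : ℝ := f (y.1, -y.2)

end Pool.Agent.MP_4eca41.E
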