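import Pool.Agent.Work.MP_4eca41_an.E.EstP
import Pool.Agent.Work.MP_4eca41_an.E.Dens

/-!
# E/Est: the estimate near a point of `S`, almost everywhere  (paper E4)

PROOF.  Almost every `z` satisfies: `DD W z` (`dpp_ae_plane`); the density statements for `g = Dpp W` (`dens_fun`, `dpp_meas`); `ends_null`; and
`∀ᵐ τ, DD W (z.1, τ)` (`dpp_ae_vert` gives it for a.e. `z.1`; transfer to a.e. `z` with `Measure.quasiMeasurePreserving_fst.ae`).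
Given `δ0 > 0` as in `hloc`: let `l2 = δ0/8` and `l0 = min l2 (κ l2/(C - m + 1))` (positive: `C ≥ 0`, `m ≤ 0`).  For `0 < l < l0` put `δ = δ0/8`.
For `z ∈ cb y0 δ` and `|τ - z.2| ≤ 2 l2 = δ0/4`: `(z.1, τ) ∈ cb y0 δ0` (`|(z.1, τ) - y0| ≤ δ0/8 + δ0/4 ≤ δ0` in Euclidean
length; with squares: `sq (u + v) ≤ 2 sq u + 2 sq v ≤ 2 (δ0/8)^2 + 2 (δ0/4)^2 ≤ δ0^2`).  So `est_pt` applies.
-/

set_option autoImplicit false

namespace Pool.Agent.MP_4eca41.E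

open Set MeasureTheory

theorem est_loc (C : ℝ) (W Φ β : ℝ × ℝ → ℝ) (hE : EE C W Φ β) (y0 : ℝ × ℝ) (m κ δ0 : ℝ) (hm : m ≤ 0)
    (hκ : 0 < κ) (hδ0 : 0 < δ0)
    (hloc : ∀ z ∈ cb y0 δ0, β z ≤ m ∧ ∀ h : ℝ, |h| ≤ δ0 → D2 Φ (h, 0) z ≤ m * h ^ 2) :
    ∃ l0 : ℝ, 0 < l0 ∧ ∀ l : ℝ, 0 < l → l < l0 → ∃ δ : ℝ, 0 < δ ∧ ∀ᵐ z : ℝ × ℝ, z ∈ cb y0 δ →
      Dpp W z ≤ max (m + κ) ((∫ σ in (z.2 - l)..(z.2 + l), Dpp W (z.1, σ)) / (2 * l)) := by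
  have hC0 : 0 ≤ C := hE.c11.nn
  have hCm : 0 < C - m + 1 := by linarith
  have hl2p : 0 < δ0 / 8 := by positivity
  refine ⟨min (δ0 / 8) (κ * (δ0 / 8) / (C - m + 1)), lt_min hl2p (by positivity),
    fun l hl hlt => ⟨δ0 / 8, hl2p, ?_⟩⟩
  have hl_le : l ≤ δ0 / 8 := (hlt.trans_le (min_le_left _ _)).le
  have hlκ : l * (C - m) ≤ κ * (δ0 / 8) := by
    have h1 : l < κ * (δ0 / 8) / (C - m + 1) := hlt.trans_le (min_le_right _ _)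
    rw [lt_div_iff₀ hCm] at h1
    have h2 : l * (C - m + 1) = l * (C - m) + l := by ring
    linarith
  have hv : ∀ᵐ z : ℝ × ℝ, ∀ᵐ τ : ℝ, DD W (z.1, τ) := by
    rw [Measure.volume_eq_prod]
    exact Measure.quasiMeasurePreserving_fst.ae (dpp_ae_vert C W hE.c11)
  filter_upwards [dpp_ae_plane C W hE.c11, dens_fun (Dpp W) (dpp_meas C W hE.c11),
    ends_null W hE.c11.cont hE.cls.1, hv] with z h1 h2 h3 h4 hz
  refine est_pt C W Φ β hE z h1 h2.1 h2.2 h4 h3 m κ l (δ0 / 8) hm hκ hl hl_le hlκ fun τ hτ => ?_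
  have hmem : (z.1, τ) ∈ cb y0 δ0 := by
    have hz' : sq (z - y0) ≤ (δ0 / 8) ^ 2 := hz
    show sq ((z.1, τ) - y0) ≤ δ0 ^ 2
    have e1 : sq (z - y0) = (z.1 - y0.1) ^ 2 + (z.2 - y0.2) ^ 2 := rfl
    have e2 : sq ((z.1, τ) - y0) = (z.1 - y0.1) ^ 2 + (τ - y0.2) ^ 2 := rfl
    rw [e1] at hz'
    rw [e2]
    obtain ⟨h5, h6⟩ := abs_le.1 hτ
    have h7 : (τ - z.2) ^ 2 ≤ (δ0 / 4) ^ 2 := by
      apply sq_le_sq'
      · linarith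
      · linarith
    have h8 : (τ - y0.2) ^ 2 ≤ 2 * (τ - z.2) ^ 2 + 2 * (z.2 - y0.2) ^ 2 := by
      nlinarith [sq_nonneg ((z.2 - y0.2) - (τ - z.2))]
    nlinarith [sq_nonneg (z.1 - y0.1), sq_nonneg δ0]
  obtain ⟨hb, hd⟩ := hloc _ hmem
  exact ⟨hb, δ0, hδ0, hd⟩

end Pool.Agent.MP_4eca41.E
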