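import Pool.Agent.Work.MP_4eca41_an.E.FcL

/-!
# E/FcR: reflection, the right end of a face, both ends  (paper E3 (ii), (iii))

PROOFS.
`ee_rf`: `rf f y = f (y.1, -y.2)`.  `D2 (rf f) v y = D2 f (v.1, -v.2) (y.1, -y.2)`; `sq` is invariant; `BB (rf β) = rf (BB β)` (by definition);
`Cls (rf β) (rf q) ↔ Cls β q` (compose the convex function in `t` with the linear map `t ↦ -t`; the second component at `t` is the
second component of the other at `-t`); for `max` use `rf (rf q) = q`.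
`dpp_rf`, `dd_rf`: unfold `Dp`, `Dpp` (definitional).
`aff_rf`: `AffOn (rf W) p (-b) (-a) ↔ AffOn W p a b` (replace `t` by `-t`).
`face_right`: apply `face_left` to `rf W`, `rf Φ`, `rf β`, the interval `[-b, -a]`, the points `-t2 < -t1` (in this order) and the
same `θ`: `t2 = (1 - θ) b + θ t1` gives `-t2 = (1 - θ) (-b) + θ (-t1)`.
`face_both`: the set of `t2 ∈ (t, b)` with `DD W (p, t2)` is not empty (a.e. `t2`; `(t, b)` has positive measure).  With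
`θ = (t - a)/(t2 - a)`, `θ' = (b - t2)/(b - t)`, both in `(0, 1)`: `x = Dpp W (p,t) - m ≤ θ y`, `y = Dpp W (p,t2) - m ≤ θ' x`, so `x ≤ θ θ' x` and
`(1 - θ θ') x ≤ 0`, `x ≤ 0`.
-/

set_option autoImplicit false

namespace Pool.Agent.MP_4eca41.E

open Set MeasureTheory

private theorem d2_rf (f : ℝ × ℝ → ℝ) (v y : ℝ × ℝ) :
    D2 (rf f) v y = D2 f (v.1, -v.2) (y.1, -y.2) := by
  have e1 : ((y.1, -y.2) : ℝ × ℝ) + (v.1, -v.2) = ((y + v).1, -(y + v).2) := by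
    ext <;> simp [add_comm]
  have e2 : ((y.1, -y.2) : ℝ × ℝ) - (v.1, -v.2) = ((y - v).1, -(y - v).2) := by
    ext
    · simp
    · simp only [Prod.snd_sub]
      ring
  unfold D2
  rw [e1, e2]
  rfl

private theorem cls_rf {β q : ℝ × ℝ → ℝ} (h : Cls β q) : Cls (rf β) (rf q) := by
  refine ⟨fun p => ⟨convex_univ, ?_⟩, fun t => ?_⟩
  · intro x _ y _ a b ha hb hab
    have h1 := (h.1 p).2 (mem_univ (-x)) (mem_univ (-y)) ha hb hab
    have e : a • (-x) + b • (-y) = -(a • x + b • y) := by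
      simp only [smul_eq_mul]
      ring
    rw [e] at h1
    exact h1
  · exact h.2 (-t)

private theorem rf_rf (f : ℝ × ℝ → ℝ) : rf (rf f) = f := by
  funext y
  show f (y.1, - -y.2) = f y
  rw [neg_neg]

private theorem cont_rf {f : ℝ × ℝ → ℝ} (h : Continuous f) : Continuous (rf f) := by
  have h1 : Continuous fun y : ℝ × ℝ => ((y.1, -y.2) : ℝ × ℝ) := by fun_prop
  exact h.comp h1

theorem ee_rf (C : ℝ) (W Φ β : ℝ × ℝ → ℝ) (hE : EE C W Φ β) : EE C (rf W) (rf Φ) (rf β) := by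
  refine ⟨⟨cont_rf hE.c11.cont, hE.c11.nn, fun v y => ?_⟩, cont_rf hE.contΦ, cont_rf hE.contβ,
    fun y => hE.le _, cls_rf hE.cls, fun q hq hc hle y => ?_, fun h y => ?_, ?_⟩
  · rw [d2_rf]
    have h1 := hE.c11.bd (v.1, -v.2) (y.1, -y.2)
    have h2 : sq (v.1, -v.2) = sq v := by
      unfold sq
      simp
    rwa [h2] at h1
  · have h1 := hE.max (rf q) (cont_rf hq) (by
        have := cls_rf hc
        rwa [rf_rf] at this) (fun z => by
        have := hle (z.1, -z.2)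
        have e : rf Φ (z.1, -z.2) = Φ z := by
          show Φ (z.1, - -z.2) = Φ z
          rw [neg_neg]
        rw [e] at this
        exact this) (y.1, -y.2)
    have e : rf q (y.1, -y.2) = q y := by
      show q (y.1, - -y.2) = q y
      rw [neg_neg]
    rw [e] at h1
    exact h1
  · rw [d2_rf]
    have h1 := hE.conc h (y.1, -y.2)
    simpa using h1
  · obtain ⟨c, C', hc, h⟩ := hE.gr
    refine ⟨c, C', hc, fun y => ?_⟩
    have h1 := h (y.1, -y.2)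
    simp only [neg_sq] at h1
    exact h1

theorem dpp_rf (W : ℝ × ℝ → ℝ) (p t : ℝ) : Dpp (rf W) (p, t) = Dpp W (p, -t) := rfl

theorem dd_rf (W : ℝ × ℝ → ℝ) (p t : ℝ) : DD (rf W) (p, t) ↔ DD W (p, -t) := Iff.rfl

theorem aff_rf (W : ℝ × ℝ → ℝ) (p a b : ℝ) : B.AffOn (rf W) p (-b) (-a) ↔ B.AffOn W p a b := by
  unfold B.AffOn rf
  constructor
  · intro h t ht
    have h1 := h (-t) ⟨neg_le_neg ht.2, neg_le_neg ht.1⟩
    simp only [neg_neg] at h1
    linear_combination h1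
  · intro h t ht
    have h1 := h (-t) ⟨by linarith [ht.2], by linarith [ht.1]⟩
    simp only [neg_neg]
    linear_combination h1

theorem face_right (C : ℝ) (W Φ β : ℝ × ℝ → ℝ) (hE : EE C W Φ β) (p a b t1 t2 θ m : ℝ)
    (hA : B.AffOn W p a b) (hmax : ∀ s : ℝ, 0 < s → ¬ B.AffOn W p a (b + s))
    (h1 : a ≤ t1) (h12 : t1 < t2) (h2 : t2 < b) (h0 : 0 ≤ θ) (hθ : θ ≤ 1) (ht : t2 = (1 - θ) * b + θ * t1)
    (hg1 : DD W (p, t1)) (hg2 : DD W (p, t2)) (hβ : β (p, b) ≤ m)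
    (hΦ : ∃ δ : ℝ, 0 < δ ∧ ∀ h : ℝ, |h| ≤ δ → D2 Φ (h, 0) (p, b) ≤ m * h ^ 2) :
    Dpp W (p, t2) ≤ (1 - θ) * m + θ * Dpp W (p, t1) := by
  have h := face_left C (rf W) (rf Φ) (rf β) (ee_rf C W Φ β hE) p (-b) (-a) (-t2) (-t1) θ m
    ((aff_rf W p a b).2 hA)
    (fun s hs hA' => hmax s hs ((aff_rf W p a (b + s)).1 (by
      have e : -(b + s) = -b - s := by ring
      rw [e]
      exact hA')))
    (neg_lt_neg h2) (neg_lt_neg h12) (neg_le_neg h1) h0 hθ (by rw [ht]; ring)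
    ((dd_rf W p (-t2)).2 (by rw [neg_neg]; exact hg2))
    ((dd_rf W p (-t1)).2 (by rw [neg_neg]; exact hg1))
    (by
      show β (p, - -b) ≤ m
      rw [neg_neg]
      exact hβ)
    (by
      obtain ⟨δ, hδ, h⟩ := hΦ
      refine ⟨δ, hδ, fun k hk => ?_⟩
      rw [d2_rf]
      have h3 := h k hk
      simp only [neg_neg, neg_zero]
      exact h3)
  rw [dpp_rf, dpp_rf, neg_neg, neg_neg] at h
  exact h

theorem face_both (C : ℝ) (W Φ β : ℝ × ℝ → ℝ) (hE : EE C W Φ β) (p a b t m : ℝ)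
    (hA : B.AffOn W p a b) (hmaxa : ∀ s : ℝ, 0 < s → ¬ B.AffOn W p (a - s) b)
    (hmaxb : ∀ s : ℝ, 0 < s → ¬ B.AffOn W p a (b + s)) (h1 : a < t) (h2 : t < b)
    (hD : ∀ᵐ τ : ℝ, DD W (p, τ)) (hg : DD W (p, t)) (hβa : β (p, a) ≤ m) (hβb : β (p, b) ≤ m)
    (hΦa : ∃ δ : ℝ, 0 < δ ∧ ∀ h : ℝ, |h| ≤ δ → D2 Φ (h, 0) (p, a) ≤ m * h ^ 2)
    (hΦb : ∃ δ : ℝ, 0 < δ ∧ ∀ h : ℝ, |h| ≤ δ → D2 Φ (h, 0) (p, b) ≤ m * h ^ 2) :
    Dpp W (p, t) ≤ m := by
  obtain ⟨t2, ht2, h3, h4⟩ : ∃ t2, DD W (p, t2) ∧ t < t2 ∧ t2 < b := by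
    have hd : Dense {τ : ℝ | DD W (p, τ)} := Measure.dense_of_ae hD
    obtain ⟨t2, h5, h6⟩ := hd.exists_between h2
    exact ⟨t2, h5, h6.1, h6.2⟩
  have p1 : 0 < t2 - a := by linarith
  have p2 : 0 < b - t := by linarith
  have hθ0 : 0 ≤ (t - a) / (t2 - a) := by
    apply div_nonneg <;> linarith
  have hθ1 : (t - a) / (t2 - a) < 1 := by
    rw [div_lt_one p1]
    linarith
  have hη0 : 0 ≤ (b - t2) / (b - t) := by
    apply div_nonneg <;> linarith
  have hη1 : (b - t2) / (b - t) < 1 := by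
    rw [div_lt_one p2]
    linarith
  have f1 := face_left C W Φ β hE p a b t t2 ((t - a) / (t2 - a)) m hA hmaxa h1 h3 h4.le hθ0 hθ1.le
    (by
      field_simp
      ring) hg ht2 hβa hΦa
  have f2 := face_right C W Φ β hE p a b t t2 ((b - t2) / (b - t)) m hA hmaxb h1.le h3 h4 hη0 hη1.le
    (by
      field_simp
      ring) hg ht2 hβb hΦb
  set θ : ℝ := (t - a) / (t2 - a) with hθ
  set η : ℝ := (b - t2) / (b - t) with hη
  by_contra hcon
  push Not at hcon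
  have g1 : Dpp W (p, t) - m ≤ θ * (Dpp W (p, t2) - m) := by linarith
  have g2 : Dpp W (p, t2) - m ≤ η * (Dpp W (p, t) - m) := by linarith
  have g3 : Dpp W (p, t) - m ≤ θ * (η * (Dpp W (p, t) - m)) :=
    g1.trans (mul_le_mul_of_nonneg_left g2 hθ0)
  have g4 : θ * (η * (Dpp W (p, t) - m)) ≤ 1 * (η * (Dpp W (p, t) - m)) :=
    mul_le_mul_of_nonneg_right hθ1.le (mul_nonneg hη0 (by linarith))
  have g5 : η * (Dpp W (p, t) - m) < 1 * (Dpp W (p, t) - m) :=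
    mul_lt_mul_of_pos_right hη1 (by linarith)
  linarith

end Pool.Agent.MP_4eca41.E
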