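import Pool.Agent.Work.MP_4eca41_an.E.EDefs
import Pool.Agent.Work.MP_4eca41_an.B.AffB

/-!
# E/Null: almost every end point of a face is an interior point of a face; maximal faces

PROOFS.
`ends_null`: `B.endl_ae`, `B.endr_ae`.  If `FR W z` with `s`, take a rational `b ∈ (z.2, z.2 + s)`; `AffOn W z.1 z.2 b` (`B.aff_sub`), so there is `a < z.2` with
`AffOn W z.1 a b`; restrict to `[z.2 - s', z.2 + s']`, `s' = min (z.2 - a) (b - z.2)` (`B.aff_sub`).  `FL` in the same way.
`face_max`: `f = W (p, ·)` is convex and continuous, `ℓ` the affine function which agrees with `f` on `[t - s, t + s]`.  `f ≥ ℓ` everywhere (convexity: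
outside the interval the graph lies above the line through two points of the graph).  `Z = {τ | f τ = ℓ τ}` is
closed, convex (zero set of the nonnegative convex function `f - ℓ`), contains `[t - s, t + s]`, and is bounded: `f τ ≥ c τ^2 - C (1 + p^2)` and
`ℓ` is affine.  So `Z = [a, b]` with `a = sInf Z ≤ t - s`, `b = sSup Z ≥ t + s`, `a, b ∈ Z`.  `AffOn W p a b` as `f = ℓ` on `[a, b]`.  If `AffOn W p (a - s') b` with
`s' > 0` then `f` is affine on `[a - s', b]` and agrees with `ℓ` on `[a, b]`, `a < b`, so `f (a - s') = ℓ (a - s')` and `a - s' ∈ Z`: contradiction.  The same at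
`b`.
-/

set_option autoImplicit false

namespace Pool.Agent.MP_4eca41.E

open Set MeasureTheory

private theorem conv3 {f : ℝ → ℝ} (hw : ConvexOn ℝ univ f)
    {x y z : ℝ} (hxy : x ≤ y) (hyz : y ≤ z) (hxz : x < z) :
    (z - x) * f y ≤ (z - y) * f x + (y - x) * f z := by
  have h0 : 0 < z - x := sub_pos.2 hxz
  have ha : 0 ≤ (z - y) / (z - x) := div_nonneg (sub_nonneg.2 hyz) h0.le
  have hb : 0 ≤ (y - x) / (z - x) := div_nonneg (sub_nonneg.2 hxy) h0.le
  have hab : (z - y) / (z - x) + (y - x) / (z - x) = 1 := by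
    rw [← add_div, div_eq_one_iff_eq h0.ne']
    ring
  have h1 := hw.2 (mem_univ x) (mem_univ z) ha hb hab
  simp only [smul_eq_mul] at h1
  have e : (z - y) / (z - x) * x + (y - x) / (z - x) * z = y := by
    field_simp
    ring
  rw [e] at h1
  have h2 := mul_le_mul_of_nonneg_left h1 h0.le
  have e2 : (z - x) * ((z - y) / (z - x) * f x + (y - x) / (z - x) * f z) =
      (z - y) * f x + (y - x) * f z := by
    field_simp
  rwa [e2] at h2

theorem ends_null (W : ℝ × ℝ → ℝ) (hW : Continuous W) (hc : ∀ p, ConvexOn ℝ univ fun t => W (p, t)) :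
    ∀ᵐ z : ℝ × ℝ, FR W z ∨ FL W z → FI W z := by
  filter_upwards [B.endl_ae hW hc, B.endr_ae hW hc] with z h1 h2
  rintro (⟨s, hs, h⟩ | ⟨s, hs, h⟩)
  · obtain ⟨b, hb1, hb2⟩ := exists_rat_btwn (show z.2 < z.2 + s by linarith)
    obtain ⟨a, ha, hab⟩ := h1 b hb1 (B.aff_sub h (by linarith) le_rfl hb1.le hb2.le)
    have hm : 0 < min (z.2 - a) ((b : ℝ) - z.2) := lt_min (by linarith) (by linarith)
    refine ⟨min (z.2 - a) (b - z.2), hm, B.aff_sub hab (by linarith) ?_ (by linarith) ?_⟩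
    · linarith [min_le_left (z.2 - a) ((b : ℝ) - z.2)]
    · linarith [min_le_right (z.2 - a) ((b : ℝ) - z.2)]
  · obtain ⟨a, ha1, ha2⟩ := exists_rat_btwn (show z.2 - s < z.2 by linarith)
    obtain ⟨b, hb, hab⟩ := h2 a ha2 (B.aff_sub h (by linarith) ha1.le ha2.le le_rfl)
    have hb' : z.2 < b := hb
    have hm : 0 < min (z.2 - a) (b - z.2) := lt_min (by linarith) (by linarith)
    refine ⟨min (z.2 - a) (b - z.2), hm, B.aff_sub hab (by linarith) ?_ (by linarith) ?_⟩
    · linarith [min_le_left (z.2 - a) (b - z.2)]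
    · linarith [min_le_right (z.2 - a) (b - z.2)]

theorem face_max (W : ℝ × ℝ → ℝ) (hW : Continuous W) (hc : ∀ p, ConvexOn ℝ univ fun t => W (p, t))
    (hgr : ∃ c C : ℝ, 0 < c ∧ ∀ y : ℝ × ℝ, c * y.2 ^ 2 - C * (1 + y.1 ^ 2) ≤ W y) (z : ℝ × ℝ)
    (hz : FI W z) :
    ∃ a b : ℝ, a < z.2 ∧ z.2 < b ∧ B.AffOn W z.1 a b ∧ (∀ s : ℝ, 0 < s → ¬ B.AffOn W z.1 (a - s) b) ∧
      ∀ s : ℝ, 0 < s → ¬ B.AffOn W z.1 a (b + s) := by
  obtain ⟨s, hs, hA⟩ := hz
  obtain ⟨c, C, hc0, hg⟩ := hgr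
  set f : ℝ → ℝ := fun t => W (z.1, t) with hf
  have hfc : Continuous f := hW.comp (by fun_prop)
  have hfx : ConvexOn ℝ univ f := hc z.1
  -- the affine function
  obtain ⟨m, k, hlA, hlB⟩ : ∃ m k : ℝ, m * (z.2 - s) + k = f (z.2 - s) ∧
      m * (z.2 + s) + k = f (z.2 + s) := by
    refine ⟨(f (z.2 + s) - f (z.2 - s)) / (2 * s), f (z.2 - s) -
      (f (z.2 + s) - f (z.2 - s)) / (2 * s) * (z.2 - s), by ring, ?_⟩
    field_simp
    ring
  have hmid : ∀ t ∈ Icc (z.2 - s) (z.2 + s), f t = m * t + k := by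
    intro t ht
    have h1 : (z.2 + s - (z.2 - s)) * f t = (z.2 + s - t) * f (z.2 - s) + (t - (z.2 - s)) * f (z.2 + s) :=
      hA t ht
    rw [← hlA, ← hlB] at h1
    have h2 : (2 * s) * f t = (2 * s) * (m * t + k) := by linear_combination h1
    exact mul_left_cancel₀ (by positivity) h2
  have hge : ∀ t, m * t + k ≤ f t := by
    intro t
    rcases lt_or_ge t (z.2 - s) with h | h
    · have h1 := conv3 hfx h.le (by linarith : z.2 - s ≤ z.2 + s) (by linarith : t < z.2 + s)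
      rw [← hlA, ← hlB] at h1
      nlinarith
    · rcases le_or_gt t (z.2 + s) with h' | h'
      · exact (hmid t ⟨h, h'⟩).ge
      · have h1 := conv3 hfx (by linarith : z.2 - s ≤ z.2 + s) h'.le (by linarith : z.2 - s < t)
        rw [← hlA, ← hlB] at h1
        nlinarith
  set Z : Set ℝ := {t | f t = m * t + k} with hZ
  have hZcl : IsClosed Z := isClosed_eq hfc (by fun_prop)
  have hZconv : ∀ a ∈ Z, ∀ b ∈ Z, a < b → ∀ t ∈ Icc a b, t ∈ Z := by
    intro a ha b hb hab t ht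
    have h1 := conv3 hfx ht.1 ht.2 hab
    have ha' : f a = m * a + k := ha
    have hb' : f b = m * b + k := hb
    rw [ha', hb'] at h1
    have h2 : (b - a) * f t ≤ (b - a) * (m * t + k) := by linarith
    exact le_antisymm (le_of_mul_le_mul_left h2 (sub_pos.2 hab)) (hge t)
  have hZ1 : z.2 - s ∈ Z := hlA.symm
  have hZ2 : z.2 + s ∈ Z := hlB.symm
  -- bounded
  set D : ℝ := C * (1 + z.1 ^ 2) with hD
  have hbd : ∀ t ∈ Z, |t| ≤ (|m| + |D| + |k|) / c + 1 := by
    intro t ht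
    by_contra hcon
    have hcon' := not_le.1 hcon
    have h1 : f t = m * t + k := ht
    have h2 : c * t ^ 2 - D ≤ f t := hg (z.1, t)
    rw [h1] at h2
    have h3 : 0 ≤ (|m| + |D| + |k|) / c := by positivity
    have h4 : 1 < |t| := by linarith
    have h5 : |m| + |D| + |k| < c * |t| := by
      have h6 : (|m| + |D| + |k|) / c < |t| := by linarith
      rw [div_lt_iff₀ hc0] at h6
      linarith
    have h7 : t ^ 2 = |t| * |t| := by rw [← pow_two, sq_abs]
    have h8 : m * t ≤ |m| * |t| := by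
      rw [← abs_mul]
      exact le_abs_self _
    have h9 := le_abs_self D
    have h10 := le_abs_self k
    have h11 : (|m| + |D| + |k|) * |t| < c * |t| * |t| :=
      mul_lt_mul_of_pos_right h5 (by linarith)
    have h12 : |D| * 1 ≤ |D| * |t| := mul_le_mul_of_nonneg_left h4.le (abs_nonneg _)
    have h13 : |k| * 1 ≤ |k| * |t| := mul_le_mul_of_nonneg_left h4.le (abs_nonneg _)
    rw [h7] at h2
    nlinarith
  have hbB : BddBelow Z := ⟨-((|m| + |D| + |k|) / c + 1), fun t ht => (abs_le.1 (hbd t ht)).1⟩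
  have hbA : BddAbove Z := ⟨(|m| + |D| + |k|) / c + 1, fun t ht => (abs_le.1 (hbd t ht)).2⟩
  have hne : Z.Nonempty := ⟨_, hZ1⟩
  have haZ : sInf Z ∈ Z := hZcl.csInf_mem hne hbB
  have hbZ : sSup Z ∈ Z := hZcl.csSup_mem hne hbA
  have ha1 : sInf Z ≤ z.2 - s := csInf_le hbB hZ1
  have hb1 : z.2 + s ≤ sSup Z := le_csSup hbA hZ2
  have haf : f (sInf Z) = m * sInf Z + k := haZ
  have hbf : f (sSup Z) = m * sSup Z + k := hbZ
  have hab : sInf Z < sSup Z := by linarith
  refine ⟨sInf Z, sSup Z, by linarith, by linarith, ?_, ?_, ?_⟩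
  · intro t ht
    have h1 : f t = m * t + k := hZconv _ haZ _ hbZ hab t ht
    show (sSup Z - sInf Z) * f t = (sSup Z - t) * f (sInf Z) + (t - sInf Z) * f (sSup Z)
    rw [h1, haf, hbf]
    ring
  · intro r hr hcon
    have h1 : (sSup Z - (sInf Z - r)) * f (sInf Z) =
        (sSup Z - sInf Z) * f (sInf Z - r) + (sInf Z - (sInf Z - r)) * f (sSup Z) :=
      hcon (sInf Z) ⟨by linarith, hab.le⟩
    rw [haf, hbf] at h1
    have h2 : (sSup Z - sInf Z) * f (sInf Z - r) = (sSup Z - sInf Z) * (m * (sInf Z - r) + k) := by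
      linear_combination -h1
    have h3 : sInf Z - r ∈ Z := mul_left_cancel₀ (sub_pos.2 hab).ne' h2
    linarith [csInf_le hbB h3]
  · intro r hr hcon
    have h1 : (sSup Z + r - sInf Z) * f (sSup Z) =
        (sSup Z + r - sSup Z) * f (sInf Z) + (sSup Z - sInf Z) * f (sSup Z + r) :=
      hcon (sSup Z) ⟨hab.le, by linarith⟩
    rw [haf, hbf] at h1
    have h2 : (sSup Z - sInf Z) * f (sSup Z + r) = (sSup Z - sInf Z) * (m * (sSup Z + r) + k) := by
      linear_combination -h1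
    have h3 : sSup Z + r ∈ Z := mul_left_cancel₀ (sub_pos.2 hab).ne' h2
    linarith [le_csSup hbA h3]

end Pool.Agent.MP_4eca41.E
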