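import Pool.Agent.Work.MP_4eca41_an.E.Q2
import Pool.Agent.Work.MP_4eca41_an.E.FcR
import Pool.Agent.Work.MP_4eca41_an.E.Null

/-!
# E/EstP: the estimate at a good point  (paper E4)

PROOF.  `z = (p, t)`, `g τ = Dpp W (p, τ)`.  `|g| ≤ C` (`dpp_bd`), `0 < l ≤ l2`, `l * (C - m) ≤ κ * l2` (`m ≤ 0`).
Case 1: `¬ FI W z`.  By `hend`, neither `FR W z` nor `FL W z`.  If `W z = Φ z`: `contact` and `hloc` (at `τ = t`): `Dpp W z ≤ m`.  Otherwise
`W z < Φ z` and `noncontact`: `Dpp W z ≤ β z ≤ m`.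
Case 2: `FI W z`; `face_max` gives the maximal face `[a, b]`, `a < t < b`.
 2a: `t - a < l` and `b ≥ t + 2 l2`.  Choose `t2 ∈ (t + l2, t + 2 l2)` with `DD W (p, t2)` (a.e.).  `θ = (t - a)/(t2 - a) ∈ [0, 1]`, `θ ≤ l/l2` (as `t2 - a ≥ l2`, `t - a ≤ l`).
   `face_left` with `t1 = t`: `Dpp W z ≤ (1 - θ) m + θ g t2 ≤ m + θ (C - m) ≤ m + (l/l2) (C - m) ≤ m + κ` (`|a - t| ≤ 2 l2`, so `hloc` applies at `a`).
 2b: `t - a < l` and `b < t + 2 l2`: both ends are within `2 l2` of `t`: `face_both`: `Dpp W z ≤ m`.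
 2c: `b - t < l` and `a ≤ t - 2 l2`: as 2a with `face_right`: choose `t1 ∈ (t - 2 l2, t - l2)` with `DD W (p, t1)`, `t2 = t`, `θ = (b - t)/(b - t1)`.
 2d: `b - t < l` and `a > t - 2 l2`: `face_both`.
 2e: `t - a ≥ l` and `b - t ≥ l`: for a.e. `s ∈ (0, l)` both `DD W (p, t - s)` and `DD W (p, t + s)`, and `face_conv` with `θ = 1/2`, `t1 = t - s`, `t2 = t + s`:
   `Dpp W z ≤ (g (t - s) + g (t + s))/2`.  Integrate over `s ∈ (0, l)` (`g` bounded and measurable: `dpp_meas`, `dpp_bd`):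
   `l * Dpp W z ≤ (1/2) (∫_{t-l}^{t} g + ∫_{t}^{t+l} g) = (1/2) ∫_{t-l}^{t+l} g`.
-/

set_option autoImplicit false

namespace Pool.Agent.MP_4eca41.E

open Set MeasureTheory

private theorem ex_between {P : ℝ → Prop} (hD : ∀ᵐ τ : ℝ, P τ) {u v : ℝ} (huv : u < v) :
    ∃ τ : ℝ, u < τ ∧ τ < v ∧ P τ := by
  by_contra hcon
  push Not at hcon
  have h1 : Ioo u v ⊆ {τ | ¬ P τ} := fun τ hτ => hcon τ hτ.1 hτ.2
  have h2 : volume (Ioo u v) = 0 := measure_mono_null h1 (ae_iff.1 hD)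
  rw [Real.volume_Ioo] at h2
  have h3 : 0 < ENNReal.ofReal (v - u) := ENNReal.ofReal_pos.2 (sub_pos.2 huv)
  exact h3.ne' h2

private theorem th_bd (C m κ l l2 θ D : ℝ) (hl2 : 0 < l2) (hCm : 0 ≤ C - m)
    (hlκ : l * (C - m) ≤ κ * l2) (hθ : θ * l2 ≤ l) (hθ0 : 0 ≤ θ) (hD : D ≤ C) :
    (1 - θ) * m + θ * D ≤ m + κ := by
  have h1 : (θ * (C - m)) * l2 ≤ κ * l2 := by
    calc (θ * (C - m)) * l2 = (θ * l2) * (C - m) := by ring
      _ ≤ l * (C - m) := mul_le_mul_of_nonneg_right hθ hCm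
      _ ≤ κ * l2 := hlκ
  have h2 : θ * (C - m) ≤ κ := le_of_mul_le_mul_right h1 hl2
  have h3 : θ * D ≤ θ * C := mul_le_mul_of_nonneg_left hD hθ0
  linarith

private theorem g_int (C : ℝ) (W : ℝ × ℝ → ℝ) (h : C11 C W) (p u v : ℝ) :
    IntervalIntegrable (fun σ => Dpp W (p, σ)) volume u v := by
  have hm : Measurable (fun σ => Dpp W (p, σ)) := (dpp_meas C W h).comp measurable_prodMk_left
  refine (intervalIntegrable_const (c := C)).mono_fun' hm.aestronglyMeasurable ?_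
  refine Filter.Eventually.of_forall fun σ => ?_
  simp only [Real.norm_eq_abs]
  exact dpp_bd C W h (p, σ)

private theorem mid_int (C : ℝ) (W : ℝ × ℝ → ℝ) (h11 : C11 C W)
    (hc : ∀ p, ConvexOn ℝ univ fun t => W (p, t)) (p t a b l : ℝ)
    (hA : B.AffOn W p a b) (hl : 0 < l) (ha : l ≤ t - a) (hb : l ≤ b - t)
    (hg : DD W (p, t)) (hD : ∀ᵐ τ : ℝ, DD W (p, τ)) :
    Dpp W (p, t) ≤ (∫ σ in (t - l)..(t + l), Dpp W (p, σ)) / (2 * l) := by
  have hab : a < b := by linarith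
  have q1 : ∀ᵐ s : ℝ, DD W (p, t - s) :=
    (Measure.measurePreserving_sub_left volume t).quasiMeasurePreserving.ae hD
  have q2 : ∀ᵐ s : ℝ, DD W (p, t + s) :=
    (measurePreserving_add_left volume t).quasiMeasurePreserving.ae hD
  have i1 : IntervalIntegrable (fun s => Dpp W (p, t - s)) volume 0 l := by
    have := (g_int C W h11 p (t - 0) (t - l)).comp_sub_left t
    simpa using this
  have i2 : IntervalIntegrable (fun s => Dpp W (p, t + s)) volume 0 l := by
    have := (g_int C W h11 p (t + 0) (t + l)).comp_add_left t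
    simpa using this
  have key : ∫ s in (0 : ℝ)..l, 2 * Dpp W (p, t) ≤
      ∫ s in (0 : ℝ)..l, (Dpp W (p, t - s) + Dpp W (p, t + s)) := by
    refine intervalIntegral.integral_mono_ae_restrict hl.le intervalIntegrable_const (i1.add i2) ?_
    have hmem : ∀ᵐ s : ℝ ∂(volume.restrict (Icc 0 l)), s ∈ Icc 0 l :=
      ae_restrict_mem measurableSet_Icc
    filter_upwards [ae_restrict_of_ae q1, ae_restrict_of_ae q2, hmem] with s h1 h2 hs
    have e : (1 - 1 / 2 : ℝ) * (t - s) + 1 / 2 * (t + s) = t := by ring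
    have h3 := face_conv C W h11 hc p a b (t - s) (t + s) (1 / 2) hab hA
      ⟨by linarith [hs.2], by linarith [hs.1]⟩ ⟨by linarith [hs.1], by linarith [hs.2]⟩
      (by norm_num) (by norm_num) (by rw [e]; exact hg) h1 h2
    rw [e] at h3
    show 2 * Dpp W (p, t) ≤ Dpp W (p, t - s) + Dpp W (p, t + s)
    linarith
  rw [intervalIntegral.integral_const, intervalIntegral.integral_add i1 i2,
    intervalIntegral.integral_comp_sub_left (fun σ => Dpp W (p, σ)) t,
    intervalIntegral.integral_comp_add_left (fun σ => Dpp W (p, σ)) t, sub_zero, add_zero, sub_zero,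
    intervalIntegral.integral_add_adjacent_intervals (g_int C W h11 p _ _) (g_int C W h11 p _ _),
    smul_eq_mul] at key
  rw [le_div_iff₀ (by positivity)]
  linarith

theorem est_pt (C : ℝ) (W Φ β : ℝ × ℝ → ℝ) (hE : EE C W Φ β) (z : ℝ × ℝ) (hg : DD W z)
    (hS : ∀ m : ℝ, m < Dpp W z → SD (Dpp W) m z) (hH : ∀ M : ℝ, Dpp W z < M → HD (Dpp W) M z)
    (hD : ∀ᵐ τ : ℝ, DD W (z.1, τ)) (hend : FR W z ∨ FL W z → FI W z)
    (m κ l l2 : ℝ) (hm : m ≤ 0) (hκ : 0 < κ) (hl : 0 < l) (hl2 : l ≤ l2) (hlκ : l * (C - m) ≤ κ * l2)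
    (hloc : ∀ τ : ℝ, |τ - z.2| ≤ 2 * l2 → β (z.1, τ) ≤ m ∧
      ∃ δ : ℝ, 0 < δ ∧ ∀ h : ℝ, |h| ≤ δ → D2 Φ (h, 0) (z.1, τ) ≤ m * h ^ 2) :
    Dpp W z ≤ max (m + κ) ((∫ σ in (z.2 - l)..(z.2 + l), Dpp W (z.1, σ)) / (2 * l)) := by
  have hl2p : 0 < l2 := lt_of_lt_of_le hl hl2
  have hc : ∀ p, ConvexOn ℝ univ fun t => W (p, t) := hE.cls.1
  have hCm : 0 ≤ C - m := by linarith [hE.c11.nn]
  have hmκ : m ≤ max (m + κ) ((∫ σ in (z.2 - l)..(z.2 + l), Dpp W (z.1, σ)) / (2 * l)) :=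
    le_max_of_le_left (by linarith)
  have hbd : ∀ y, Dpp W y ≤ C := fun y => (abs_le.1 (dpp_bd C W hE.c11 y)).2
  by_cases hFI : FI W z
  · obtain ⟨a, b, haz, hzb, hA, hma, hmb⟩ := face_max W hE.c11.cont hc hE.gr z hFI
    have hgz : DD W (z.1, z.2) := hg
    by_cases c1 : z.2 - a < l
    · have hla := hloc a (by rw [abs_le]; constructor <;> linarith)
      by_cases c2 : z.2 + 2 * l2 ≤ b
      · obtain ⟨t2, ht2a, ht2b, hgt2⟩ := ex_between hD (show z.2 + l2 < z.2 + 2 * l2 by linarith)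
        have hpos : 0 < t2 - a := by linarith
        have hθ0 : 0 ≤ (z.2 - a) / (t2 - a) := div_nonneg (by linarith) hpos.le
        have hmul : (z.2 - a) / (t2 - a) * (t2 - a) = z.2 - a := div_mul_cancel₀ _ hpos.ne'
        have hθ1 : (z.2 - a) / (t2 - a) ≤ 1 := by
          rw [div_le_one hpos]; linarith
        have hθl : (z.2 - a) / (t2 - a) * l2 ≤ l := by
          have : (z.2 - a) / (t2 - a) * l2 ≤ (z.2 - a) / (t2 - a) * (t2 - a) :=
            mul_le_mul_of_nonneg_left (by linarith) hθ0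
          linarith
        have hf := face_left C W Φ β hE z.1 a b z.2 t2 ((z.2 - a) / (t2 - a)) m hA hma haz
          (by linarith) (by linarith) hθ0 hθ1 (by linear_combination -hmul) hgz hgt2 hla.1 hla.2
        exact le_max_of_le_left (le_trans hf (th_bd C m κ l l2 _ _ hl2p hCm hlκ hθl hθ0 (hbd _)))
      · have hlb := hloc b (by rw [abs_le]; constructor <;> linarith)
        exact le_trans (face_both C W Φ β hE z.1 a b z.2 m hA hma hmb haz hzb hD hgz hla.1 hlb.1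
          hla.2 hlb.2) hmκ
    · by_cases c3 : b - z.2 < l
      · have hlb := hloc b (by rw [abs_le]; constructor <;> linarith)
        by_cases c4 : a ≤ z.2 - 2 * l2
        · obtain ⟨t1, ht1a, ht1b, hgt1⟩ := ex_between hD (show z.2 - 2 * l2 < z.2 - l2 by linarith)
          have hpos : 0 < b - t1 := by linarith
          have hθ0 : 0 ≤ (b - z.2) / (b - t1) := div_nonneg (by linarith) hpos.le
          have hmul : (b - z.2) / (b - t1) * (b - t1) = b - z.2 := div_mul_cancel₀ _ hpos.ne'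
          have hθ1 : (b - z.2) / (b - t1) ≤ 1 := by
            rw [div_le_one hpos]; linarith
          have hθl : (b - z.2) / (b - t1) * l2 ≤ l := by
            have : (b - z.2) / (b - t1) * l2 ≤ (b - z.2) / (b - t1) * (b - t1) :=
              mul_le_mul_of_nonneg_left (by linarith) hθ0
            linarith
          have hf := face_right C W Φ β hE z.1 a b t1 z.2 ((b - z.2) / (b - t1)) m hA hmb
            (by linarith) (by linarith) hzb hθ0 hθ1 (by linear_combination hmul) hgt1 hgz hlb.1 hlb.2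
          exact le_max_of_le_left (le_trans hf (th_bd C m κ l l2 _ _ hl2p hCm hlκ hθl hθ0 (hbd _)))
        · have hla := hloc a (by rw [abs_le]; constructor <;> linarith)
          exact le_trans (face_both C W Φ β hE z.1 a b z.2 m hA hma hmb haz hzb hD hgz hla.1 hlb.1
            hla.2 hlb.2) hmκ
      · exact le_max_of_le_right (mid_int C W hE.c11 hc z.1 z.2 a b l hA hl (by linarith)
          (by linarith) hgz hD)
  · have h1 : ¬ FR W z := fun h => hFI (hend (Or.inl h))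
    have h2 : ¬ FL W z := fun h => hFI (hend (Or.inr h))
    have hlz := hloc z.2 (by rw [sub_self, abs_zero]; positivity)
    by_cases hzΦ : W z = Φ z
    · exact le_trans (contact C W Φ hE.c11 hE.le z hzΦ hg m hlz.2) hmκ
    · exact le_trans (le_trans (noncontact C W Φ β hE z hS hH (lt_of_le_of_ne (hE.le z) hzΦ) h1 h2)
        hlz.1) hmκ

end Pool.Agent.MP_4eca41.E
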