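import Pool.Agent.Work.MP_4eca41_an.E.EDefs

/-!
# E/FcX: extrapolation of the second order expansion along a face

Here `l t = W (p, t1) + (t - t1) * (W (p, t2) - W (p, t1))/(t2 - t1)`: written out as `xt (W (p, t1)) (W (p, t2)) t1 t2 t`.

PROOF.  Let `R ≥ 0`.  `Lh t = xt (W (p,t1)) (W (p,t2)) t1 t2 t + h * xt (Dp W (p,t1)) (Dp W (p,t2)) t1 t2 t + h^2/2 * xt (Dpp W (p,t1)) (Dpp W (p,t2)) t1 t2 t`
is affine in `t`, and by `dpp_peano` at `(p, t_i)`: `|W (p + h, t_i) - Lh t_i| ≤ ε' h^2` for `|h| ≤ h0`.  For `t ≤ t1` write `μ = (t1 - t)/(t2 - t1) ≥ 0`, so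
`t1 = (t + μ t2)/(1 + μ)`; convexity of `W (p + h, ·)`: `(1 + μ) W (p + h, t1) ≤ W (p + h, t) + μ W (p + h, t2)`, i.e.
`W (p + h, t) ≥ (1 + μ) W (p + h, t1) - μ W (p + h, t2) ≥ (1 + μ) Lh t1 - μ Lh t2 - (1 + 2 μ) ε' h^2 = Lh t - (1 + 2 μ) ε' h^2`, and
`μ ≤ R/(t2 - t1)` for `t1 - t ≤ R`: choose `ε' = ε/(1 + 2 R/(t2 - t1))`.
-/

set_option autoImplicit false

namespace Pool.Agent.MP_4eca41.E

open Set MeasureTheory

/-- The affine function with values `A` at `t1` and `B'` at `t2`. -/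
noncomputable def xt (A B' t1 t2 t : ℝ) : ℝ := A + (t - t1) * ((B' - A) / (t2 - t1))

theorem extrap (C : ℝ) (W : ℝ × ℝ → ℝ) (h11 : C11 C W) (hc : ∀ p, ConvexOn ℝ univ fun t => W (p, t))
    (p t1 t2 R ε : ℝ) (h12 : t1 < t2) (hR : 0 ≤ R) (hε : 0 < ε) (hg1 : DD W (p, t1)) (hg2 : DD W (p, t2)) :
    ∃ h0 : ℝ, 0 < h0 ∧ ∀ h t : ℝ, |h| ≤ h0 → t ≤ t1 → t1 - t ≤ R →
      xt (W (p, t1)) (W (p, t2)) t1 t2 t + h * xt (Dp W (p, t1)) (Dp W (p, t2)) t1 t2 t +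
        h ^ 2 / 2 * xt (Dpp W (p, t1)) (Dpp W (p, t2)) t1 t2 t - ε * h ^ 2 ≤ W (p + h, t) := by
  have hd : 0 < t2 - t1 := sub_pos.2 h12
  set Q : ℝ := 1 + 2 * (R / (t2 - t1)) with hQ
  have hQ1 : 0 < Q := by
    have : 0 ≤ R / (t2 - t1) := div_nonneg hR hd.le
    rw [hQ]
    linarith
  obtain ⟨k1, hk1, hp1⟩ := dpp_peano C W h11 (p, t1) _ hg1 (ε / Q) (div_pos hε hQ1)
  obtain ⟨k2, hk2, hp2⟩ := dpp_peano C W h11 (p, t2) _ hg2 (ε / Q) (div_pos hε hQ1)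
  refine ⟨min k1 k2, lt_min hk1 hk2, fun h t hh ht htR => ?_⟩
  have e1 := abs_le.1 (hp1 h (hh.trans (min_le_left _ _)))
  have e2 := abs_le.1 (hp2 h (hh.trans (min_le_right _ _)))
  dsimp only at e1 e2
  set μ : ℝ := (t1 - t) / (t2 - t1) with hμ
  have hμ0 : 0 ≤ μ := div_nonneg (by linarith) hd.le
  have hμR : μ ≤ R / (t2 - t1) := div_le_div_of_nonneg_right htR hd.le
  have hμe : μ * (t2 - t1) = t1 - t := div_mul_cancel₀ _ hd.ne'
  -- convexity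
  have hcv : (1 + μ) * W (p + h, t1) ≤ W (p + h, t) + μ * W (p + h, t2) := by
    have h1 := (hc (p + h)).2 (mem_univ t) (mem_univ t2)
      (show (0 : ℝ) ≤ 1 / (1 + μ) by positivity) (show (0 : ℝ) ≤ μ / (1 + μ) by positivity)
      (by field_simp)
    simp only [smul_eq_mul] at h1
    have h2 : 1 / (1 + μ) * t + μ / (1 + μ) * t2 = t1 := by
      field_simp
      linarith
    rw [h2] at h1
    have h3 := mul_le_mul_of_nonneg_left h1 (show (0 : ℝ) ≤ 1 + μ by positivity)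
    have h4 : (1 + μ) * (1 / (1 + μ) * W (p + h, t) + μ / (1 + μ) * W (p + h, t2)) =
        W (p + h, t) + μ * W (p + h, t2) := by
      field_simp
    rw [h4] at h3
    exact h3
  have hx : ∀ A B' : ℝ, xt A B' t1 t2 t = (1 + μ) * A - μ * B' := by
    intro A B'
    unfold xt
    rw [hμ]
    field_simp
    ring
  rw [hx, hx, hx]
  have hh2 : 0 ≤ h ^ 2 := sq_nonneg h
  have hQe : (1 + 2 * μ) * (ε / Q * h ^ 2) ≤ ε * h ^ 2 := by
    have h5 : (1 + 2 * μ) * (ε / Q) ≤ ε := by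
      calc (1 + 2 * μ) * (ε / Q) ≤ Q * (ε / Q) := by
            apply mul_le_mul_of_nonneg_right _ (div_pos hε hQ1).le
            rw [hQ]
            linarith
        _ = ε := mul_div_cancel₀ _ hQ1.ne'
    calc (1 + 2 * μ) * (ε / Q * h ^ 2) = ((1 + 2 * μ) * (ε / Q)) * h ^ 2 := by ring
      _ ≤ ε * h ^ 2 := mul_le_mul_of_nonneg_right h5 hh2
  have e3 := mul_le_mul_of_nonneg_left e1.1 (show (0 : ℝ) ≤ 1 + μ by positivity)
  have e4 := mul_le_mul_of_nonneg_left e2.2 hμ0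
  nlinarith [e3, e4, hcv, hQe]

end Pool.Agent.MP_4eca41.E
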