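import Pool.Agent.Work.MP_4eca41_an.E.Perron
import Pool.Agent.Work.MP_4eca41_an.E.Cont
import Pool.Agent.Work.MP_4eca41_an.E.FcX

/-!
# E/FcL: the left end of a face  (paper E3 (ii))

PROOF of `face_left_nc` (no contact at `(p, a)`).  Put `A t = xt (Dpp W (p,t1)) (Dpp W (p,t2)) t1 t2 t` and suppose `A a > β (p, a)`; `κ = (A a - β (p,a))/6 > 0`.
`l0 t = xt (W (p,t1)) (W (p,t2)) t1 t2 t` is affine and equals `W (p, t)` on `[a, b]` (`hA`).
`L (h, t) = l0 t + h l1 t + h^2/2 A t`, `l1 t = xt (Dp W (p,t1)) (Dp W (p,t2)) t1 t2 t`.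
For every `ρ > 0`: `W (p, a - ρ) > l0 (a - ρ)`: `≥` by convexity (the affine function through two points of the graph
lies below the graph outside the interval); if `=`, then `W (p, ·)` is affine on `[a - ρ, b]` (on `[a - ρ, a]` it is `≤` the chord, which is
`l0`, and `≥ l0` by convexity), contradicting `hmax`.
Choose `ρ > 0` with `a + 3 ρ/2 ≤ t1` such that for `|y.1 - p| ≤ ρ`, `|y.2 - a| ≤ 2 ρ`: `β y ≤ β (p, a) + κ`, `A y.2 ≥ A a - κ`, and
`W y + e ≤ Φ y` for some `e > 0` (continuity, `W (p, a) < Φ (p, a)`).  `extrap` with `R = t1 - a + ρ` and `κ/2` for `ε`: for `|h| ≤ h0`, `a - ρ ≤ t ≤ t1`: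
`L (h, t) ≤ W (p + h, t) + (κ/2) h^2`.  Let `γ = W (p, a - ρ/2) - l0 (a - ρ/2) > 0`; by continuity `L (h, a - ρ/2) + γ/2 ≤ W (p + h, a - ρ/2)` for `|h| ≤ r`,
where `0 < r ≤ min ρ h0`.  Let `η > 0` with `3 η < γ`, `3 η < κ r^2`, `3 η ≤ 2 e`.  Put
`Q (p + h, t) = L (h, t) - κ h^2 + η (1 - (t - a)/ρ)` on the box `|h| ≤ r`, `a - ρ/2 ≤ t ≤ a + 3 ρ/2` (a polynomial: continuous).
 - side `t = a + 3ρ/2`: `Q ≤ W + (κ/2) h^2 - κ h^2 - η/2 < W`.
 - side `t = a - ρ/2`: `Q ≤ L + 3 η/2 ≤ W - γ/2 + 3 η/2 < W`.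
 - sides `|h| = r`: `Q ≤ W + (κ/2) r^2 - κ r^2 + 3 η/2 < W`.
 - `Q ≤ W + 3 η/2 ≤ Φ` on the box.
 - `D2 Q (k, 0) (p + h, t) = k^2 (A t - 2 κ) ≥ k^2 (A a - 3 κ) ≥ k^2 (β (p, a) + κ) ≥ k^2 β y` (`A a = β (p,a) + 6 κ`), `D2 Q (0, k) = 0` (affine in `t`).
`perron_box`: `Q (p, a) ≤ W (p, a)`; but `Q (p, a) = l0 a + η = W (p, a) + η`: contradiction.
PROOF of `face_left`.  Contact (`W (p, a) = Φ (p, a)`): `D2 W (k, 0) (p, a) ≤ D2 Φ (k, 0) (p, a) ≤ m k^2`; with `face_d2` (end points `a`, `t2`):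
`D2 W (k,0) (p,t1) ≤ (1 - θ) m k^2 + θ D2 W (k,0) (p,t2)`; `dpp_lim` at `t1`, `t2`.  No contact: `face_left_nc` gives
`A a ≤ β (p, a) ≤ m`, and `Dpp W (p, t1) = A t1 = (1 - θ) A a + θ A t2` (`A` is affine, `t1 = (1 - θ) a + θ t2`).
-/

set_option autoImplicit false

namespace Pool.Agent.MP_4eca41.E

open Set MeasureTheory

private theorem fl_affine {W : ℝ × ℝ → ℝ} {p a b t1 t2 : ℝ} (hA : B.AffOn W p a b)
    (h1 : a < t1) (h12 : t1 < t2) (h2 : t2 ≤ b) (t : ℝ) :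
    xt (W (p, t1)) (W (p, t2)) t1 t2 t = W (p, a) + (t - a) * ((W (p, b) - W (p, a)) / (b - a)) := by
  have hab : 0 < b - a := by linarith
  have e1 := hA t1 ⟨h1.le, by linarith⟩
  have e2 := hA t2 ⟨by linarith, h2⟩
  have f1 : W (p, t1) = W (p, a) + (t1 - a) * ((W (p, b) - W (p, a)) / (b - a)) := by
    field_simp
    linarith
  have f2 : W (p, t2) = W (p, a) + (t2 - a) * ((W (p, b) - W (p, a)) / (b - a)) := by
    field_simp
    linarith
  unfold xt
  rw [f1, f2]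
  have h3 : t2 - t1 ≠ 0 := by
    intro h; linarith
  have : (W (p, a) + (t2 - a) * ((W (p, b) - W (p, a)) / (b - a)) -
      (W (p, a) + (t1 - a) * ((W (p, b) - W (p, a)) / (b - a)))) / (t2 - t1) =
      (W (p, b) - W (p, a)) / (b - a) := by
    rw [div_eq_iff h3]; ring
  rw [this]; ring

private theorem fl_strict {W : ℝ × ℝ → ℝ} {p a b : ℝ} (hW : ConvexOn ℝ univ fun t => W (p, t))
    (hab : a < b) (hA : B.AffOn W p a b)
    (hmax : ∀ s : ℝ, 0 < s → ¬ B.AffOn W p (a - s) b) (s : ℝ) (hs : 0 < s) :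
    W (p, a) + (a - s - a) * ((W (p, b) - W (p, a)) / (b - a)) < W (p, a - s) := by
  have key : ∀ t : ℝ, t ≤ a → W (p, a) + (t - a) * ((W (p, b) - W (p, a)) / (b - a)) ≤ W (p, t) := by
    intro t ht
    rcases eq_or_lt_of_le ht with h | h
    · rw [h]; simp
    have hbt : 0 < b - t := by linarith
    have h1 := hW.2 (mem_univ t) (mem_univ b) (show 0 ≤ (b - a) / (b - t) by positivity)
      (show 0 ≤ (a - t) / (b - t) by apply div_nonneg <;> linarith)
      (by rw [← add_div, div_eq_one_iff_eq hbt.ne']; ring)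
    simp only [smul_eq_mul] at h1
    have e : (b - a) / (b - t) * t + (a - t) / (b - t) * b = a := by field_simp; ring
    rw [e] at h1
    have h2 := mul_le_mul_of_nonneg_left h1 hbt.le
    have e2 : (b - t) * ((b - a) / (b - t) * W (p, t) + (a - t) / (b - t) * W (p, b)) =
        (b - a) * W (p, t) + (a - t) * W (p, b) := by field_simp
    rw [e2] at h2
    have hba : 0 < b - a := by linarith
    have e3 : (t - a) * ((W (p, b) - W (p, a)) / (b - a)) =
        ((t - a) * (W (p, b) - W (p, a))) / (b - a) := by ring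
    rw [e3]
    have h3 : ((t - a) * (W (p, b) - W (p, a))) / (b - a) ≤ W (p, t) - W (p, a) := by
      rw [div_le_iff₀ hba]
      linarith
    linarith
  rcases lt_or_eq_of_le (key (a - s) (by linarith)) with h | h
  · exact h
  exfalso
  apply hmax s hs
  have hba : 0 < b - a := by linarith
  obtain ⟨σ, hσ⟩ : ∃ σ, σ = (W (p, b) - W (p, a)) / (b - a) := ⟨_, rfl⟩
  rw [← hσ] at h key
  have hb : W (p, b) = W (p, a) + (b - a) * σ := by
    rw [hσ, mul_div_cancel₀ _ hba.ne']; ring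
  have hlin : ∀ t ∈ Icc (a - s) b, W (p, t) = W (p, a) + (t - a) * σ := by
    intro t ht
    obtain ⟨ht1, ht2⟩ := ht
    rcases le_or_gt a t with hat | hat
    · have e1 := hA t ⟨hat, ht2⟩
      rw [hb] at e1
      have e2 : (b - a) * W (p, t) = (b - a) * (W (p, a) + (t - a) * σ) := by
        linear_combination e1
      exact mul_left_cancel₀ hba.ne' e2
    · apply le_antisymm _ (key t hat.le)
      have hbs : 0 < b - (a - s) := by linarith
      have h1 := hW.2 (mem_univ (a - s)) (mem_univ b)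
        (show 0 ≤ (b - t) / (b - (a - s)) by apply div_nonneg <;> linarith)
        (show 0 ≤ (t - (a - s)) / (b - (a - s)) by apply div_nonneg <;> linarith)
        (by rw [← add_div, div_eq_one_iff_eq hbs.ne']; ring)
      simp only [smul_eq_mul] at h1
      have e : (b - t) / (b - (a - s)) * (a - s) + (t - (a - s)) / (b - (a - s)) * b = t := by
        field_simp; ring
      rw [e, ← h, hb] at h1
      have e2 : (b - t) / (b - (a - s)) * (W (p, a) + (a - s - a) * σ) +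
          (t - (a - s)) / (b - (a - s)) * (W (p, a) + (b - a) * σ) = W (p, a) + (t - a) * σ := by
        field_simp; ring
      rw [e2] at h1
      exact h1
  intro t ht
  rw [hlin t ht, ← h, hb]
  ring

theorem face_left_nc (C : ℝ) (W Φ β : ℝ × ℝ → ℝ) (hE : EE C W Φ β) (p a b t1 t2 : ℝ)
    (hA : B.AffOn W p a b) (hmax : ∀ s : ℝ, 0 < s → ¬ B.AffOn W p (a - s) b)
    (h1 : a < t1) (h12 : t1 < t2) (h2 : t2 ≤ b) (hg1 : DD W (p, t1)) (hg2 : DD W (p, t2))
    (hlt : W (p, a) < Φ (p, a)) : xt (Dpp W (p, t1)) (Dpp W (p, t2)) t1 t2 a ≤ β (p, a) := by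
  by_contra hcon
  push Not at hcon
  have hab : a < b := by linarith
  have hWc := hE.c11.cont
  obtain ⟨κ, hκ⟩ : ∃ κ, κ = (xt (Dpp W (p, t1)) (Dpp W (p, t2)) t1 t2 a - β (p, a)) / 6 := ⟨_, rfl⟩
  have hκ0 : 0 < κ := by rw [hκ]; linarith
  obtain ⟨A, hAd⟩ : ∃ A : ℝ → ℝ, A = xt (Dpp W (p, t1)) (Dpp W (p, t2)) t1 t2 := ⟨_, rfl⟩
  obtain ⟨l0, hl0⟩ : ∃ l0 : ℝ → ℝ, l0 = xt (W (p, t1)) (W (p, t2)) t1 t2 := ⟨_, rfl⟩
  obtain ⟨l1, hl1⟩ : ∃ l1 : ℝ → ℝ, l1 = xt (Dp W (p, t1)) (Dp W (p, t2)) t1 t2 := ⟨_, rfl⟩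
  have hAc : Continuous A := by rw [hAd]; unfold xt; fun_prop
  have hl0c : Continuous l0 := by rw [hl0]; unfold xt; fun_prop
  have hl1c : Continuous l1 := by rw [hl1]; unfold xt; fun_prop
  have hAaff : ∀ t k, A (t + k) + A (t - k) = 2 * A t := by
    intro t k; rw [hAd]; unfold xt; ring
  have hl0aff : ∀ t k, l0 (t + k) + l0 (t - k) = 2 * l0 t := by
    intro t k; rw [hl0]; unfold xt; ring
  have hl1aff : ∀ t k, l1 (t + k) + l1 (t - k) = 2 * l1 t := by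
    intro t k; rw [hl1]; unfold xt; ring
  have hl0v : ∀ t, l0 t = W (p, a) + (t - a) * ((W (p, b) - W (p, a)) / (b - a)) := by
    intro t; rw [hl0]; exact fl_affine hA h1 h12 h2 t
  have hl0a : l0 a = W (p, a) := by rw [hl0v]; simp
  have hAa : A a = β (p, a) + 6 * κ := by rw [hκ, hAd]; ring
  -- neighbourhood of (p, a)
  obtain ⟨e, he⟩ : ∃ e, e = (Φ (p, a) - W (p, a)) / 2 := ⟨_, rfl⟩
  have he0 : 0 < e := by rw [he]; linarith
  have hnb : ∀ᶠ y : ℝ × ℝ in nhds (p, a), β y ≤ β (p, a) + κ ∧ A a - κ ≤ A y.2 ∧ W y + e ≤ Φ y := by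
    refine Filter.Eventually.and ?_ (Filter.Eventually.and ?_ ?_)
    · have := hE.contβ.continuousAt.eventually_lt (continuousAt_const (y := β (p, a) + κ) (x := (p, a)))
        (by linarith)
      filter_upwards [this] with y hy using hy.le
    · have hc : Continuous fun y : ℝ × ℝ => A y.2 := hAc.comp continuous_snd
      have := (continuousAt_const (y := A a - κ) (x := ((p, a) : ℝ × ℝ))).eventually_lt hc.continuousAt
        (by simp only; linarith)
      filter_upwards [this] with y hy using hy.le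
    · have hc : Continuous fun y : ℝ × ℝ => W y + e := hWc.add continuous_const
      have := hc.continuousAt.eventually_lt hE.contΦ.continuousAt (x₀ := ((p, a) : ℝ × ℝ)) (by
        rw [he]; linarith)
      filter_upwards [this] with y hy using hy.le
  obtain ⟨r0, hr0, hball⟩ := Metric.eventually_nhds_iff.1 hnb
  obtain ⟨ρ, hρ⟩ : ∃ ρ, ρ = min (r0 / 3) ((t1 - a) / 2) := ⟨_, rfl⟩
  have hρ0 : 0 < ρ := by rw [hρ]; exact lt_min (by linarith) (by linarith)
  have hρ1 : ρ ≤ r0 / 3 := by rw [hρ]; exact min_le_left _ _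
  have hρ2 : ρ ≤ (t1 - a) / 2 := by rw [hρ]; exact min_le_right _ _
  have hloc : ∀ y : ℝ × ℝ, |y.1 - p| ≤ ρ → |y.2 - a| ≤ 2 * ρ →
      β y ≤ β (p, a) + κ ∧ A a - κ ≤ A y.2 ∧ W y + e ≤ Φ y := by
    intro y hy1 hy2
    apply hball
    rw [Prod.dist_eq, Real.dist_eq, Real.dist_eq]
    exact max_lt (by simp only; linarith) (by simp only; linarith)
  obtain ⟨h0, hh0, hext⟩ := extrap C W hE.c11 hE.cls.1 p t1 t2 (t1 - a + ρ) (κ / 2) h12
    (by linarith) (by linarith) hg1 hg2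
  rw [← hAd, ← hl0, ← hl1] at hext
  obtain ⟨γ, hγ⟩ : ∃ γ, γ = W (p, a - ρ / 2) - l0 (a - ρ / 2) := ⟨_, rfl⟩
  have hγ0 : 0 < γ := by
    have := fl_strict (hE.cls.1 p) hab hA hmax (ρ / 2) (by linarith)
    rw [hγ, hl0v]; linarith
  have hcont : ∀ᶠ h : ℝ in nhds 0, l0 (a - ρ / 2) + h * l1 (a - ρ / 2) + h ^ 2 / 2 * A (a - ρ / 2) + γ / 2 <
      W (p + h, a - ρ / 2) := by
    have c1 : Continuous fun h : ℝ => l0 (a - ρ / 2) + h * l1 (a - ρ / 2) + h ^ 2 / 2 * A (a - ρ / 2) + γ / 2 := by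
      fun_prop
    have c2 : Continuous fun h : ℝ => W (p + h, a - ρ / 2) := by
      exact hWc.comp (by fun_prop)
    refine c1.continuousAt.eventually_lt c2.continuousAt ?_
    simp only [add_zero]
    have : W (p, a - ρ / 2) = γ + l0 (a - ρ / 2) := by rw [hγ]; ring
    rw [this]
    norm_num
    linarith
  obtain ⟨r1, hr1, hcont⟩ := Metric.eventually_nhds_iff.1 hcont
  obtain ⟨r, hr⟩ : ∃ r, r = min (min ρ h0) (r1 / 2) := ⟨_, rfl⟩
  have hrp : 0 < r := by rw [hr]; exact lt_min (lt_min hρ0 hh0) (by linarith)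
  have hrρ : r ≤ ρ := by rw [hr]; exact (min_le_left _ _).trans (min_le_left _ _)
  have hrh : r ≤ h0 := by rw [hr]; exact (min_le_left _ _).trans (min_le_right _ _)
  have hrr : r ≤ r1 / 2 := by rw [hr]; exact min_le_right _ _
  obtain ⟨η, hη⟩ : ∃ η, η = min (min (γ / 4) (κ * r ^ 2 / 4)) (e / 2) := ⟨_, rfl⟩
  have hη0 : 0 < η := by
    rw [hη]; exact lt_min (lt_min (by linarith) (by positivity)) (by linarith)
  have hη1 : η ≤ γ / 4 := by rw [hη]; exact (min_le_left _ _).trans (min_le_left _ _)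
  have hη2 : η ≤ κ * r ^ 2 / 4 := by rw [hη]; exact (min_le_left _ _).trans (min_le_right _ _)
  have hη3 : η ≤ e / 2 := by rw [hη]; exact min_le_right _ _
  have hκr : 0 < κ * r ^ 2 := by positivity
  obtain ⟨Q, hQ⟩ : ∃ Q : ℝ × ℝ → ℝ, Q = fun y => l0 y.2 + (y.1 - p) * l1 y.2 +
    (y.1 - p) ^ 2 / 2 * A y.2 - κ * (y.1 - p) ^ 2 + η * (1 - (y.2 - a) / ρ) := ⟨_, rfl⟩
  have hQc : Continuous Q := by
    rw [hQ]
    have c1 : Continuous fun y : ℝ × ℝ => l0 y.2 := hl0c.comp continuous_snd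
    have c2 : Continuous fun y : ℝ × ℝ => l1 y.2 := hl1c.comp continuous_snd
    have c3 : Continuous fun y : ℝ × ℝ => A y.2 := hAc.comp continuous_snd
    fun_prop
  -- estimate on the box
  have hbox : ∀ y ∈ Icc (p - r) (p + r) ×ˢ Icc (a - ρ / 2) (a + 3 * ρ / 2),
      |y.1 - p| ≤ r ∧ -(1 / 2) ≤ 1 - (y.2 - a) / ρ ∧ 1 - (y.2 - a) / ρ ≤ 3 / 2 ∧
      l0 y.2 + (y.1 - p) * l1 y.2 + (y.1 - p) ^ 2 / 2 * A y.2 - κ / 2 * (y.1 - p) ^ 2 ≤ W y := by
    rintro ⟨u, t⟩ ⟨⟨a1, a2⟩, ⟨a3, a4⟩⟩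
    simp only at a1 a2 a3 a4 ⊢
    have hu : |u - p| ≤ r := abs_le.2 ⟨by linarith, by linarith⟩
    have hx1 : (t - a) / ρ ≤ 3 / 2 := by rw [div_le_iff₀ hρ0]; linarith
    have hx2 : -(1 / 2) ≤ (t - a) / ρ := by rw [le_div_iff₀ hρ0]; linarith
    refine ⟨hu, by linarith, by linarith, ?_⟩
    have := hext (u - p) t (hu.trans hrh) (by linarith) (by linarith)
    rwa [show p + (u - p) = u by ring] at this
  have hsq : ∀ x : ℝ, 0 ≤ κ * x ^ 2 := fun x => by positivity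
  have hres := perron_box C W Φ β hE Q hQc (p - r) (p + r) (a - ρ / 2) (a + 3 * ρ / 2)
    (by linarith) (by linarith) ?_ ?_ ?_ ?_ (p, a) ⟨⟨by simp only; linarith, by simp only; linarith⟩,
      ⟨by simp only; linarith, by simp only; linarith⟩⟩
  · have hval : Q (p, a) = W (p, a) + η := by
      rw [hQ]; simp only [sub_self]; rw [hl0a]; ring
    rw [hval] at hres
    linarith
  · -- sides
    intro y hy hside
    obtain ⟨b1, b2, b3, b4⟩ := hbox y hy
    obtain ⟨x, hx⟩ : ∃ x, x = y.1 - p := ⟨_, rfl⟩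
    obtain ⟨τ, hτ⟩ : ∃ τ, τ = 1 - (y.2 - a) / ρ := ⟨_, rfl⟩
    have hQy : Q y = l0 y.2 + x * l1 y.2 + x ^ 2 / 2 * A y.2 - κ * x ^ 2 + η * τ := by
      rw [hQ, hx, hτ]
    rw [← hx] at b1 b4
    rw [← hτ] at b2 b3
    have hητ : η * τ ≤ η * (3 / 2) := mul_le_mul_of_nonneg_left b3 hη0.le
    have hs := hsq x
    rw [hQy]
    rcases hside with h | h | h | h
    · have hxr : x = -r := by rw [hx, h]; ring
      have : κ * x ^ 2 = κ * r ^ 2 := by rw [hxr]; ring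
      rw [this]
      have h5 : κ / 2 * x ^ 2 = κ * r ^ 2 / 2 := by rw [hxr]; ring
      rw [h5] at b4
      linarith
    · have hxr : x = r := by rw [hx, h]; ring
      have : κ * x ^ 2 = κ * r ^ 2 := by rw [hxr]
      rw [this]
      have h5 : κ / 2 * x ^ 2 = κ * r ^ 2 / 2 := by rw [hxr]; ring
      rw [h5] at b4
      linarith
    · have hc := hcont (y := x) (by rw [Real.dist_eq, sub_zero]; linarith)
      rw [← h, show p + x = y.1 by rw [hx]; ring] at hc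
      have : ((y.1, y.2) : ℝ × ℝ) = y := rfl
      rw [this] at hc
      linarith
    · have hτv : τ = -(1 / 2) := by
        rw [hτ, h, show (a + 3 * ρ / 2 - a) = 3 / 2 * ρ by ring, mul_div_cancel_right₀ _ hρ0.ne']
        norm_num
      rw [hτv]
      linarith
  · -- below Φ
    intro y hy
    obtain ⟨b1, b2, b3, b4⟩ := hbox y hy
    obtain ⟨⟨a1, a2⟩, ⟨a3, a4⟩⟩ := hy
    have hl := (hloc y (b1.trans hrρ) (abs_le.2 ⟨by linarith, by linarith⟩)).2.2
    rw [hQ]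
    simp only
    have hητ : η * (1 - (y.2 - a) / ρ) ≤ η * (3 / 2) := mul_le_mul_of_nonneg_left b3 hη0.le
    have hs := hsq (y.1 - p)
    linarith
  · -- second differences in the first variable
    rintro ⟨u, t⟩ ⟨⟨a1, a2⟩, ⟨a3, a4⟩⟩ κ' hκ'
    simp only at a1 a2 a3 a4
    refine ⟨1, one_pos, fun k hk _ => ?_⟩
    have hl := hloc (u, t) (abs_le.2 ⟨by simp only; linarith, by simp only; linarith⟩)
      (abs_le.2 ⟨by simp only; linarith, by simp only; linarith⟩)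
    simp only at hl
    have hD : D2 Q (k, 0) (u, t) = k ^ 2 * (A t - 2 * κ) := by
      unfold D2
      rw [hQ]
      simp only [Prod.mk_add_mk, Prod.mk_sub_mk, add_zero, sub_zero]
      ring
    rw [hD]
    have hk2 : 0 ≤ k ^ 2 := by positivity
    have h3 : β (u, t) - κ' ≤ A t - 2 * κ := by linarith [hl.1, hl.2.1]
    nlinarith
  · -- second differences in the second variable
    rintro ⟨u, t⟩ - κ' hκ'
    refine ⟨1, one_pos, fun k hk _ => ?_⟩
    have hD : D2 Q (0, k) (u, t) = 0 := by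
      unfold D2
      rw [hQ]
      simp only [Prod.mk_add_mk, Prod.mk_sub_mk, add_zero, sub_zero]
      have g0 := hl0aff t k
      have g1 := hl1aff t k
      have g2 := hAaff t k
      linear_combination g0 + (u - p) * g1 + (u - p) ^ 2 / 2 * g2
    rw [hD]
    have : 0 ≤ κ' * k ^ 2 := by positivity
    linarith

theorem face_left (C : ℝ) (W Φ β : ℝ × ℝ → ℝ) (hE : EE C W Φ β) (p a b t1 t2 θ m : ℝ)
    (hA : B.AffOn W p a b) (hmax : ∀ s : ℝ, 0 < s → ¬ B.AffOn W p (a - s) b)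
    (h1 : a < t1) (h12 : t1 < t2) (h2 : t2 ≤ b) (h0 : 0 ≤ θ) (hθ : θ ≤ 1) (ht : t1 = (1 - θ) * a + θ * t2)
    (hg1 : DD W (p, t1)) (hg2 : DD W (p, t2)) (hβ : β (p, a) ≤ m)
    (hΦ : ∃ δ : ℝ, 0 < δ ∧ ∀ h : ℝ, |h| ≤ δ → D2 Φ (h, 0) (p, a) ≤ m * h ^ 2) :
    Dpp W (p, t1) ≤ (1 - θ) * m + θ * Dpp W (p, t2) := by
  rcases lt_or_eq_of_le (hE.le (p, a)) with hlt | heq
  · have h3 := (face_left_nc C W Φ β hE p a b t1 t2 hA hmax h1 h12 h2 hg1 hg2 hlt).trans hβ
    have hd : t2 - t1 ≠ 0 := by intro h; linarith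
    have h4 : Dpp W (p, t1) = (1 - θ) * xt (Dpp W (p, t1)) (Dpp W (p, t2)) t1 t2 a +
        θ * Dpp W (p, t2) := by
      unfold xt
      have e1 : (1 - θ) * (a - t1) = - θ * (t2 - t1) := by
        rw [ht]; ring
      have e2 : (1 - θ) * (Dpp W (p, t1) + (a - t1) * ((Dpp W (p, t2) - Dpp W (p, t1)) / (t2 - t1))) =
          (1 - θ) * Dpp W (p, t1) +
            ((1 - θ) * (a - t1)) * ((Dpp W (p, t2) - Dpp W (p, t1)) / (t2 - t1)) := by ring
      rw [e2, e1]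
      field_simp
      ring
    have h5 := mul_le_mul_of_nonneg_left h3 (show 0 ≤ 1 - θ by linarith)
    linarith
  · obtain ⟨δ, hδ, hΦ⟩ := hΦ
    by_contra hcon
    push Not at hcon
    obtain ⟨ε, hε⟩ : ∃ ε, ε = (Dpp W (p, t1) - ((1 - θ) * m + θ * Dpp W (p, t2))) / 4 := ⟨_, rfl⟩
    have hε0 : 0 < ε := by rw [hε]; linarith
    obtain ⟨k1, hk1, hd1⟩ := dpp_lim C W hE.c11 (p, t1) _ hg1 ε hε0
    obtain ⟨k2, hk2, hd2⟩ := dpp_lim C W hE.c11 (p, t2) _ hg2 ε hε0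
    obtain ⟨k, hk⟩ : ∃ k, k = min δ (min k1 k2) := ⟨_, rfl⟩
    have hk0 : 0 < k := by rw [hk]; exact lt_min hδ (lt_min hk1 hk2)
    have b0 : |k| ≤ δ := by rw [abs_of_pos hk0, hk]; exact min_le_left _ _
    have b1 : |k| ≤ k1 := by
      rw [abs_of_pos hk0, hk]; exact (min_le_right _ _).trans (min_le_left _ _)
    have b2 : |k| ≤ k2 := by
      rw [abs_of_pos hk0, hk]; exact (min_le_right _ _).trans (min_le_right _ _)
    have e0 := hΦ k b0
    have e1 := (abs_le.1 (hd1 k b1)).1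
    have e2 := (abs_le.1 (hd2 k b2)).2
    have hab : a < b := by linarith
    have e3 := face_d2 W hE.cls.1 p a b a t2 θ k hab hA ⟨le_refl _, hab.le⟩ ⟨by linarith, h2⟩ h0 hθ
    rw [← ht] at e3
    have e4 : D2 W (k, 0) (p, a) ≤ D2 Φ (k, 0) (p, a) := by
      unfold D2
      have := hE.le ((p, a) + (k, 0))
      have := hE.le ((p, a) - (k, 0))
      rw [heq]
      linarith
    have e5 := mul_le_mul_of_nonneg_left (e4.trans e0) (show 0 ≤ 1 - θ by linarith)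
    have e6 := mul_le_mul_of_nonneg_left e2 h0
    have hk2' : 0 < k ^ 2 := by positivity
    have e7 : θ * (ε * k ^ 2) ≤ ε * k ^ 2 := by
      have : 0 ≤ ε * k ^ 2 := by positivity
      nlinarith
    have e8 : (Dpp W (p, t1) - ((1 - θ) * m + θ * Dpp W (p, t2)) - 2 * ε) * k ^ 2 ≤ 0 := by
      nlinarith
    have e9 : Dpp W (p, t1) - ((1 - θ) * m + θ * Dpp W (p, t2)) = 4 * ε := by rw [hε]; ring
    rw [e9] at e8
    nlinarith

end Pool.Agent.MP_4eca41.E
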