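import Pool.Agent.Work.MP_4eca41_an.E.EDefs

/-!
# E/Perron: the comparison principle on a box

PROOF.  Let `K = Icc p1 p2 ×ˢ Icc t1 t2`.  Put `q y = max (Q y) (W y)` for `y ∈ K` and `q y = W y` otherwise.
`q` is continuous: at a point of the open box `q = max Q W` near the point; off `K` (an open set) `q = W`; at a
point `y` of `K` with `y.1 = p1`, `y.1 = p2`, `y.2 = t1` or `y.2 = t2` we have `Q y < W y`, so `Q < W` near `y` and
`q = W` near `y` (`ContinuousAt.congr` in all cases; the three cases exhaust the plane).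
`q ≥ W` everywhere, `q ≥ Q` near every point of the open box.
`Cls β q` by `cls_of_pointwise` (T/T1).  Let `y` be a point, `κ > 0`.
 - If `q y = W y`: `D2 q v y ≥ D2 W v y` (as `q ≥ W`), and use `cls_pointwise` for `W` (direction `(h, 0)`) and the
   convexity of `t ↦ W (p, t)` (direction `(0, h)`: `D2 W (0, h) y ≥ 0`).
 - Otherwise `y ∈ K` and `q y = Q y > W y`, so `y` is in the open box (on the sides `Q < W`); the open box is open, so
   `y ± (h, 0)`, `y ± (0, h)` are in it for small `h`, there `q ≥ Q`, hence `D2 q v y ≥ D2 Q v y`, and `hqp`, `hqt` apply.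
`q ≤ Φ` by `hΦ` and `hE.le`.  By `hE.max`, `q ≤ W`, in particular `Q y ≤ W y` for `y ∈ K`.
-/

set_option autoImplicit false

namespace Pool.Agent.MP_4eca41.E

open Set MeasureTheory

private theorem pr_D2t {W : ℝ × ℝ → ℝ} (hW : ∀ p, ConvexOn ℝ univ fun t => W (p, t))
    (y : ℝ × ℝ) (h : ℝ) : 0 ≤ D2 W (0, h) y := by
  obtain ⟨p, t⟩ := y
  have h1 := (hW p).2 (mem_univ (t + h)) (mem_univ (t - h)) (show (0 : ℝ) ≤ 1 / 2 by norm_num)
    (show (0 : ℝ) ≤ 1 / 2 by norm_num) (by norm_num)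
  simp only [smul_eq_mul] at h1
  have h2 : 1 / 2 * (t + h) + 1 / 2 * (t - h) = t := by ring
  rw [h2] at h1
  have e1 : ((p, t) : ℝ × ℝ) + (0, h) = (p, t + h) := by ext <;> simp
  have e2 : ((p, t) : ℝ × ℝ) - (0, h) = (p, t - h) := by ext <;> simp
  unfold D2
  rw [e1, e2]
  linarith

/-- the side conditions for the maximum of two functions -/
private theorem pr_D2 {q f : ℝ × ℝ → ℝ} {y v : ℝ × ℝ} (h1 : f (y + v) ≤ q (y + v))
    (h2 : f (y - v) ≤ q (y - v)) (h3 : q y = f y) : D2 f v y ≤ D2 q v y := by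
  unfold D2
  rw [h3]
  linarith

theorem perron_box (C : ℝ) (W Φ β : ℝ × ℝ → ℝ) (hE : EE C W Φ β) (Q : ℝ × ℝ → ℝ) (hQ : Continuous Q)
    (p1 p2 t1 t2 : ℝ) (hp : p1 < p2) (ht : t1 < t2)
    (hb : ∀ y ∈ Icc p1 p2 ×ˢ Icc t1 t2, (y.1 = p1 ∨ y.1 = p2 ∨ y.2 = t1 ∨ y.2 = t2) → Q y < W y)
    (hΦ : ∀ y ∈ Icc p1 p2 ×ˢ Icc t1 t2, Q y ≤ Φ y)
    (hqp : ∀ y ∈ Ioo p1 p2 ×ˢ Ioo t1 t2, ∀ κ : ℝ, 0 < κ → ∃ h0 : ℝ, 0 < h0 ∧ ∀ h : ℝ, 0 < h → h < h0 →
      (β y - κ) * h ^ 2 ≤ D2 Q (h, 0) y)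
    (hqt : ∀ y ∈ Ioo p1 p2 ×ˢ Ioo t1 t2, ∀ κ : ℝ, 0 < κ → ∃ h0 : ℝ, 0 < h0 ∧ ∀ h : ℝ, 0 < h → h < h0 →
      -κ * h ^ 2 ≤ D2 Q (0, h) y) :
    ∀ y ∈ Icc p1 p2 ×ˢ Icc t1 t2, Q y ≤ W y := by
  classical
  obtain ⟨q, hq⟩ : ∃ q : ℝ × ℝ → ℝ, q = fun y =>
      if y ∈ Icc p1 p2 ×ˢ Icc t1 t2 then max (Q y) (W y) else W y := ⟨_, rfl⟩
  have hqK : ∀ y ∈ Icc p1 p2 ×ˢ Icc t1 t2, q y = max (Q y) (W y) := fun y hy => by
    rw [hq]
    exact if_pos hy
  have hqN : ∀ y, y ∉ Icc p1 p2 ×ˢ Icc t1 t2 → q y = W y := fun y hy => by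
    rw [hq]
    exact if_neg hy
  have hWq : ∀ y, W y ≤ q y := by
    intro y
    by_cases hy : y ∈ Icc p1 p2 ×ˢ Icc t1 t2
    · rw [hqK y hy]
      exact le_max_right _ _
    · rw [hqN y hy]
  have hQq : ∀ y ∈ Icc p1 p2 ×ˢ Icc t1 t2, Q y ≤ q y := by
    intro y hy
    rw [hqK y hy]
    exact le_max_left _ _
  have hOK : ∀ y ∈ Ioo p1 p2 ×ˢ Ioo t1 t2, y ∈ Icc p1 p2 ×ˢ Icc t1 t2 := fun y hy =>
    ⟨Ioo_subset_Icc_self hy.1, Ioo_subset_Icc_self hy.2⟩
  have hbd : ∀ y ∈ Icc p1 p2 ×ˢ Icc t1 t2, y ∉ Ioo p1 p2 ×ˢ Ioo t1 t2 → Q y < W y := by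
    intro y hy hyO
    refine hb y hy ?_
    by_contra hcon
    push Not at hcon
    obtain ⟨c1, c2, c3, c4⟩ := hcon
    exact hyO ⟨⟨lt_of_le_of_ne hy.1.1 (Ne.symm c1), lt_of_le_of_ne hy.1.2 c2⟩,
      ⟨lt_of_le_of_ne hy.2.1 (Ne.symm c3), lt_of_le_of_ne hy.2.2 c4⟩⟩
  have hW := hE.c11.cont
  have hqc : Continuous q := by
    rw [continuous_iff_continuousAt]
    intro y
    by_cases hyO : y ∈ Ioo p1 p2 ×ˢ Ioo t1 t2
    · have h1 : ContinuousAt (fun z => max (Q z) (W z)) y := (hQ.max hW).continuousAt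
      refine h1.congr ?_
      have h2 : Ioo p1 p2 ×ˢ Ioo t1 t2 ∈ nhds y := (isOpen_Ioo.prod isOpen_Ioo).mem_nhds hyO
      filter_upwards [h2] with z hz
      exact (hqK z (hOK z hz)).symm
    · refine hW.continuousAt.congr ?_
      by_cases hyK : y ∈ Icc p1 p2 ×ˢ Icc t1 t2
      · have h3 := hbd y hyK hyO
        have h4 : ∀ᶠ z in nhds y, Q z < W z :=
          (hQ.continuousAt.eventually_lt hW.continuousAt h3)
        filter_upwards [h4] with z hz
        by_cases hzK : z ∈ Icc p1 p2 ×ˢ Icc t1 t2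
        · rw [hqK z hzK, max_eq_right hz.le]
        · rw [hqN z hzK]
      · have h2 : (Icc p1 p2 ×ˢ Icc t1 t2)ᶜ ∈ nhds y :=
          (isClosed_Icc.prod isClosed_Icc).isOpen_compl.mem_nhds hyK
        filter_upwards [h2] with z hz
        exact (hqN z hz).symm
  have hcase : ∀ y, q y = W y ∨ (y ∈ Ioo p1 p2 ×ˢ Ioo t1 t2 ∧ q y = Q y) := by
    intro y
    by_cases hyK : y ∈ Icc p1 p2 ×ˢ Icc t1 t2
    · by_cases hyO : y ∈ Ioo p1 p2 ×ˢ Ioo t1 t2
      · rcases le_total (Q y) (W y) with h | h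
        · left
          rw [hqK y hyK, max_eq_right h]
        · right
          exact ⟨hyO, by rw [hqK y hyK, max_eq_left h]⟩
      · left
        rw [hqK y hyK, max_eq_right (hbd y hyK hyO).le]
    · left
      exact hqN y hyK
  have hcls : Cls β q := by
    refine cls_of_pointwise β q hE.contβ hqc ?_ ?_
    · intro y κ hκ
      rcases hcase y with h | ⟨hO, h⟩
      · obtain ⟨h0, hh0, h1⟩ := cls_pointwise β W hE.contβ hE.cls y κ hκ
        exact ⟨h0, hh0, fun r hr hr0 => (h1 r hr hr0).trans (pr_D2 (hWq _) (hWq _) h)⟩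
      · obtain ⟨h0, hh0, h1⟩ := hqp y hO κ hκ
        obtain ⟨⟨a1, a2⟩, ⟨a3, a4⟩⟩ := hO
        refine ⟨min h0 (min (p2 - y.1) (y.1 - p1)),
          lt_min hh0 (lt_min (by linarith) (by linarith)), fun r hr hr0 => ?_⟩
        have b1 := hr0.trans_le (min_le_left _ _)
        have b2 := hr0.trans_le ((min_le_right _ _).trans (min_le_left _ _))
        have b3 := hr0.trans_le ((min_le_right _ _).trans (min_le_right _ _))
        refine (h1 r hr b1).trans (pr_D2 (hQq _ ?_) (hQq _ ?_) h)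
        · constructor
          · constructor <;> simp only [Prod.fst_add] <;> linarith
          · constructor <;> simp only [Prod.snd_add] <;> linarith
        · constructor
          · constructor <;> simp only [Prod.fst_sub] <;> linarith
          · constructor <;> simp only [Prod.snd_sub] <;> linarith
    · intro y κ hκ
      rcases hcase y with h | ⟨hO, h⟩
      · refine ⟨1, one_pos, fun r _ _ => ?_⟩
        have h1 := pr_D2t hE.cls.1 y r
        have h2 := pr_D2 (v := (0, r)) (hWq _) (hWq _) h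
        have h3 : 0 ≤ κ * r ^ 2 := by positivity
        linarith
      · obtain ⟨h0, hh0, h1⟩ := hqt y hO κ hκ
        obtain ⟨⟨a1, a2⟩, ⟨a3, a4⟩⟩ := hO
        refine ⟨min h0 (min (t2 - y.2) (y.2 - t1)),
          lt_min hh0 (lt_min (by linarith) (by linarith)), fun r hr hr0 => ?_⟩
        have b1 := hr0.trans_le (min_le_left _ _)
        have b2 := hr0.trans_le ((min_le_right _ _).trans (min_le_left _ _))
        have b3 := hr0.trans_le ((min_le_right _ _).trans (min_le_right _ _))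
        refine (h1 r hr b1).trans (pr_D2 (hQq _ ?_) (hQq _ ?_) h)
        · constructor
          · constructor <;> simp only [Prod.fst_add] <;> linarith
          · constructor <;> simp only [Prod.snd_add] <;> linarith
        · constructor
          · constructor <;> simp only [Prod.fst_sub] <;> linarith
          · constructor <;> simp only [Prod.snd_sub] <;> linarith
  have hqΦ : ∀ y, q y ≤ Φ y := by
    intro y
    by_cases hy : y ∈ Icc p1 p2 ×ˢ Icc t1 t2
    · rw [hqK y hy]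
      exact max_le (hΦ y hy) (hE.le y)
    · rw [hqN y hy]
      exact hE.le y
  intro y hy
  exact (hQq y hy).trans (hE.max q hqc hcls hqΦ y)

end Pool.Agent.MP_4eca41.E
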