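import Pool.Agent.Work.MP_4eca41_an.E.EDefs
import Pool.Agent.Work.MP_4eca41_an.T.Ker

/-!
# E/QfD: the second difference of `qf` in the first variable as an integral

PROOF.  `g = Dpp W`, `|g| ≤ C` (`dpp_bd`), measurable (`dpp_meas`).
(1) For fixed `s ∈ [-1, 1]`, `τ`, `h`, and `k ≥ 0`, put `a = 1 + ε s > 0`.  The second difference with step `k` of
`h ↦ W (p0 + h a, t0 + τ)` is `D2 W (k a, 0) (p0 + h a, t0 + τ) = ∫_{-k a}^{k a} (k a - |u|) g (p0 + h a + u, t0 + τ) du` (`d2_int`)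
`= a^2 ∫_{-k}^{k} (k - |u|) g (p0 + (h + u) a, t0 + τ) du` (substitution `u ↦ a u`, `intervalIntegral.integral_comp_mul_left` or `smul_integral_comp_mul_left`).
(2) Multiply by `ker s` and integrate over `s`; Fubini (bounded measurable integrand on a bounded rectangle;
`intervalIntegral.integral_integral_swap` or `MeasureTheory.integral_integral_swap` on restricted measures): with
`φ (h) = W1f W z0 ε h τ`: `φ (h + k) + φ (h - k) - 2 φ h = ∫_{-k}^{k} (k - |u|) G1f g z0 ε (h + u) τ du`.  (Linearity of the `s`-integral: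
the functions `s ↦ ker s * W (...)` are continuous.)
(3) `D2 (qf W z0 ε) (k, 0) (h, t) = 2 ∫_0^1 [second difference of W1f at (h, c t)] dc - [second difference of W1f at (h, 0)]`
`= 2 ∫_0^1 ∫_{-k}^{k} (k - |u|) G1f g z0 ε (h + u) (c t) du dc - ∫_{-k}^{k} (k - |u|) G1f g z0 ε (h + u) 0 du`; Fubini again.
Measurability of `(h, τ) ↦ G1f g z0 ε h τ`: parametric integral of a measurable function
(`MeasureTheory.StronglyMeasurable.integral_prod_right`), bounded by `2 C`.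
-/

set_option autoImplicit false

namespace Pool.Agent.MP_4eca41.E

open Set MeasureTheory

private theorem swapI (F : ℝ → ℝ → ℝ) (hF : Measurable (Function.uncurry F)) (B a b c d : ℝ)
    (hab : a ≤ b) (hcd : c ≤ d) (hB : ∀ x ∈ Ioc a b, ∀ y ∈ Ioc c d, |F x y| ≤ B) :
    ∫ x in a..b, ∫ y in c..d, F x y = ∫ y in c..d, ∫ x in a..b, F x y := by
  rw [intervalIntegral.integral_of_le hab, intervalIntegral.integral_of_le hcd]
  simp_rw [intervalIntegral.integral_of_le hab, intervalIntegral.integral_of_le hcd]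
  apply integral_integral_swap
  rw [Measure.prod_restrict]
  have hRf : (volume.prod volume : Measure (ℝ × ℝ)) (Ioc a b ×ˢ Ioc c d) ≠ ⊤ := by
    rw [Measure.prod_prod, Real.volume_Ioc, Real.volume_Ioc]
    exact ENNReal.mul_ne_top ENNReal.ofReal_ne_top ENNReal.ofReal_ne_top
  apply Measure.integrableOn_of_bounded hRf hF.aestronglyMeasurable (M := B)
  filter_upwards [ae_restrict_mem (measurableSet_Ioc.prod measurableSet_Ioc)] with x hx
  exact hB x.1 hx.1 x.2 hx.2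

private theorem qk_cont (ε : ℝ) : Continuous fun s : ℝ => ker s * (1 + ε * s) ^ 2 := by
  have := ker_continuous
  fun_prop

private theorem qk_bd {ε s : ℝ} (hε : 0 < ε) (hε1 : ε ≤ 1 / 4) (hs : s ∈ Ioc (-1 : ℝ) 1) :
    0 ≤ ker s * (1 + ε * s) ^ 2 ∧ ker s * (1 + ε * s) ^ 2 ≤ 2 ∧ 0 < 1 + ε * s := by
  have h1 := ker_nonneg s
  have h2 := ker_le s
  have h3 : ε * s ≤ 1 / 4 := by nlinarith [hs.2]
  have h4 : -(1 / 4) ≤ ε * s := by nlinarith [hs.1]
  have h5 : (1 + ε * s) ^ 2 ≤ 25 / 16 := by nlinarith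
  refine ⟨by positivity, ?_, by linarith⟩
  calc ker s * (1 + ε * s) ^ 2 ≤ (35 / 32) * (25 / 16) :=
        mul_le_mul h2 h5 (by positivity) (by norm_num)
    _ ≤ 2 := by norm_num

private theorem g1f_bd (g : ℝ × ℝ → ℝ) (C : ℝ) (hC : ∀ y, |g y| ≤ C) (z0 : ℝ × ℝ) (ε h τ : ℝ)
    (hε : 0 < ε) (hε1 : ε ≤ 1 / 4) : |G1f g z0 ε h τ| ≤ 4 * C := by
  have h1 : ‖∫ s in (-1 : ℝ)..1, ker s * (1 + ε * s) ^ 2 * g (z0.1 + h * (1 + ε * s), z0.2 + τ)‖ ≤
      (2 * C) * |1 - (-1)| := by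
    apply intervalIntegral.norm_integral_le_of_norm_le_const
    intro s hs
    rw [uIoc_of_le (by norm_num)] at hs
    rw [Real.norm_eq_abs, abs_mul, abs_of_nonneg (qk_bd hε hε1 hs).1]
    exact mul_le_mul (qk_bd hε hε1 hs).2.1 (hC _) (abs_nonneg _) (by norm_num)
  rw [Real.norm_eq_abs] at h1
  have h2 : |(1 : ℝ) - (-1)| = 2 := by norm_num
  rw [h2] at h1
  unfold G1f
  linarith

private theorem g1f_meas (g : ℝ × ℝ → ℝ) (hg : Measurable g) (z0 : ℝ × ℝ) (ε : ℝ) :
    Measurable fun x : ℝ × ℝ => G1f g z0 ε x.1 x.2 := by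
  have h1 : Measurable fun x : (ℝ × ℝ) × ℝ =>
      ker x.2 * (1 + ε * x.2) ^ 2 * g (z0.1 + x.1.1 * (1 + ε * x.2), z0.2 + x.1.2) :=
    ((qk_cont ε).comp continuous_snd).measurable.mul (hg.comp (by fun_prop))
  have h2 := (h1.stronglyMeasurable.integral_prod_right'
    (ν := volume.restrict (Ioc (-1 : ℝ) 1))).measurable
  have h3 : (fun x : ℝ × ℝ => G1f g z0 ε x.1 x.2) = fun x : ℝ × ℝ =>
      ∫ s in Ioc (-1 : ℝ) 1, ker s * (1 + ε * s) ^ 2 *
        g (z0.1 + x.1 * (1 + ε * s), z0.2 + x.2) := by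
    funext x
    unfold G1f
    rw [intervalIntegral.integral_of_le (by norm_num : (-1 : ℝ) ≤ 1)]
  rw [h3]
  exact h2

/-- second difference of the horizontal average -/
private theorem w1f_d2 (C : ℝ) (W : ℝ × ℝ → ℝ) (h11 : C11 C W) (z0 : ℝ × ℝ) (ε : ℝ) (hε : 0 < ε)
    (hε1 : ε ≤ 1 / 4) (h τ k : ℝ) (hk : 0 ≤ k) :
    W1f W z0 ε (h + k) τ + W1f W z0 ε (h - k) τ - 2 * W1f W z0 ε h τ =
      ∫ u in (-k)..k, (k - |u|) * G1f (Dpp W) z0 ε (h + u) τ := by
  have hgm := dpp_meas C W h11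
  have hgb := dpp_bd C W h11
  have hW := h11.cont
  have hker := ker_continuous
  have hci : ∀ h' : ℝ, IntervalIntegrable
      (fun s => ker s * W (z0.1 + h' * (1 + ε * s), z0.2 + τ)) volume (-1) 1 := by
    intro h'
    have : Continuous fun s : ℝ => ker s * W (z0.1 + h' * (1 + ε * s), z0.2 + τ) := by fun_prop
    exact this.intervalIntegrable _ _
  have h1 : W1f W z0 ε (h + k) τ + W1f W z0 ε (h - k) τ - 2 * W1f W z0 ε h τ =
      ∫ s in (-1 : ℝ)..1, (ker s * W (z0.1 + (h + k) * (1 + ε * s), z0.2 + τ) +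
        ker s * W (z0.1 + (h - k) * (1 + ε * s), z0.2 + τ) -
        2 * (ker s * W (z0.1 + h * (1 + ε * s), z0.2 + τ))) := by
    rw [intervalIntegral.integral_sub ((hci _).add (hci _)) ((hci _).const_mul 2),
      intervalIntegral.integral_add (hci _) (hci _), intervalIntegral.integral_const_mul]
    rfl
  have h2 : ∀ s ∈ Ioc (-1 : ℝ) 1, ker s * W (z0.1 + (h + k) * (1 + ε * s), z0.2 + τ) +
        ker s * W (z0.1 + (h - k) * (1 + ε * s), z0.2 + τ) -
        2 * (ker s * W (z0.1 + h * (1 + ε * s), z0.2 + τ)) =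
      ∫ u in (-k)..k, (k - |u|) * (ker s * (1 + ε * s) ^ 2 *
        Dpp W (z0.1 + (h + u) * (1 + ε * s), z0.2 + τ)) := by
    intro s hs
    have ha := (qk_bd hε hε1 hs).2.2
    generalize 1 + ε * s = a at ha
    have h3 := d2_int C W h11 (z0.1 + h * a) (z0.2 + τ) (k * a) (by positivity)
    have h4 : D2 W (k * a, 0) (z0.1 + h * a, z0.2 + τ) =
        W (z0.1 + (h + k) * a, z0.2 + τ) + W (z0.1 + (h - k) * a, z0.2 + τ) -
          2 * W (z0.1 + h * a, z0.2 + τ) := by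
      unfold D2
      have e1 : ((z0.1 + h * a, z0.2 + τ) : ℝ × ℝ) + (k * a, 0) = (z0.1 + (h + k) * a, z0.2 + τ) := by
        ext
        · simp only [Prod.fst_add]
          ring
        · simp
      have e2 : ((z0.1 + h * a, z0.2 + τ) : ℝ × ℝ) - (k * a, 0) = (z0.1 + (h - k) * a, z0.2 + τ) := by
        ext
        · simp only [Prod.fst_sub]
          ring
        · simp
      rw [e1, e2]
    have h5 : ∫ u in (-(k * a))..(k * a), (k * a - |u|) * Dpp W (z0.1 + h * a + u, z0.2 + τ) =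
        a * ∫ u in (-k)..k, (k * a - |a * u|) * Dpp W (z0.1 + h * a + a * u, z0.2 + τ) := by
      rw [intervalIntegral.integral_comp_mul_left
        (fun u => (k * a - |u|) * Dpp W (z0.1 + h * a + u, z0.2 + τ)) ha.ne', smul_eq_mul,
        ← mul_assoc, mul_inv_cancel₀ ha.ne', one_mul]
      congr 1 <;> ring
    have h6 : ker s * W (z0.1 + (h + k) * a, z0.2 + τ) + ker s * W (z0.1 + (h - k) * a, z0.2 + τ) -
        2 * (ker s * W (z0.1 + h * a, z0.2 + τ)) =
        ker s * D2 W (k * a, 0) (z0.1 + h * a, z0.2 + τ) := by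
      rw [h4]
      ring
    rw [h6, h3, h5, ← intervalIntegral.integral_const_mul, ← intervalIntegral.integral_const_mul]
    apply intervalIntegral.integral_congr
    intro u _
    simp only
    have e3 : z0.1 + h * a + a * u = z0.1 + (h + u) * a := by ring
    rw [e3, abs_mul, abs_of_pos ha]
    ring
  rw [h1]
  have h7 : ∫ s in (-1 : ℝ)..1, (ker s * W (z0.1 + (h + k) * (1 + ε * s), z0.2 + τ) +
        ker s * W (z0.1 + (h - k) * (1 + ε * s), z0.2 + τ) -
        2 * (ker s * W (z0.1 + h * (1 + ε * s), z0.2 + τ))) =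
      ∫ s in (-1 : ℝ)..1, ∫ u in (-k)..k, (k - |u|) * (ker s * (1 + ε * s) ^ 2 *
        Dpp W (z0.1 + (h + u) * (1 + ε * s), z0.2 + τ)) := by
    apply intervalIntegral.integral_congr_uIoo
    intro s hs
    rw [uIoo_of_le (by norm_num)] at hs
    exact h2 s ⟨hs.1, hs.2.le⟩
  rw [h7, swapI (fun s u => (k - |u|) * (ker s * (1 + ε * s) ^ 2 *
        Dpp W (z0.1 + (h + u) * (1 + ε * s), z0.2 + τ))) ?_ (k * (2 * C)) (-1) 1 (-k) k (by norm_num)
        (by linarith) ?_]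
  · apply intervalIntegral.integral_congr
    intro u _
    simp only
    rw [intervalIntegral.integral_const_mul]
    rfl
  · have e5 : Measurable fun x : ℝ × ℝ => Dpp W (z0.1 + (h + x.2) * (1 + ε * x.1), z0.2 + τ) :=
      hgm.comp (by fun_prop)
    have e6 : Measurable fun x : ℝ × ℝ => (k - |x.2|) := by fun_prop
    have e7 : Measurable fun x : ℝ × ℝ => ker x.1 * (1 + ε * x.1) ^ 2 :=
      ((qk_cont ε).comp continuous_fst).measurable
    exact e6.mul (e7.mul e5)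
  · intro s hs u hu
    have h8 : |(k - |u|)| ≤ k := by
      rw [abs_le]
      have : |u| ≤ k := abs_le.2 ⟨hu.1.le, hu.2⟩
      constructor <;> linarith [abs_nonneg u]
    rw [abs_mul, abs_mul, abs_of_nonneg (qk_bd hε hε1 hs).1]
    exact mul_le_mul h8 (mul_le_mul (qk_bd hε hε1 hs).2.1 (hgb _) (abs_nonneg _) (by norm_num))
      (mul_nonneg (qk_bd hε hε1 hs).1 (abs_nonneg _)) hk

private theorem w1f_cont (C : ℝ) (W : ℝ × ℝ → ℝ) (h11 : C11 C W) (z0 : ℝ × ℝ) (ε h : ℝ) :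
    Continuous fun τ => W1f W z0 ε h τ := by
  have hW := h11.cont
  have hker := ker_continuous
  have h1 : Continuous (Function.uncurry fun (τ s : ℝ) =>
      ker s * W (z0.1 + h * (1 + ε * s), z0.2 + τ)) := by
    have : (Function.uncurry fun (τ s : ℝ) => ker s * W (z0.1 + h * (1 + ε * s), z0.2 + τ)) =
      fun x : ℝ × ℝ => ker x.2 * W (z0.1 + h * (1 + ε * x.2), z0.2 + x.1) := rfl
    rw [this]
    fun_prop
  exact intervalIntegral.continuous_parametric_intervalIntegral_of_continuous' h1 (-1) 1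

theorem qf_d2 (C : ℝ) (W : ℝ × ℝ → ℝ) (h11 : C11 C W) (z0 : ℝ × ℝ) (ε : ℝ) (hε : 0 < ε)
    (hε1 : ε ≤ 1 / 4) (h t k : ℝ) (hk : 0 ≤ k) :
    D2 (qf W z0 ε) (k, 0) (h, t) = ∫ u in (-k)..k, (k - |u|) * Gam (Dpp W) z0 ε (h + u) t := by
  have hgm := dpp_meas C W h11
  have hgb := dpp_bd C W h11
  have hG := g1f_meas (Dpp W) hgm z0 ε
  have hci : ∀ h' : ℝ, IntervalIntegrable (fun c => W1f W z0 ε h' (c * t)) volume 0 1 := fun h' =>
    ((w1f_cont C W h11 z0 ε h').comp (continuous_mul_const t)).intervalIntegrable _ _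
  have h1 : D2 (qf W z0 ε) (k, 0) (h, t) =
      2 * (∫ c in (0 : ℝ)..1, (W1f W z0 ε (h + k) (c * t) + W1f W z0 ε (h - k) (c * t) -
        2 * W1f W z0 ε h (c * t))) -
      (W1f W z0 ε (h + k) 0 + W1f W z0 ε (h - k) 0 - 2 * W1f W z0 ε h 0) := by
    rw [intervalIntegral.integral_sub ((hci _).add (hci _)) ((hci _).const_mul 2),
      intervalIntegral.integral_add (hci _) (hci _), intervalIntegral.integral_const_mul]
    unfold D2 qf
    simp only [Prod.fst_add, Prod.snd_add, Prod.fst_sub, Prod.snd_sub, add_zero, sub_zero]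
    ring
  have h2 : ∀ τ : ℝ, W1f W z0 ε (h + k) τ + W1f W z0 ε (h - k) τ - 2 * W1f W z0 ε h τ =
      ∫ u in (-k)..k, (k - |u|) * G1f (Dpp W) z0 ε (h + u) τ :=
    fun τ => w1f_d2 C W h11 z0 ε hε hε1 h τ k hk
  have hmb : ∀ u ∈ Ioc (-k) k, |(k - |u|)| ≤ k := by
    intro u hu
    rw [abs_le]
    have : |u| ≤ k := abs_le.2 ⟨hu.1.le, hu.2⟩
    constructor <;> linarith [abs_nonneg u]
  have hC : 0 ≤ C := h11.nn
  have h3 : ∫ c in (0 : ℝ)..1, (W1f W z0 ε (h + k) (c * t) + W1f W z0 ε (h - k) (c * t) -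
        2 * W1f W z0 ε h (c * t)) =
      ∫ u in (-k)..k, (k - |u|) * ∫ c in (0 : ℝ)..1, G1f (Dpp W) z0 ε (h + u) (c * t) := by
    simp_rw [h2]
    rw [swapI (fun c u => (k - |u|) * G1f (Dpp W) z0 ε (h + u) (c * t)) ?_ (k * (4 * C)) 0 1 (-k) k
      (by norm_num) (by linarith) ?_]
    · apply intervalIntegral.integral_congr
      intro u _
      simp only
      rw [intervalIntegral.integral_const_mul]
    · have e6 : Measurable fun x : ℝ × ℝ => (k - |x.2|) := by fun_prop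
      have e7 : Measurable fun x : ℝ × ℝ => G1f (Dpp W) z0 ε (h + x.2) (x.1 * t) :=
        hG.comp (by fun_prop : Measurable fun x : ℝ × ℝ => (h + x.2, x.1 * t))
      exact e6.mul e7
    · intro c _ u hu
      rw [abs_mul]
      exact mul_le_mul (hmb u hu) (g1f_bd _ C hgb _ _ _ _ hε hε1) (abs_nonneg _) hk
  rw [h1, h3, h2 0]
  have hint : ∀ F : ℝ → ℝ, Measurable F → (∃ B : ℝ, ∀ u, |F u| ≤ B) →
      IntervalIntegrable (fun u => (k - |u|) * F u) volume (-k) k := by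
    rintro F hF ⟨B, hB⟩
    rw [intervalIntegrable_iff_integrableOn_Ioc_of_le (by linarith)]
    have hRf : (volume : Measure ℝ) (Ioc (-k) k) ≠ ⊤ := by
      rw [Real.volume_Ioc]
      exact ENNReal.ofReal_ne_top
    have e6 : Measurable fun u : ℝ => (k - |u|) := by fun_prop
    apply Measure.integrableOn_of_bounded hRf (e6.mul hF).aestronglyMeasurable (M := k * B)
    filter_upwards [ae_restrict_mem measurableSet_Ioc] with u hu
    rw [Real.norm_eq_abs, Pi.mul_apply, abs_mul]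
    exact mul_le_mul (hmb u hu) (hB u) (abs_nonneg _) hk
  have hm1 : Measurable fun u : ℝ => ∫ c in (0 : ℝ)..1, G1f (Dpp W) z0 ε (h + u) (c * t) := by
    have e7 : Measurable fun x : ℝ × ℝ => G1f (Dpp W) z0 ε (h + x.1) (x.2 * t) :=
      hG.comp (by fun_prop : Measurable fun x : ℝ × ℝ => (h + x.1, x.2 * t))
    have e8 := (e7.stronglyMeasurable.integral_prod_right'
      (ν := volume.restrict (Ioc (0 : ℝ) 1))).measurable
    simp_rw [intervalIntegral.integral_of_le (by norm_num : (0 : ℝ) ≤ 1)]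
    exact e8
  have hm2 : Measurable fun u : ℝ => G1f (Dpp W) z0 ε (h + u) 0 :=
    hG.comp (by fun_prop : Measurable fun u : ℝ => (h + u, (0 : ℝ)))
  have hb1 : ∀ u : ℝ, |∫ c in (0 : ℝ)..1, G1f (Dpp W) z0 ε (h + u) (c * t)| ≤ 4 * C := by
    intro u
    have h4 : ‖∫ c in (0 : ℝ)..1, G1f (Dpp W) z0 ε (h + u) (c * t)‖ ≤ (4 * C) * |1 - 0| := by
      apply intervalIntegral.norm_integral_le_of_norm_le_const
      intro c _
      exact g1f_bd _ C hgb _ _ _ _ hε hε1
    rw [Real.norm_eq_abs] at h4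
    have h5 : |(1 : ℝ) - 0| = 1 := by norm_num
    rw [h5, mul_one] at h4
    exact h4
  have i1 := hint _ hm1 ⟨4 * C, hb1⟩
  have i2 := hint _ hm2 ⟨4 * C, fun u => g1f_bd _ C hgb _ _ _ _ hε hε1⟩
  rw [← intervalIntegral.integral_const_mul, ← intervalIntegral.integral_sub (i1.const_mul 2) i2]
  apply intervalIntegral.integral_congr
  intro u _
  simp only
  unfold Gam
  ring

theorem gam_meas (g : ℝ × ℝ → ℝ) (hg : Measurable g) (z0 : ℝ × ℝ) (ε t : ℝ) :
    Measurable fun h => Gam g z0 ε h t := by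
  have hG := g1f_meas g hg z0 ε
  unfold Gam
  have e7 : Measurable fun x : ℝ × ℝ => G1f g z0 ε x.1 (x.2 * t) :=
    hG.comp (by fun_prop : Measurable fun x : ℝ × ℝ => (x.1, x.2 * t))
  have e8 := (e7.stronglyMeasurable.integral_prod_right'
    (ν := volume.restrict (Ioc (0 : ℝ) 1))).measurable
  have e9 : Measurable fun h : ℝ => G1f g z0 ε h 0 :=
    hG.comp (by fun_prop : Measurable fun u : ℝ => (u, (0 : ℝ)))
  simp_rw [intervalIntegral.integral_of_le (by norm_num : (0 : ℝ) ≤ 1)]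
  exact (e8.const_mul 2).sub e9

theorem gam_bd (g : ℝ × ℝ → ℝ) (C : ℝ) (hC : ∀ y, |g y| ≤ C) (z0 : ℝ × ℝ) (ε h t : ℝ)
    (hε : 0 < ε) (hε1 : ε ≤ 1 / 4) : |Gam g z0 ε h t| ≤ 12 * C := by
  have h4 : ‖∫ c in (0 : ℝ)..1, G1f g z0 ε h (c * t)‖ ≤ (4 * C) * |1 - 0| := by
    apply intervalIntegral.norm_integral_le_of_norm_le_const
    intro c _
    exact g1f_bd g C hC _ _ _ _ hε hε1
  rw [Real.norm_eq_abs] at h4
  have h5 : |(1 : ℝ) - 0| = 1 := by norm_num
  rw [h5, mul_one] at h4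
  have h6 := abs_le.1 h4
  have h7 := abs_le.1 (g1f_bd g C hC z0 ε h 0 hε hε1)
  unfold Gam
  rw [abs_le]
  constructor <;> linarith [h6.1, h6.2, h7.1, h7.2]

end Pool.Agent.MP_4eca41.E
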