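import Pool.Agent.Work.MP_4eca41_an.E.EDefs
import Pool.Agent.Work.MP_4eca41_an.T.Ker

/-!
# E/Win: averages over windows of a function with small bad set

PROOFS.  Put `k s = ker s * (1 + ε s)^2` on `[-1, 1]`: `0 ≤ k s ≤ 2` (`ker_le`: `ker ≤ 35/32`, `(1 + ε s)^2 ≤ 25/16`), and
`∫ k = 1 + ε^2/9` (`ker_int`, `ker_int1`, `ker_int2`).
`win2`: let `B = {(c, s) ∈ (0, 1] × (-1, 1] | g (T (c, s)) < m}`, `T (c, s) = (z0.1 + h (1 + ε s), z0.2 + c t)`.  `T` maps `(0, 1] × (-1, 1]` into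
`{y | |y.1 - z0.1| ≤ 2 |h| ∧ |y.2 - z0.2| ≤ |t|}` (as `|1 + ε s| ≤ 5/4`), so `B ⊆ T⁻¹ (bad set)`, and
`volume (T⁻¹ A) = volume A / (|h| ε |t|)` for every measurable `A` (`T` is `(c, s) ↦ (h ε s + (z0.1 + h), c t + z0.2)`: exchange of the
coordinates, two scalings and a translation; `Measure.addHaar_preimage_linearMap`, or do it with iterated integrals
and `intervalIntegral.integral_comp_mul_add`).  So `volume B ≤ ofReal (η/ε)`.  On `(0, 1] × (-1, 1]`: off `B`, `k s (g (T (c, s)) - m) ≥ 0`; on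
`B` it is `≥ -2 · 2 C` (`|g| ≤ C`, `|m| ≤ C`).  Integrate (set integral over the rectangle = the iterated interval integral;
everything is bounded and measurable): `∫∫ k s (g ∘ T - m) ≥ -4 C η/ε`, and `∫∫ k s m = m (1 + ε^2/9)`.
`win1`: the same in one variable: `B = {s ∈ (-1, 1] | M < g (z0.1 + h (1 + ε s), z0.2)}`, `volume B ≤ volume {p | |p - z0.1| ≤ 2 |h| ∧ M < g (p, z0.2)} / (|h| ε) ≤ ofReal (η/ε)`
(`Real.volume_preimage_mul_left`, translation), `k s (g - M) ≤ 0` off `B`, `≤ 4 C` on `B`.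
-/

set_option autoImplicit false

namespace Pool.Agent.MP_4eca41.E

open Set MeasureTheory

private theorem lower_bd {α : Type*} [MeasurableSpace α] (μ : Measure α) (R : Set α)
    (hR : MeasurableSet R) (hRf : μ R ≠ ⊤) (k f : α → ℝ) (hk : Measurable k) (hf : Measurable f)
    (hk0 : ∀ x ∈ R, 0 ≤ k x) (hk2 : ∀ x ∈ R, k x ≤ 2) (C m : ℝ) (hfC : ∀ x, |f x| ≤ C)
    (hm : |m| ≤ C) (δ : ℝ) (hδ : 0 ≤ δ) (hB : μ (R ∩ {x | f x < m}) ≤ ENNReal.ofReal δ) :
    m * (∫ x in R, k x ∂μ) - 4 * C * δ ≤ ∫ x in R, k x * f x ∂μ := by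
  have hC : 0 ≤ C := (abs_nonneg m).trans hm
  have hBm : MeasurableSet {x | f x < m} := measurableSet_lt hf measurable_const
  have hik : IntegrableOn k R μ := by
    apply Measure.integrableOn_of_bounded hRf hk.aestronglyMeasurable (M := 2)
    filter_upwards [ae_restrict_mem hR] with x hx
    rw [Real.norm_eq_abs, abs_of_nonneg (hk0 x hx)]
    exact hk2 x hx
  have hikf : IntegrableOn (fun x => k x * f x) R μ := by
    apply Measure.integrableOn_of_bounded hRf (hk.mul hf).aestronglyMeasurable (M := 2 * C)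
    filter_upwards [ae_restrict_mem hR] with x hx
    rw [Real.norm_eq_abs, Pi.mul_apply, abs_mul, abs_of_nonneg (hk0 x hx)]
    exact mul_le_mul (hk2 x hx) (hfC x) (abs_nonneg _) (by norm_num)
  have hiB : IntegrableOn (({x | f x < m} : Set α).indicator fun _ => 4 * C) R μ := by
    apply Measure.integrableOn_of_bounded hRf
      ((measurable_const.indicator hBm).aestronglyMeasurable) (M := 4 * C)
    filter_upwards with x
    rw [Real.norm_eq_abs, Set.indicator_apply]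
    split_ifs
    · rw [abs_of_nonneg (by positivity)]
    · rw [abs_zero]
      positivity
  have h1 : ∫ x in R, (m * k x - ({x | f x < m} : Set α).indicator (fun _ => 4 * C) x) ∂μ ≤
      ∫ x in R, k x * f x ∂μ := by
    apply setIntegral_mono_on ((hik.const_mul m).sub hiB) hikf hR
    intro x hx
    have h2 := hk0 x hx
    have h3 := hk2 x hx
    have h4 := abs_le.1 (hfC x)
    have h5 := abs_le.1 hm
    rw [Pi.sub_apply, Set.indicator_apply]
    split_ifs with h6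
    · have h7 : k x * (m - f x) ≤ 2 * (2 * C) :=
        mul_le_mul h3 (by linarith) (sub_nonneg.2 (le_of_lt h6)) (by norm_num)
      linarith
    · have h7 : m ≤ f x := not_lt.1 h6
      have h8 : k x * m ≤ k x * f x := mul_le_mul_of_nonneg_left h7 h2
      linarith
  have h2 : ∫ x in R, (m * k x - ({x | f x < m} : Set α).indicator (fun _ => 4 * C) x) ∂μ =
      m * (∫ x in R, k x ∂μ) - 4 * C * (μ (R ∩ {x | f x < m})).toReal := by
    rw [integral_sub (hik.const_mul m) hiB, integral_const_mul, integral_indicator hBm,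
      setIntegral_const, smul_eq_mul, Measure.real, Measure.restrict_apply hBm, Set.inter_comm]
    ring
  have h3 : (μ (R ∩ {x | f x < m})).toReal ≤ δ := ENNReal.toReal_le_of_le_ofReal hδ hB
  have h4 : 4 * C * (μ (R ∩ {x | f x < m})).toReal ≤ 4 * C * δ :=
    mul_le_mul_of_nonneg_left h3 (by positivity)
  linarith

private theorem k_meas (ε : ℝ) : Continuous fun s : ℝ => ker s * (1 + ε * s) ^ 2 := by
  have := ker_continuous
  fun_prop

private theorem k_bd {ε s : ℝ} (hε : 0 < ε) (hε1 : ε ≤ 1 / 4) (hs : s ∈ Ioc (-1 : ℝ) 1) :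
    0 ≤ ker s * (1 + ε * s) ^ 2 ∧ ker s * (1 + ε * s) ^ 2 ≤ 2 ∧ |1 + ε * s| ≤ 2 := by
  have h1 := ker_nonneg s
  have h2 := ker_le s
  have h3 : ε * s ≤ 1 / 4 := by nlinarith [hs.2]
  have h4 : -(1 / 4) ≤ ε * s := by nlinarith [hs.1]
  have h5 : (1 + ε * s) ^ 2 ≤ 25 / 16 := by nlinarith
  refine ⟨by positivity, ?_, abs_le.2 ⟨by linarith, by linarith⟩⟩
  calc ker s * (1 + ε * s) ^ 2 ≤ (35 / 32) * (25 / 16) :=
        mul_le_mul h2 h5 (by positivity) (by norm_num)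
    _ ≤ 2 := by norm_num

private theorem k_int (ε : ℝ) : ∫ s in (-1 : ℝ)..1, ker s * (1 + ε * s) ^ 2 = 1 + ε ^ 2 / 9 := by
  have hc := ker_continuous
  have h1 : ∀ s : ℝ, ker s * (1 + ε * s) ^ 2 =
      ker s + (2 * ε) * (s * ker s) + ε ^ 2 * (s ^ 2 * ker s) := fun s => by ring
  have i1 : IntervalIntegrable (fun s : ℝ => ker s) volume (-1) 1 := hc.intervalIntegrable _ _
  have i2 : IntervalIntegrable (fun s : ℝ => (2 * ε) * (s * ker s)) volume (-1) 1 :=
    (by fun_prop : Continuous fun s : ℝ => (2 * ε) * (s * ker s)).intervalIntegrable _ _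
  have i3 : IntervalIntegrable (fun s : ℝ => ε ^ 2 * (s ^ 2 * ker s)) volume (-1) 1 :=
    (by fun_prop : Continuous fun s : ℝ => ε ^ 2 * (s ^ 2 * ker s)).intervalIntegrable _ _
  simp_rw [h1]
  rw [intervalIntegral.integral_add (i1.add i2) i3, intervalIntegral.integral_add i1 i2,
    intervalIntegral.integral_const_mul, intervalIntegral.integral_const_mul, ker_int, ker_int1,
    ker_int2]
  ring

/-- measure of the preimage of a set of the plane -/
private theorem pre2 (A : Set (ℝ × ℝ)) (a b p q : ℝ) (ha : a ≠ 0) (hb : b ≠ 0) :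
    volume {x : ℝ × ℝ | (a * x.2 + p, b * x.1 + q) ∈ A} =
      ENNReal.ofReal |(a * b)⁻¹| * volume A := by
  set f : ℝ × ℝ →ₗ[ℝ] ℝ × ℝ := Matrix.toLin (Module.Basis.finTwoProd ℝ) (Module.Basis.finTwoProd ℝ)
    !![0, a; b, 0] with hf
  have hdet : LinearMap.det f = -(a * b) := by
    rw [hf, LinearMap.det_toLin, Matrix.det_fin_two_of]
    ring
  have h1 : {x : ℝ × ℝ | (a * x.2 + p, b * x.1 + q) ∈ A} =
      f ⁻¹' ((fun y : ℝ × ℝ => y + (p, q)) ⁻¹' A) := by
    ext x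
    rw [mem_ofPred_eq, mem_preimage, mem_preimage, hf, Matrix.toLin_finTwoProd_apply]
    simp
  rw [h1, Measure.addHaar_preimage_linearMap _ (by rw [hdet]; simp [ha, hb]), hdet,
    measure_preimage_add_right]
  congr 2
  rw [inv_neg, abs_neg]

private theorem pre1 (A : Set ℝ) (a p : ℝ) (ha : a ≠ 0) :
    volume {x : ℝ | a * x + p ∈ A} = ENNReal.ofReal |a⁻¹| * volume A := by
  have h1 : {x : ℝ | a * x + p ∈ A} = (a * ·) ⁻¹' ((fun y : ℝ => y + p) ⁻¹' A) := rfl
  rw [h1, Real.volume_preimage_mul_left ha, measure_preimage_add_right]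

theorem win2 (g : ℝ × ℝ → ℝ) (hg : Measurable g) (C : ℝ) (hC : ∀ y, |g y| ≤ C) (z0 : ℝ × ℝ)
    (m ε h t η : ℝ) (hm : |m| ≤ C) (hε : 0 < ε) (hε1 : ε ≤ 1 / 4) (hh : h ≠ 0) (ht : t ≠ 0) (hη : 0 ≤ η)
    (hbad : volume {y : ℝ × ℝ | |y.1 - z0.1| ≤ 2 * |h| ∧ |y.2 - z0.2| ≤ |t| ∧ g y < m} ≤
      ENNReal.ofReal (η * (|h| * |t|))) :
    m * (1 + ε ^ 2 / 9) - 4 * C * η / ε ≤ ∫ c in (0 : ℝ)..1, G1f g z0 ε h (c * t) := by
  have hsc : ∀ s : ℝ, z0.1 + h * (1 + ε * s) = h * ε * s + (z0.1 + h) := fun s => by ring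
  set R : Set (ℝ × ℝ) := Ioc (0 : ℝ) 1 ×ˢ Ioc (-1 : ℝ) 1 with hR
  have hRm : MeasurableSet R := measurableSet_Ioc.prod measurableSet_Ioc
  have hRf : (volume : Measure (ℝ × ℝ)) R ≠ ⊤ := by
    rw [hR, Measure.volume_eq_prod, Measure.prod_prod, Real.volume_Ioc, Real.volume_Ioc]
    exact ENNReal.mul_ne_top ENNReal.ofReal_ne_top ENNReal.ofReal_ne_top
  have hkc := k_meas ε
  have hkm : Measurable fun x : ℝ × ℝ => ker x.2 * (1 + ε * x.2) ^ 2 :=
    (hkc.comp continuous_snd).measurable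
  have hfm : Measurable fun x : ℝ × ℝ => g (z0.1 + h * (1 + ε * x.2), z0.2 + x.1 * t) :=
    hg.comp (by fun_prop)
  have hB : (volume : Measure (ℝ × ℝ)) (R ∩ {x | g (z0.1 + h * (1 + ε * x.2), z0.2 + x.1 * t) < m}) ≤
      ENNReal.ofReal (η / ε) := by
    have h1 : R ∩ {x | g (z0.1 + h * (1 + ε * x.2), z0.2 + x.1 * t) < m} ⊆
        {x : ℝ × ℝ | (h * ε * x.2 + (z0.1 + h), t * x.1 + z0.2) ∈
          {y : ℝ × ℝ | |y.1 - z0.1| ≤ 2 * |h| ∧ |y.2 - z0.2| ≤ |t| ∧ g y < m}} := by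
      rintro ⟨c, s⟩ ⟨⟨hc, hs⟩, hx⟩
      simp only [mem_ofPred_eq] at hx ⊢
      simp only at hc hs
      refine ⟨?_, ?_, ?_⟩
      · have h2 : h * ε * s + (z0.1 + h) - z0.1 = h * (1 + ε * s) := by ring
        rw [h2, abs_mul, mul_comm]
        exact mul_le_mul_of_nonneg_right (k_bd hε hε1 hs).2.2 (abs_nonneg _)
      · have h2 : t * c + z0.2 - z0.2 = t * c := by ring
        rw [h2, abs_mul, abs_of_pos hc.1]
        exact mul_le_of_le_one_right (abs_nonneg _) hc.2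
      · have h2 : h * ε * s + (z0.1 + h) = z0.1 + h * (1 + ε * s) := by ring
        have h3 : t * c + z0.2 = z0.2 + c * t := by ring
        rw [h2, h3]
        exact hx
    refine (measure_mono h1).trans ?_
    rw [pre2 _ _ _ _ _ (mul_ne_zero hh hε.ne') ht]
    calc ENNReal.ofReal |(h * ε * t)⁻¹| * volume {y : ℝ × ℝ | |y.1 - z0.1| ≤ 2 * |h| ∧
          |y.2 - z0.2| ≤ |t| ∧ g y < m} ≤
        ENNReal.ofReal |(h * ε * t)⁻¹| * ENNReal.ofReal (η * (|h| * |t|)) := by gcongr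
      _ = ENNReal.ofReal (η / ε) := by
        rw [← ENNReal.ofReal_mul (abs_nonneg _)]
        congr 1
        rw [abs_inv, abs_mul, abs_mul, abs_of_pos hε]
        have := abs_pos.2 hh
        have := abs_pos.2 ht
        field_simp
  have key := lower_bd volume R hRm hRf _ _ hkm hfm
    (fun x hx => (k_bd hε hε1 hx.2).1) (fun x hx => (k_bd hε hε1 hx.2).2.1) C m
    (fun x => hC _) hm (η / ε) (by positivity) hB
  have hik : IntegrableOn (fun x : ℝ × ℝ => ker x.2 * (1 + ε * x.2) ^ 2) R := by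
    apply Measure.integrableOn_of_bounded hRf hkm.aestronglyMeasurable (M := 2)
    filter_upwards [ae_restrict_mem hRm] with x hx
    rw [Real.norm_eq_abs, abs_of_nonneg (k_bd hε hε1 hx.2).1]
    exact (k_bd hε hε1 hx.2).2.1
  have hikf : IntegrableOn (fun x : ℝ × ℝ => ker x.2 * (1 + ε * x.2) ^ 2 *
      g (z0.1 + h * (1 + ε * x.2), z0.2 + x.1 * t)) R := by
    apply Measure.integrableOn_of_bounded hRf (hkm.mul hfm).aestronglyMeasurable (M := 2 * C)
    filter_upwards [ae_restrict_mem hRm] with x hx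
    rw [Real.norm_eq_abs, Pi.mul_apply, abs_mul, abs_of_nonneg (k_bd hε hε1 hx.2).1]
    exact mul_le_mul (k_bd hε hε1 hx.2).2.1 (hC _) (abs_nonneg _) (by norm_num)
  have e1 : ∫ x in R, ker x.2 * (1 + ε * x.2) ^ 2 = 1 + ε ^ 2 / 9 := by
    rw [hR, Measure.volume_eq_prod, setIntegral_prod _ hik]
    simp only
    rw [← intervalIntegral.integral_of_le (by norm_num : (0 : ℝ) ≤ 1)]
    simp_rw [← intervalIntegral.integral_of_le (by norm_num : (-1 : ℝ) ≤ 1), k_int]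
    simp
  have e2 : ∫ x in R, ker x.2 * (1 + ε * x.2) ^ 2 * g (z0.1 + h * (1 + ε * x.2), z0.2 + x.1 * t) =
      ∫ c in (0 : ℝ)..1, G1f g z0 ε h (c * t) := by
    rw [hR, Measure.volume_eq_prod, setIntegral_prod _ hikf]
    simp only
    rw [← intervalIntegral.integral_of_le (by norm_num : (0 : ℝ) ≤ 1)]
    simp_rw [← intervalIntegral.integral_of_le (by norm_num : (-1 : ℝ) ≤ 1)]
    rfl
  rw [e1, e2] at key
  have h9 : 4 * C * (η / ε) = 4 * C * η / ε := by ring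
  linarith

theorem win1 (g : ℝ × ℝ → ℝ) (hg : Measurable g) (C : ℝ) (hC : ∀ y, |g y| ≤ C) (z0 : ℝ × ℝ)
    (M ε h η : ℝ) (hm : |M| ≤ C) (hε : 0 < ε) (hε1 : ε ≤ 1 / 4) (hh : h ≠ 0) (hη : 0 ≤ η)
    (hbad : volume {p : ℝ | |p - z0.1| ≤ 2 * |h| ∧ M < g (p, z0.2)} ≤ ENNReal.ofReal (η * |h|)) :
    G1f g z0 ε h 0 ≤ M * (1 + ε ^ 2 / 9) + 4 * C * η / ε := by
  set R : Set ℝ := Ioc (-1 : ℝ) 1 with hR
  have hRm : MeasurableSet R := measurableSet_Ioc
  have hRf : (volume : Measure ℝ) R ≠ ⊤ := by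
    rw [hR, Real.volume_Ioc]
    exact ENNReal.ofReal_ne_top
  have hkc := k_meas ε
  have hfm : Measurable fun s : ℝ => -g (z0.1 + h * (1 + ε * s), z0.2 + 0) :=
    (hg.comp (by fun_prop)).neg
  have hB : (volume : Measure ℝ) (R ∩ {s | -g (z0.1 + h * (1 + ε * s), z0.2 + 0) < -M}) ≤
      ENNReal.ofReal (η / ε) := by
    have h1 : R ∩ {s | -g (z0.1 + h * (1 + ε * s), z0.2 + 0) < -M} ⊆
        {s : ℝ | h * ε * s + (z0.1 + h) ∈ {p : ℝ | |p - z0.1| ≤ 2 * |h| ∧ M < g (p, z0.2)}} := by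
      rintro s ⟨hs, hx⟩
      simp only [mem_ofPred_eq] at hx ⊢
      refine ⟨?_, ?_⟩
      · have h2 : h * ε * s + (z0.1 + h) - z0.1 = h * (1 + ε * s) := by ring
        rw [h2, abs_mul, mul_comm]
        exact mul_le_mul_of_nonneg_right (k_bd hε hε1 hs).2.2 (abs_nonneg _)
      · have h2 : h * ε * s + (z0.1 + h) = z0.1 + h * (1 + ε * s) := by ring
        rw [h2]
        rw [add_zero] at hx
        linarith
    refine (measure_mono h1).trans ?_
    rw [pre1 _ _ _ (mul_ne_zero hh hε.ne')]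
    calc ENNReal.ofReal |(h * ε)⁻¹| * volume {p : ℝ | |p - z0.1| ≤ 2 * |h| ∧ M < g (p, z0.2)} ≤
        ENNReal.ofReal |(h * ε)⁻¹| * ENNReal.ofReal (η * |h|) := by gcongr
      _ = ENNReal.ofReal (η / ε) := by
        rw [← ENNReal.ofReal_mul (abs_nonneg _)]
        congr 1
        rw [abs_inv, abs_mul, abs_of_pos hε]
        have := abs_pos.2 hh
        field_simp
  have key := lower_bd volume R hRm hRf _ _ hkc.measurable hfm
    (fun x hx => (k_bd hε hε1 hx).1) (fun x hx => (k_bd hε hε1 hx).2.1) C (-M)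
    (fun x => by rw [abs_neg]; exact hC _) (by rw [abs_neg]; exact hm) (η / ε) (by positivity) hB
  have e1 : ∫ s in R, ker s * (1 + ε * s) ^ 2 = 1 + ε ^ 2 / 9 := by
    rw [hR, ← intervalIntegral.integral_of_le (by norm_num : (-1 : ℝ) ≤ 1), k_int]
  have e2 : ∫ s in R, ker s * (1 + ε * s) ^ 2 * -g (z0.1 + h * (1 + ε * s), z0.2 + 0) =
      -G1f g z0 ε h 0 := by
    unfold G1f
    rw [hR, intervalIntegral.integral_of_le (by norm_num : (-1 : ℝ) ≤ 1), ← integral_neg]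
    congr 1
    funext s
    ring
  rw [e1, e2] at key
  have h9 : 4 * C * (η / ε) = 4 * C * η / ε := by ring
  linarith

end Pool.Agent.MP_4eca41.E
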