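import Pool.Agent.Work.MP_4eca41_an.E.QfA
import Pool.Agent.Work.MP_4eca41_an.E.QfD
import Pool.Agent.Work.MP_4eca41_an.E.Win

/-!
# E/QfB: lower bound of the second difference of `qf` near `0`

PROOF.  `g = Dpp W`, `g0 = g z0`, `|g| ≤ C`, `g0 ≤ 0` is not needed.  We may enlarge `C` to `C + κ` so that `|g0 ± κ/16| ≤ C'` where
`C' = C + κ`.  Choose `ε ∈ (0, 1/4]` with `C' ε^2 ≤ κ/8` and then `η > 0` with `12 C' η/ε ≤ κ/4`.  `SD` for
`m = g0 - κ/16`, `HD` for `M = g0 + κ/16` (with `η/2`: the windows have half sides `2 |h|` and `|t|`, so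
`volume ≤ (η/2) (2 |h| |t|) = η |h| |t|`; similarly for `HD`) give `r0 > 0` such that for `h ≠ 0`, `t ≠ 0`, `2 |h| < r0`, `|t| < r0` the hypotheses of
`win2`, `win1` (with `C'`) hold.  Then
`Gam g z0 ε h t ≥ 2 (m (1 + ε^2/9) - 4 C' η/ε) - (M (1 + ε^2/9) + 4 C' η/ε) = (g0 - 3κ/16)(1 + ε^2/9) - 12 C' η/ε ≥ g0 - 3κ/16 - C' ε^2/9·… - κ/4 ≥ g0 - κ`
(use `|g0 - 3κ/16| ≤ C'`, `C' ε^2/9 ≤ κ/8`).  Let `r = r0/2`.  For `t ≠ 0`, `|h| + |k| < r`, `|t| < r`: by `qf_d2` (for `k ≥ 0`; `D2 (k, 0) = D2 (-k, 0)` for the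
other sign) `D2 (qf W z0 ε) (k, 0) (h, t) = ∫_{-k}^{k} (k - |u|) Gam (h + u) t du ≥ ∫_{-k}^{k} (k - |u|) (g0 - κ) du = (g0 - κ) k^2`, as `h + u ≠ 0` for all `u` but one
(monotonicity a.e.; integrability from `gam_meas`, `gam_bd`).  For `t = 0` let `t' → 0`, `t' ≠ 0`, and use the continuity
of `qf` (`qf_cont`): both sides are continuous in `t` (`le_of_tendsto`, or `closure` argument).
-/

set_option autoImplicit false

namespace Pool.Agent.MP_4eca41.E

open Set MeasureTheory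

private theorem qfb_tri (h : ℝ) (hh : 0 ≤ h) : (∫ s in (-h)..h, (h - |s|)) = h ^ 2 := by
  have c1 : Continuous fun s : ℝ => h - |s| := continuous_const.sub continuous_abs
  rw [← intervalIntegral.integral_add_adjacent_intervals (c1.intervalIntegrable (-h) 0)
    (c1.intervalIntegrable 0 h)]
  have f1 : (∫ s in (0 : ℝ)..h, (h - |s|)) = ∫ s in (0 : ℝ)..h, (h - s) := by
    refine intervalIntegral.integral_congr fun s hs => ?_
    rw [uIcc_of_le hh] at hs
    show h - |s| = h - s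
    rw [abs_of_nonneg hs.1]
  have f2 : (∫ s in (-h)..(0 : ℝ), (h - |s|)) = ∫ s in (-h)..(0 : ℝ), (h + s) := by
    refine intervalIntegral.integral_congr fun s hs => ?_
    rw [uIcc_of_le (by linarith)] at hs
    show h - |s| = h + s
    rw [abs_of_nonpos hs.2]; ring
  have hi : ∀ u v : ℝ, IntervalIntegrable (fun s : ℝ => s) volume u v := fun u v =>
    continuous_id.intervalIntegrable u v
  rw [f1, f2, intervalIntegral.integral_add (continuous_const.intervalIntegrable _ _) (hi _ _),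
    intervalIntegral.integral_sub (continuous_const.intervalIntegrable _ _)
    (hi _ _), intervalIntegral.integral_const,
    intervalIntegral.integral_const, integral_id, integral_id]
  simp only [smul_eq_mul]
  ring

/-- the window estimate -/
private theorem qfb_gam (C : ℝ) (g : ℝ × ℝ → ℝ) (hg : Measurable g) (hgC : ∀ y, |g y| ≤ C)
    (z0 : ℝ × ℝ) (hS : ∀ m : ℝ, m < g z0 → SD g m z0) (hH : ∀ M : ℝ, g z0 < M → HD g M z0)
    (κ : ℝ) (hκ : 0 < κ) :
    ∃ ε : ℝ, 0 < ε ∧ ε ≤ 1 / 4 ∧ ∃ r : ℝ, 0 < r ∧ ∀ h t : ℝ, h ≠ 0 → t ≠ 0 → |h| < r → |t| < r →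
      g z0 - κ ≤ Gam g z0 ε h t := by
  have hC0 : 0 ≤ C := (abs_nonneg _).trans (hgC z0)
  obtain ⟨C', hC'⟩ : ∃ C' : ℝ, C' = C + κ := ⟨_, rfl⟩
  have hC'p : 0 < C' := by linarith
  obtain ⟨g1, g2⟩ := abs_le.1 (hgC z0)
  obtain ⟨ε, hε, hε1, hε2⟩ : ∃ ε : ℝ, 0 < ε ∧ ε ≤ 1 / 4 ∧ C' * ε ≤ κ / 8 := by
    refine ⟨min (1 / 4) (κ / (8 * C')), lt_min (by norm_num) (by positivity), min_le_left _ _, ?_⟩
    have h1 := mul_le_mul_of_nonneg_left (min_le_right (1 / 4) (κ / (8 * C'))) hC'p.le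
    have h2 : C' * (κ / (8 * C')) = κ / 8 := by field_simp
    rw [h2] at h1
    exact h1
  obtain ⟨η, hη, hη1⟩ : ∃ η : ℝ, 0 < η ∧ 12 * C' * η / ε = κ / 4 := by
    refine ⟨κ * ε / (48 * C'), by positivity, ?_⟩
    field_simp
    norm_num
  obtain ⟨δ1, hδ1, h1⟩ := hS (g z0 - κ / 16) (by linarith) (η / 2) (by linarith)
  obtain ⟨δ2, hδ2, h2⟩ := hH (g z0 + κ / 16) (by linarith) (η / 2) (by linarith)
  have hgC' : ∀ y, |g y| ≤ C' := fun y => (hgC y).trans (by linarith)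
  refine ⟨ε, hε, hε1, min δ1 δ2 / 2, by positivity, fun h t hh ht hhr htr => ?_⟩
  have hm1 : min δ1 δ2 ≤ δ1 := min_le_left _ _
  have hm2 : min δ1 δ2 ≤ δ2 := min_le_right _ _
  have hhp : 0 < |h| := abs_pos.2 hh
  have htp : 0 < |t| := abs_pos.2 ht
  have e1 := h1 (2 * |h|) |t| (by linarith) (by linarith) htp (by linarith)
  have e2 := h2 (2 * |h|) (by linarith) (by linarith)
  have r1 : η / 2 * (2 * |h| * |t|) = η * (|h| * |t|) := by ring
  have r2 : η / 2 * (2 * |h|) = η * |h| := by ring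
  rw [r1] at e1
  rw [r2] at e2
  have w2 := win2 g hg C' hgC' z0 (g z0 - κ / 16) ε h t η
    (abs_le.2 ⟨by linarith, by linarith⟩) hε hε1 hh ht hη.le e1
  have w1 := win1 g hg C' hgC' z0 (g z0 + κ / 16) ε h η
    (abs_le.2 ⟨by linarith, by linarith⟩) hε hε1 hh hη.le e2
  have r3 : 12 * C' * η / ε = 3 * (4 * C' * η / ε) := by ring
  rw [r3] at hη1
  have r4 : (g z0 - 3 * κ / 16) * (ε ^ 2 / 9) ≥ -(κ / 8) := by
    have k1 : -C' ≤ g z0 - 3 * κ / 16 := by linarith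
    have k2 : 0 ≤ ε ^ 2 / 9 := by positivity
    have k3 := mul_le_mul_of_nonneg_right k1 k2
    have k4 : C' * (ε ^ 2 / 9) ≤ C' * ε := by
      refine mul_le_mul_of_nonneg_left ?_ hC'p.le
      nlinarith
    have k5 : -C' * (ε ^ 2 / 9) = -(C' * (ε ^ 2 / 9)) := by ring
    rw [k5] at k3
    linarith
  unfold Gam
  have r5 : 2 * ((g z0 - κ / 16) * (1 + ε ^ 2 / 9)) - (g z0 + κ / 16) * (1 + ε ^ 2 / 9) =
      g z0 - 3 * κ / 16 + (g z0 - 3 * κ / 16) * (ε ^ 2 / 9) := by ring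
  linarith

theorem qf_lower (C : ℝ) (W : ℝ × ℝ → ℝ) (h11 : C11 C W) (z0 : ℝ × ℝ)
    (hS : ∀ m : ℝ, m < Dpp W z0 → SD (Dpp W) m z0) (hH : ∀ M : ℝ, Dpp W z0 < M → HD (Dpp W) M z0)
    (κ : ℝ) (hκ : 0 < κ) :
    ∃ ε : ℝ, 0 < ε ∧ ε ≤ 1 / 4 ∧ ∃ r : ℝ, 0 < r ∧ ∀ h t k : ℝ, |h| + |k| < r → |t| < r →
      (Dpp W z0 - κ) * k ^ 2 ≤ D2 (qf W z0 ε) (k, 0) (h, t) := by
  obtain ⟨ε, hε, hε1, r, hr, hG⟩ := qfb_gam C (Dpp W) (dpp_meas C W h11) (dpp_bd C W h11) z0 hS hH
    κ hκ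
  refine ⟨ε, hε, hε1, r, hr, ?_⟩
  -- nonnegative step, `t ≠ 0`
  have main : ∀ h t k : ℝ, 0 ≤ k → t ≠ 0 → |h| + k < r → |t| < r →
      (Dpp W z0 - κ) * k ^ 2 ≤ D2 (qf W z0 ε) (k, 0) (h, t) := by
    intro h t k hk ht hhk htr
    rw [qf_d2 C W h11 z0 ε hε hε1 h t k hk, ← qfb_tri k hk, ← intervalIntegral.integral_const_mul]
    have hgm : Measurable fun u : ℝ => Gam (Dpp W) z0 ε (h + u) t :=
      (gam_meas (Dpp W) (dpp_meas C W h11) z0 ε t).comp (measurable_const.add measurable_id)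
    have hint : IntervalIntegrable (fun u : ℝ => Gam (Dpp W) z0 ε (h + u) t) volume (-k) k := by
      rw [intervalIntegrable_iff]
      refine Measure.integrableOn_of_bounded (M := 12 * C) ?_ hgm.aestronglyMeasurable ?_
      · exact measure_Ioc_lt_top.ne
      · refine Filter.Eventually.of_forall fun u => ?_
        rw [Real.norm_eq_abs]
        exact gam_bd (Dpp W) C (dpp_bd C W h11) z0 ε (h + u) t hε hε1
    refine intervalIntegral.integral_mono_ae_restrict (by linarith) ?_ ?_ ?_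
    · exact (continuous_const.mul (continuous_const.sub continuous_abs)).intervalIntegrable _ _
    · exact hint.continuousOn_mul (continuous_const.sub continuous_abs).continuousOn
    · have hne : ∀ᵐ u : ℝ ∂(volume.restrict (Icc (-k) k)), u ≠ -h := by
        refine ae_restrict_of_ae ?_
        have := (measure_singleton (μ := (volume : Measure ℝ)) (-h))
        exact measure_eq_zero_iff_ae_notMem.1 this
      filter_upwards [hne, ae_restrict_mem measurableSet_Icc] with u hu1 hu2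
      have hu3 : |u| ≤ k := abs_le.2 ⟨hu2.1, hu2.2⟩
      have hu4 : h + u ≠ 0 := by
        intro h0
        apply hu1
        linarith
      have hu5 : |h + u| < r := lt_of_le_of_lt (abs_add_le h u) (by linarith)
      have hu6 := hG (h + u) t hu4 ht hu5 htr
      show (Dpp W z0 - κ) * (k - |u|) ≤ (k - |u|) * Gam (Dpp W) z0 ε (h + u) t
      rw [mul_comm]
      exact mul_le_mul_of_nonneg_left hu6 (by linarith)
  have main2 : ∀ h t k : ℝ, t ≠ 0 → |h| + |k| < r → |t| < r →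
      (Dpp W z0 - κ) * k ^ 2 ≤ D2 (qf W z0 ε) (k, 0) (h, t) := by
    intro h t k ht hhk htr
    have h1 := main h t |k| (abs_nonneg k) ht hhk htr
    rw [sq_abs] at h1
    rcases abs_choice k with h2 | h2
    · rwa [h2] at h1
    · rw [h2] at h1
      refine h1.trans (le_of_eq ?_)
      unfold D2
      have e1 : ((h, t) : ℝ × ℝ) + (-k, 0) = (h, t) - (k, 0) := by ext <;> simp [sub_eq_add_neg]
      have e2 : ((h, t) : ℝ × ℝ) - (-k, 0) = (h, t) + (k, 0) := by ext <;> simp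
      rw [e1, e2]
      ring
  intro h t k hhk htr
  by_cases ht : t = 0
  · subst ht
    have hc := qf_cont W h11.cont z0 ε
    have hcont : Continuous fun s : ℝ => D2 (qf W z0 ε) (k, 0) (h, s) := by
      unfold D2
      have p1 : Continuous fun s : ℝ => ((h, s) : ℝ × ℝ) := continuous_const.prodMk continuous_id
      exact ((hc.comp (p1.add continuous_const)).add (hc.comp (p1.sub continuous_const))).sub
        (continuous_const.mul (hc.comp p1))
    have ht0 : Filter.Tendsto (fun s : ℝ => D2 (qf W z0 ε) (k, 0) (h, s))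
        (nhdsWithin 0 {0}ᶜ) (nhds (D2 (qf W z0 ε) (k, 0) (h, 0))) :=
      (hcont.tendsto 0).mono_left nhdsWithin_le_nhds
    refine ge_of_tendsto ht0 ?_
    have hball : ∀ᶠ s : ℝ in nhdsWithin 0 {0}ᶜ, |s| < r := by
      refine Filter.Eventually.filter_mono nhdsWithin_le_nhds ?_
      have ho : IsOpen {s : ℝ | |s| < r} := isOpen_lt continuous_abs continuous_const
      exact ho.mem_nhds (by simpa using hr)
    filter_upwards [hball, self_mem_nhdsWithin] with s hs1 hs2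
    exact main2 h s k hs2 hhk hs1
  · exact main2 h t k ht hhk htr

end Pool.Agent.MP_4eca41.E
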