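import Pool.Agent.Work.MP_4eca41_an.E.Perron
import Pool.Agent.Work.MP_4eca41_an.E.QfB

/-!
# E/Q2: no contact and no face: `Dpp W z0 ≤ β z0`  (paper E2)

PROOF.  `z0 = (p0, t0)`.  Suppose `Dpp W z0 > β z0`, and let `κ = (Dpp W z0 - β z0)/5 > 0`.  `qf_lower` for `κ` gives `ε`, `r1`.  By continuity there are
`r2 ∈ (0, r1/2)` and `e > 0` such that for `|y.1 - p0| ≤ r2`, `|y.2 - t0| ≤ r2`: `β y ≤ β z0 + κ` and `W y + 2 e ≤ Φ y`.  Put `s = r2`.
By `qf_lt`, `qf (0, ±s) < W (p0, t0 ± s)`: by continuity (`qf_cont`) there are `r ∈ (0, r2]`, `γ > 0` with `qf (h, ±s) + γ ≤ W (p0 + h, t0 ± s)` for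
`|h| ≤ r`.  Let `η > 0` with `η < γ`, `η < κ r^2/2`, `η ≤ e`, and
`Q y = qf W z0 ε (y - z0) - (κ/2) (y.1 - p0)^2 + η`, on the box `[p0 - r, p0 + r] × [t0 - s, t0 + s]`.  Continuous.  On the sides `|y.2 - t0| = s`:
`Q y ≤ W y - γ + η < W y`.  On the sides `|y.1 - p0| = r`: `Q y ≤ W y - κ r^2/2 + η < W y` (`qf_le`).  `Q y ≤ W y + η ≤ Φ y` on the box.  For `y` in the open
box and `h > 0` small (`|y.1 - p0| + h < r1`): `D2 Q (h, 0) y = D2 (qf) (h, 0) (y - z0) - κ h^2 ≥ (Dpp W z0 - 2 κ) h^2 ≥ (β z0 + 3 κ) h^2 ≥ β y h^2`, and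
`D2 Q (0, h) y = D2 (qf) (0, h) (y - z0) ≥ 0` (`qf_conv`; convexity in `t` is the first component of `hE.cls`).
`perron_box` gives `Q z0 ≤ W z0`; but `Q z0 = qf (0, 0) + η = W z0 + η` (`qf_zero`): contradiction.
-/

set_option autoImplicit false

namespace Pool.Agent.MP_4eca41.E

open Set MeasureTheory

private theorem q2_near {g : ℝ → ℝ} (hg : Continuous g) {γ : ℝ} (h0 : γ < g 0) :
    ∃ r : ℝ, 0 < r ∧ ∀ h : ℝ, |h| ≤ r → γ ≤ g h := by
  have h1 : ∀ᶠ h in nhds (0 : ℝ), γ < g h := (hg.tendsto 0).eventually (lt_mem_nhds h0)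
  obtain ⟨δ, hδ, h2⟩ := Metric.eventually_nhds_iff.1 h1
  refine ⟨δ / 2, by positivity, fun h hh => (h2 ?_).le⟩
  rw [Real.dist_eq, sub_zero]
  linarith

theorem noncontact (C : ℝ) (W Φ β : ℝ × ℝ → ℝ) (hE : EE C W Φ β) (z0 : ℝ × ℝ)
    (hS : ∀ m : ℝ, m < Dpp W z0 → SD (Dpp W) m z0) (hH : ∀ M : ℝ, Dpp W z0 < M → HD (Dpp W) M z0)
    (hlt : W z0 < Φ z0) (h1 : ¬ FR W z0) (h2 : ¬ FL W z0) : Dpp W z0 ≤ β z0 := by
  by_contra hcon
  push Not at hcon
  have hW := hE.c11.cont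
  obtain ⟨κ, hκ⟩ : ∃ κ : ℝ, κ = (Dpp W z0 - β z0) / 5 := ⟨_, rfl⟩
  have hκ0 : 0 < κ := by rw [hκ]; linarith
  have hD : Dpp W z0 = β z0 + 5 * κ := by rw [hκ]; ring
  obtain ⟨ε, hε, hε4, r1, hr1, hlow⟩ := qf_lower C W hE.c11 z0 hS hH κ hκ0
  obtain ⟨e, he⟩ : ∃ e : ℝ, e = (Φ z0 - W z0) / 3 := ⟨_, rfl⟩
  have he0 : 0 < e := by rw [he]; linarith
  have hn1 : ∀ᶠ y in nhds z0, W y + 2 * e < Φ y := by
    have h3 : W z0 + 2 * e < Φ z0 := by rw [he]; linarith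
    exact ((hW.add continuous_const).tendsto z0).eventually_lt (hE.contΦ.tendsto z0) h3
  have hn2 : ∀ᶠ y in nhds z0, β y < β z0 + κ :=
    (hE.contβ.tendsto z0).eventually (gt_mem_nhds (by linarith))
  obtain ⟨δ, hδ, hnear⟩ := Metric.eventually_nhds_iff.1 (hn1.and hn2)
  obtain ⟨s, hs⟩ : ∃ s : ℝ, s = min (r1 / 4) (δ / 2) := ⟨_, rfl⟩
  have hs0 : 0 < s := by rw [hs]; exact lt_min (by positivity) (by positivity)
  have hs1 : s ≤ r1 / 4 := by rw [hs]; exact min_le_left _ _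
  have hs2 : s ≤ δ / 2 := by rw [hs]; exact min_le_right _ _
  have hball : ∀ y : ℝ × ℝ, |y.1 - z0.1| ≤ s → |y.2 - z0.2| ≤ s →
      W y + 2 * e < Φ y ∧ β y < β z0 + κ := by
    intro y h3 h4
    apply hnear
    rw [Prod.dist_eq, Real.dist_eq, Real.dist_eq]
    exact max_lt (by linarith) (by linarith)
  have hlt1 := qf_lt W hW hE.cls.1 z0 ε h1 h2 s hs0.ne'
  have hlt2 := qf_lt W hW hE.cls.1 z0 ε h1 h2 (-s) (neg_ne_zero.2 hs0.ne')
  have hqc := qf_cont W hW z0 ε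
  obtain ⟨γ, hγ⟩ : ∃ γ : ℝ, γ = min (W (z0.1, z0.2 + s) - qf W z0 ε (0, s))
    (W (z0.1, z0.2 + -s) - qf W z0 ε (0, -s)) / 2 := ⟨_, rfl⟩
  have hm0 : 0 < min (W (z0.1, z0.2 + s) - qf W z0 ε (0, s))
    (W (z0.1, z0.2 + -s) - qf W z0 ε (0, -s)) := lt_min (by linarith) (by linarith)
  have hγ0 : 0 < γ := by rw [hγ]; positivity
  have hγ1 : γ < W (z0.1, z0.2 + s) - qf W z0 ε (0, s) := by
    have := min_le_left (W (z0.1, z0.2 + s) - qf W z0 ε (0, s))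
      (W (z0.1, z0.2 + -s) - qf W z0 ε (0, -s))
    linarith
  have hγ2 : γ < W (z0.1, z0.2 + -s) - qf W z0 ε (0, -s) := by
    have := min_le_right (W (z0.1, z0.2 + s) - qf W z0 ε (0, s))
      (W (z0.1, z0.2 + -s) - qf W z0 ε (0, -s))
    linarith
  obtain ⟨ra, hra, hna⟩ := q2_near (g := fun h => W (z0.1 + h, z0.2 + s) - qf W z0 ε (h, s))
    ((hW.comp (by fun_prop)).sub (hqc.comp (by fun_prop))) (γ := γ) (by
      simp only [add_zero]; exact hγ1)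
  obtain ⟨rb, hrb, hnb⟩ := q2_near (g := fun h => W (z0.1 + h, z0.2 + -s) - qf W z0 ε (h, -s))
    ((hW.comp (by fun_prop)).sub (hqc.comp (by fun_prop))) (γ := γ) (by
      simp only [add_zero]; exact hγ2)
  obtain ⟨r, hr⟩ : ∃ r : ℝ, r = min s (min ra rb) := ⟨_, rfl⟩
  have hr0 : 0 < r := by rw [hr]; exact lt_min hs0 (lt_min hra hrb)
  have hrs : r ≤ s := by rw [hr]; exact min_le_left _ _
  have hrra : r ≤ ra := by rw [hr]; exact (min_le_right _ _).trans (min_le_left _ _)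
  have hrrb : r ≤ rb := by rw [hr]; exact (min_le_right _ _).trans (min_le_right _ _)
  obtain ⟨η, hη⟩ : ∃ η : ℝ, η = min (γ / 2) (min (κ * r ^ 2 / 4) e) := ⟨_, rfl⟩
  have hκr : 0 < κ * r ^ 2 := by positivity
  have hη0 : 0 < η := by rw [hη]; exact lt_min (by positivity) (lt_min (by positivity) he0)
  have hη1 : η < γ := by
    have : η ≤ γ / 2 := by rw [hη]; exact min_le_left _ _
    linarith
  have hη2 : η < κ / 2 * r ^ 2 := by
    have : η ≤ κ * r ^ 2 / 4 := by rw [hη]; exact (min_le_right _ _).trans (min_le_left _ _)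
    linarith
  have hη3 : η ≤ e := by rw [hη]; exact (min_le_right _ _).trans (min_le_right _ _)
  obtain ⟨Q, hQ⟩ : ∃ Q : ℝ × ℝ → ℝ, Q = fun y =>
    qf W z0 ε (y - z0) - κ / 2 * (y.1 - z0.1) ^ 2 + η := ⟨_, rfl⟩
  have hQy : ∀ y, Q y = qf W z0 ε (y - z0) - κ / 2 * (y.1 - z0.1) ^ 2 + η := fun y => by rw [hQ]
  have hQc : Continuous Q := by
    rw [hQ]
    exact ((hqc.comp (by fun_prop)).sub (by fun_prop)).add continuous_const
  have hqle : ∀ y, qf W z0 ε (y - z0) ≤ W y := by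
    intro y
    have := qf_le W hW hE.cls.1 hE.conc z0 ε (y - z0)
    rwa [add_sub_cancel] at this
  have hbox : ∀ y ∈ Icc (z0.1 - r) (z0.1 + r) ×ˢ Icc (z0.2 - s) (z0.2 + s),
      |y.1 - z0.1| ≤ r ∧ |y.2 - z0.2| ≤ s := by
    intro y hy
    obtain ⟨⟨a1, a2⟩, ⟨a3, a4⟩⟩ := hy
    exact ⟨abs_le.2 ⟨by linarith, by linarith⟩, abs_le.2 ⟨by linarith, by linarith⟩⟩
  have hfin := perron_box C W Φ β hE Q hQc (z0.1 - r) (z0.1 + r) (z0.2 - s) (z0.2 + s)
    (by linarith) (by linarith) ?_ ?_ ?_ ?_ z0 ⟨⟨by linarith, by linarith⟩, by linarith, by linarith⟩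
  · rw [hQy, sub_self, sub_self] at hfin
    have h5 : qf W z0 ε 0 = W z0 := qf_zero W z0 ε
    rw [h5] at hfin
    have h6 : κ / 2 * (0 : ℝ) ^ 2 = 0 := by ring
    rw [h6] at hfin
    linarith
  · intro y hy hside
    obtain ⟨b1, b2⟩ := hbox y hy
    have h7 := hqle y
    have h8 : 0 ≤ κ / 2 * (y.1 - z0.1) ^ 2 := by positivity
    rw [hQy]
    rcases hside with h | h | h | h
    · have : (y.1 - z0.1) ^ 2 = r ^ 2 := by rw [h]; ring
      rw [this]
      linarith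
    · have : (y.1 - z0.1) ^ 2 = r ^ 2 := by rw [h]; ring
      rw [this]
      linarith
    · have h9 := hnb (y.1 - z0.1) (b1.trans hrrb)
      have e1 : ((z0.1 + (y.1 - z0.1), z0.2 + -s) : ℝ × ℝ) = y := by
        ext
        · simp
        · simp only; rw [h]; ring
      have e2 : ((y.1 - z0.1, -s) : ℝ × ℝ) = y - z0 := by
        ext
        · simp
        · simp only [Prod.snd_sub]; rw [h]; ring
      rw [e1, e2] at h9
      linarith
    · have h9 := hna (y.1 - z0.1) (b1.trans hrra)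
      have e1 : ((z0.1 + (y.1 - z0.1), z0.2 + s) : ℝ × ℝ) = y := by
        ext
        · simp
        · simp only; rw [h]
      have e2 : ((y.1 - z0.1, s) : ℝ × ℝ) = y - z0 := by
        ext
        · simp
        · simp only [Prod.snd_sub]; rw [h]; ring
      rw [e1, e2] at h9
      linarith
  · intro y hy
    obtain ⟨b1, b2⟩ := hbox y hy
    have h3 := (hball y (b1.trans hrs) b2).1
    have h7 := hqle y
    have h8 : 0 ≤ κ / 2 * (y.1 - z0.1) ^ 2 := by positivity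
    rw [hQy]
    linarith
  · intro y hy κ' hκ'
    obtain ⟨b1, b2⟩ := hbox y ⟨Ioo_subset_Icc_self hy.1, Ioo_subset_Icc_self hy.2⟩
    have h3 := (hball y (b1.trans hrs) b2).2
    refine ⟨r1 / 2, by positivity, fun h hh hh2 => ?_⟩
    have h4 := hlow (y.1 - z0.1) (y.2 - z0.2) h (by rw [abs_of_pos hh]; linarith) (by linarith)
    have e0 : ((y.1 - z0.1, y.2 - z0.2) : ℝ × ℝ) = y - z0 := rfl
    rw [e0] at h4
    have e1 : D2 Q (h, 0) y = D2 (qf W z0 ε) (h, 0) (y - z0) - κ * h ^ 2 := by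
      unfold D2
      rw [hQy, hQy, hQy]
      have a1 : y + (h, 0) - z0 = y - z0 + (h, 0) := by abel
      have a2 : y - (h, 0) - z0 = y - z0 - (h, 0) := by abel
      rw [a1, a2]
      simp only [Prod.fst_add, Prod.fst_sub]
      ring
    rw [e1]
    have h5 : (β y - κ') * h ^ 2 ≤ (Dpp W z0 - κ - κ) * h ^ 2 := by
      apply mul_le_mul_of_nonneg_right _ (by positivity)
      linarith
    linarith
  · intro y hy κ' hκ'
    refine ⟨1, one_pos, fun h hh hh2 => ?_⟩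
    have h4 := qf_conv W hW hE.cls.1 z0 ε h (y - z0)
    have e1 : D2 Q (0, h) y = D2 (qf W z0 ε) (0, h) (y - z0) := by
      unfold D2
      rw [hQy, hQy, hQy]
      have a1 : y + (0, h) - z0 = y - z0 + (0, h) := by abel
      have a2 : y - (0, h) - z0 = y - z0 - (0, h) := by abel
      rw [a1, a2]
      simp only [Prod.fst_add, Prod.fst_sub]
      ring
    rw [e1]
    have h5 : 0 ≤ κ' * h ^ 2 := by positivity
    linarith

end Pool.Agent.MP_4eca41.E
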