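import Pool.Agent.Work.MP_4eca41_an.E.EDefs
import Pool.Agent.Work.MP_4eca41_an.T.Ker

/-!
# E/QfA: the comparison function `qf`: continuity, convexity in `t`, comparison with `W`

PROOFS.  `z0 = (p0, t0)`, `W1 (h, τ) = W1f W z0 ε h τ = ∫ ker s * W (p0 + h (1 + ε s), t0 + τ) ds`.
`w1f_cont`: `intervalIntegral.continuous_parametric_intervalIntegral_of_continuous'` (the integrand is jointly continuous).
`qf_cont`: the same for `(v, c) ↦ W1f W z0 ε v.1 (c * v.2)`, which is continuous by `w1f_cont`.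
`qf_zero`: `W1f W z0 ε 0 τ = W (p0, t0 + τ)` (`ker_int`), so `qf 0 = 2 W z0 - W z0`.
`qf_conv`: `D2 (qf W z0 ε) (0, k) (h, t) = 2 ∫_0^1 (W1 (h, c t + c k) + W1 (h, c t - c k) - 2 W1 (h, c t)) dc` (the term `W1 (h, 0)` does not
depend on `t`), and `W1 (h, τ + u) + W1 (h, τ - u) - 2 W1 (h, τ) = ∫ ker s (W (·, t0 + τ + u) + W (·, t0 + τ - u) - 2 W (·, t0 + τ)) ≥ 0`
by convexity of `W` in `t` and `ker ≥ 0`.
`qf_le`: by convexity in `t`: `W1 (h, c t) ≤ c W1 (h, t) + (1 - c) W1 (h, 0)` for `0 ≤ c ≤ 1`, so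
`qf (h, t) ≤ 2 (W1 (h, t)/2 + W1 (h, 0)/2) - W1 (h, 0) = W1 (h, t)`.  Then `W1 (h, t) ≤ W (p0 + h, t0 + t)`: by the symmetry
of `ker`, `W1 (h, t) = ∫ ker s * (W (p0 + h + ε h s, t0 + t) + W (p0 + h - ε h s, t0 + t))/2 ds`
(`ker_even`, `intervalIntegral.integral_comp_neg`), and the bracket is `≤ 2 W (p0 + h, t0 + t)` by `hconc` with the step
`ε h s`; `ker_int`.
`qf_lt`: `W1 (0, τ) = W (p0, t0 + τ) =: f τ` is convex and continuous.  `f t - qf (0, t) = 2 ∫_0^1 (c f t + (1 - c) f 0 - f (c t)) dc`, and the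
integrand is continuous and `≥ 0`.  If the integral is not positive the integrand vanishes on `[0, 1]`
(`intervalIntegral.integral_pos_iff...` or: a continuous nonnegative function which is positive somewhere has a
positive integral, `intervalIntegral.integral_pos`), i.e. `f (c t) = c f t + (1 - c) f 0`: `W (p0, ·)` is affine between `t0` and `t0 + t`;
for `t > 0` this contradicts `h1` with `s = t`, for `t < 0` it contradicts `h2` with `s = -t`.
-/

set_option autoImplicit false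

namespace Pool.Agent.MP_4eca41.E

open Set MeasureTheory

theorem w1f_cont (W : ℝ × ℝ → ℝ) (hW : Continuous W) (z0 : ℝ × ℝ) (ε : ℝ) :
    Continuous fun v : ℝ × ℝ => W1f W z0 ε v.1 v.2 := by
  unfold W1f
  refine intervalIntegral.continuous_parametric_intervalIntegral_of_continuous'
    (f := fun (v : ℝ × ℝ) (s : ℝ) => ker s * W (z0.1 + v.1 * (1 + ε * s), z0.2 + v.2)) ?_ _ _
  refine (ker_continuous.comp continuous_snd).mul (hW.comp ?_)
  fun_prop

theorem qf_cont (W : ℝ × ℝ → ℝ) (hW : Continuous W) (z0 : ℝ × ℝ) (ε : ℝ) :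
    Continuous (qf W z0 ε) := by
  have h1 := w1f_cont W hW z0 ε
  have h2 : Continuous fun v : ℝ × ℝ => ∫ c in (0 : ℝ)..1, W1f W z0 ε v.1 (c * v.2) := by
    refine intervalIntegral.continuous_parametric_intervalIntegral_of_continuous'
      (f := fun (v : ℝ × ℝ) (c : ℝ) => W1f W z0 ε v.1 (c * v.2)) ?_ _ _
    exact h1.comp (f := fun p : (ℝ × ℝ) × ℝ => ((p.1.1, p.2 * p.1.2) : ℝ × ℝ)) (by fun_prop)
  have h3 : Continuous fun v : ℝ × ℝ => W1f W z0 ε v.1 0 :=
    h1.comp (f := fun v : ℝ × ℝ => ((v.1, 0) : ℝ × ℝ)) (by fun_prop)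
  exact (continuous_const.mul h2).sub h3

private theorem w1f_zero (W : ℝ × ℝ → ℝ) (z0 : ℝ × ℝ) (ε τ : ℝ) :
    W1f W z0 ε 0 τ = W (z0.1, z0.2 + τ) := by
  unfold W1f
  simp only [zero_mul, add_zero]
  rw [intervalIntegral.integral_mul_const, ker_int, one_mul]

theorem qf_zero (W : ℝ × ℝ → ℝ) (z0 : ℝ × ℝ) (ε : ℝ) : qf W z0 ε (0, 0) = W z0 := by
  unfold qf
  simp only [mul_zero, w1f_zero, add_zero]
  rw [intervalIntegral.integral_const]
  simp only [sub_zero, one_smul]
  ring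

private theorem w1_int {W : ℝ × ℝ → ℝ} (hW : Continuous W) (z0 : ℝ × ℝ) (ε h τ : ℝ) :
    IntervalIntegrable (fun s => ker s * W (z0.1 + h * (1 + ε * s), z0.2 + τ)) volume (-1) 1 := by
  refine Continuous.intervalIntegrable ?_ _ _
  exact ker_continuous.mul (hW.comp (by fun_prop))

private theorem w1f_convex {W : ℝ × ℝ → ℝ} (hW : Continuous W)
    (hc : ∀ p, ConvexOn ℝ univ fun t => W (p, t)) (z0 : ℝ × ℝ) (ε h : ℝ) :
    ConvexOn ℝ univ fun τ => W1f W z0 ε h τ := by
  refine ⟨convex_univ, fun a _ b _ α β hα hβ hαβ => ?_⟩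
  simp only [smul_eq_mul]
  unfold W1f
  rw [← intervalIntegral.integral_const_mul, ← intervalIntegral.integral_const_mul,
    ← intervalIntegral.integral_add ((w1_int hW z0 ε h a).const_mul _)
      ((w1_int hW z0 ε h b).const_mul _)]
  refine intervalIntegral.integral_mono_on (by norm_num) (w1_int hW z0 ε h _)
    (((w1_int hW z0 ε h a).const_mul _).add ((w1_int hW z0 ε h b).const_mul _)) fun s _ => ?_
  have h1 := (hc (z0.1 + h * (1 + ε * s))).2 (mem_univ (z0.2 + a)) (mem_univ (z0.2 + b)) hα hβ hαβ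
  simp only [smul_eq_mul] at h1
  have e : α * (z0.2 + a) + β * (z0.2 + b) = z0.2 + (α * a + β * b) := by
    linear_combination z0.2 * hαβ
  rw [e] at h1
  have h2 := mul_le_mul_of_nonneg_left h1 (ker_nonneg s)
  linarith

private theorem w1c_cont {W : ℝ × ℝ → ℝ} (hW : Continuous W) (z0 : ℝ × ℝ) (ε h t : ℝ) :
    Continuous fun c : ℝ => W1f W z0 ε h (c * t) :=
  (w1f_cont W hW z0 ε).comp (f := fun c : ℝ => ((h, c * t) : ℝ × ℝ)) (by fun_prop)

theorem qf_conv (W : ℝ × ℝ → ℝ) (hW : Continuous W) (hc : ∀ p, ConvexOn ℝ univ fun t => W (p, t))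
    (z0 : ℝ × ℝ) (ε k : ℝ) (v : ℝ × ℝ) : 0 ≤ D2 (qf W z0 ε) (0, k) v := by
  obtain ⟨h, t⟩ := v
  have e1 : ((h, t) : ℝ × ℝ) + (0, k) = (h, t + k) := by ext <;> simp
  have e2 : ((h, t) : ℝ × ℝ) - (0, k) = (h, t - k) := by ext <;> simp
  unfold D2
  rw [e1, e2]
  unfold qf
  simp only
  have i1 := (w1c_cont hW z0 ε h t).intervalIntegrable (μ := volume) 0 1
  have i2 := (w1c_cont hW z0 ε h (t + k)).intervalIntegrable (μ := volume) 0 1
  have i3 := (w1c_cont hW z0 ε h (t - k)).intervalIntegrable (μ := volume) 0 1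
  have key : ∫ c in (0 : ℝ)..1, W1f W z0 ε h (c * t) ≤
      ∫ c in (0 : ℝ)..1, (1 / 2 * W1f W z0 ε h (c * (t + k)) +
        1 / 2 * W1f W z0 ε h (c * (t - k))) := by
    refine intervalIntegral.integral_mono_on (by norm_num) i1
      ((i2.const_mul _).add (i3.const_mul _)) fun c _ => ?_
    have h1 := (w1f_convex hW hc z0 ε h).2 (mem_univ (c * (t + k))) (mem_univ (c * (t - k)))
      (show (0 : ℝ) ≤ 1 / 2 by norm_num) (show (0 : ℝ) ≤ 1 / 2 by norm_num) (by norm_num)
    simp only [smul_eq_mul] at h1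
    have e3 : 1 / 2 * (c * (t + k)) + 1 / 2 * (c * (t - k)) = c * t := by ring
    rw [e3] at h1
    exact h1
  rw [intervalIntegral.integral_add (i2.const_mul _) (i3.const_mul _),
    intervalIntegral.integral_const_mul, intervalIntegral.integral_const_mul] at key
  linarith

private theorem lin_int (A B : ℝ) :
    ∫ c in (0 : ℝ)..1, (c * A + (1 - c) * B) = (A + B) / 2 := by
  have e : ∀ c : ℝ, c * A + (1 - c) * B = c * (A - B) + B := fun c => by ring
  simp only [e]
  rw [intervalIntegral.integral_add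
    ((by fun_prop : Continuous fun c : ℝ => c * (A - B)).intervalIntegrable _ _)
    (continuous_const.intervalIntegrable _ _), intervalIntegral.integral_mul_const, integral_id,
    intervalIntegral.integral_const]
  simp only [smul_eq_mul]
  ring

private theorem w1f_le {W : ℝ × ℝ → ℝ} (hW : Continuous W)
    (hconc : ∀ (h : ℝ) (y : ℝ × ℝ), D2 W (h, 0) y ≤ 0) (z0 : ℝ × ℝ) (ε h t : ℝ) :
    W1f W z0 ε h t ≤ W (z0.1 + h, z0.2 + t) := by
  obtain ⟨g, hg⟩ : ∃ g : ℝ → ℝ, g = fun s => W (z0.1 + h * (1 + ε * s), z0.2 + t) := ⟨_, rfl⟩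
  have hgc : Continuous g := by
    rw [hg]
    exact hW.comp (by fun_prop)
  have e1 : W1f W z0 ε h t = ∫ s in (-1 : ℝ)..1, ker s * g s := by
    unfold W1f
    rw [hg]
  have e2 : W1f W z0 ε h t = ∫ s in (-1 : ℝ)..1, ker s * g (-s) := by
    rw [e1]
    have h1 := intervalIntegral.integral_comp_neg (a := -1) (b := 1) (fun s : ℝ => ker s * g s)
    rw [neg_neg] at h1
    rw [← h1]
    refine intervalIntegral.integral_congr fun s _ => ?_
    simp only [ker_even]
  have i1 : IntervalIntegrable (fun s => ker s * g s) volume (-1) 1 :=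
    (ker_continuous.mul hgc).intervalIntegrable _ _
  have i2 : IntervalIntegrable (fun s => ker s * g (-s)) volume (-1) 1 :=
    (ker_continuous.mul (hgc.comp continuous_neg)).intervalIntegrable _ _
  have h3 : ∫ s in (-1 : ℝ)..1, (ker s * g s + ker s * g (-s)) ≤
      ∫ s in (-1 : ℝ)..1, ker s * (2 * W (z0.1 + h, z0.2 + t)) := by
    refine intervalIntegral.integral_mono_on (by norm_num) (i1.add i2)
      ((ker_continuous.mul continuous_const).intervalIntegrable _ _) fun s _ => ?_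
    have h4 := hconc (h * (ε * s)) (z0.1 + h, z0.2 + t)
    have e3 : ((z0.1 + h, z0.2 + t) : ℝ × ℝ) + (h * (ε * s), 0) =
        (z0.1 + h * (1 + ε * s), z0.2 + t) := by
      ext
      · simp only [Prod.fst_add]; ring
      · simp only [Prod.snd_add]; ring
    have e4 : ((z0.1 + h, z0.2 + t) : ℝ × ℝ) - (h * (ε * s), 0) =
        (z0.1 + h * (1 + ε * (-s)), z0.2 + t) := by
      ext
      · simp only [Prod.fst_sub]; ring
      · simp only [Prod.snd_sub]; ring
    unfold D2 at h4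
    rw [e3, e4] at h4
    have h5 : g s + g (-s) ≤ 2 * W (z0.1 + h, z0.2 + t) := by
      rw [hg]
      simp only
      linarith
    have h6 := mul_le_mul_of_nonneg_left h5 (ker_nonneg s)
    linarith
  rw [intervalIntegral.integral_add i1 i2, ← e1, ← e2, intervalIntegral.integral_mul_const,
    ker_int] at h3
  linarith

theorem qf_le (W : ℝ × ℝ → ℝ) (hW : Continuous W) (hc : ∀ p, ConvexOn ℝ univ fun t => W (p, t))
    (hconc : ∀ (h : ℝ) (y : ℝ × ℝ), D2 W (h, 0) y ≤ 0) (z0 : ℝ × ℝ) (ε : ℝ) (v : ℝ × ℝ) :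
    qf W z0 ε v ≤ W (z0 + v) := by
  obtain ⟨h, t⟩ := v
  refine le_trans ?_ (w1f_le hW hconc z0 ε h t)
  unfold qf
  simp only
  have key : ∫ c in (0 : ℝ)..1, W1f W z0 ε h (c * t) ≤
      ∫ c in (0 : ℝ)..1, (c * W1f W z0 ε h t + (1 - c) * W1f W z0 ε h 0) := by
    refine intervalIntegral.integral_mono_on (by norm_num)
      ((w1c_cont hW z0 ε h t).intervalIntegrable _ _)
      ((by fun_prop : Continuous fun c : ℝ =>
        c * W1f W z0 ε h t + (1 - c) * W1f W z0 ε h 0).intervalIntegrable _ _) fun c hc' => ?_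
    have h1 := (w1f_convex hW hc z0 ε h).2 (mem_univ t) (mem_univ 0) hc'.1
      (sub_nonneg.2 hc'.2) (by ring)
    simp only [smul_eq_mul, mul_zero, add_zero] at h1
    exact h1
  rw [lin_int] at key
  linarith

theorem qf_lt (W : ℝ × ℝ → ℝ) (hW : Continuous W) (hc : ∀ p, ConvexOn ℝ univ fun t => W (p, t))
    (z0 : ℝ × ℝ) (ε : ℝ) (h1 : ¬ FR W z0) (h2 : ¬ FL W z0) (t : ℝ) (ht : t ≠ 0) :
    qf W z0 ε (0, t) < W (z0.1, z0.2 + t) := by
  unfold qf
  simp only [w1f_zero, add_zero]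
  obtain ⟨f, hf⟩ : ∃ f : ℝ → ℝ, f = fun τ => W (z0.1, z0.2 + τ) := ⟨_, rfl⟩
  have hfx : ∀ τ, W (z0.1, z0.2 + τ) = f τ := fun τ => by rw [hf]
  have hf0 : W (z0.1, z0.2) = f 0 := by rw [hf]; simp only [add_zero]
  have hfc : Continuous f := by
    rw [hf]
    exact hW.comp (by fun_prop)
  have hconv : ∀ c ∈ Icc (0 : ℝ) 1, f (c * t) ≤ c * f t + (1 - c) * f 0 := by
    intro c hc'
    have h3 := (hc z0.1).2 (mem_univ (z0.2 + t)) (mem_univ z0.2) hc'.1 (sub_nonneg.2 hc'.2)
      (by ring)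
    simp only [smul_eq_mul] at h3
    have e : c * (z0.2 + t) + (1 - c) * z0.2 = z0.2 + c * t := by ring
    rw [e, hfx, hfx, hf0] at h3
    exact h3
  have hex : ∃ c ∈ Icc (0 : ℝ) 1, f (c * t) < c * f t + (1 - c) * f 0 := by
    by_contra hcon
    push Not at hcon
    have heq : ∀ c ∈ Icc (0 : ℝ) 1, f (c * t) = c * f t + (1 - c) * f 0 := fun c hc' =>
      le_antisymm (hconv c hc') (hcon c hc')
    have hW' : ∀ τ : ℝ, W (z0.1, τ) = f (τ - z0.2) := fun τ => by
      rw [hf]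
      simp only [add_sub_cancel]
    rcases lt_or_gt_of_ne ht with h | h
    · refine h2 ⟨-t, by linarith, ?_⟩
      intro τ hτ
      have hc1 : (τ - z0.2) / t ∈ Icc (0 : ℝ) 1 := by
        constructor
        · exact div_nonneg_of_nonpos (by linarith [hτ.2]) h.le
        · rw [div_le_one_of_neg h]
          linarith [hτ.1]
      have h3 := heq _ hc1
      have e1 : (τ - z0.2) / t * t = τ - z0.2 := by field_simp
      rw [e1] at h3
      rw [hW' τ, hW' (z0.2 - -t), hW' z0.2, h3]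
      have e2 : z0.2 - -t - z0.2 = t := by ring
      have e3 : z0.2 - z0.2 = (0 : ℝ) := by ring
      rw [e2, e3]
      field_simp
      ring
    · refine h1 ⟨t, h, ?_⟩
      intro τ hτ
      have hc1 : (τ - z0.2) / t ∈ Icc (0 : ℝ) 1 := by
        constructor
        · exact div_nonneg (by linarith [hτ.1]) h.le
        · rw [div_le_one h]
          linarith [hτ.2]
      have h3 := heq _ hc1
      have e1 : (τ - z0.2) / t * t = τ - z0.2 := by field_simp
      rw [e1] at h3
      rw [hW' τ, hW' (z0.2 + t), hW' z0.2, h3]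
      have e2 : z0.2 + t - z0.2 = t := by ring
      have e3 : z0.2 - z0.2 = (0 : ℝ) := by ring
      rw [e2, e3]
      field_simp
      ring
  have key := intervalIntegral.integral_lt_integral_of_continuousOn_of_le_of_exists_lt
    (f := fun c : ℝ => f (c * t)) (g := fun c : ℝ => c * f t + (1 - c) * f 0)
    (show (0 : ℝ) < 1 by norm_num)
    (hfc.comp (by fun_prop : Continuous fun c : ℝ => c * t)).continuousOn
    (by fun_prop : Continuous fun c : ℝ => c * f t + (1 - c) * f 0).continuousOn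
    (fun c hc' => hconv c ⟨hc'.1.le, hc'.2⟩) hex
  rw [lin_int] at key
  simp only [hfx]
  rw [hf0]
  linarith

end Pool.Agent.MP_4eca41.E
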